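import Mathlib

/-!
Primes of polylogarithmic size which do not divide a given number.
-/

set_option autoImplicit false

namespace Pool.Agent.Y887.UT

open Finset Filter

theorem card_pf_lt {W x : ℕ} (hW : W ≠ 0) (hx : W < 2 ^ x) : W.primeFactors.card < x := by
  have h1 : 2 ^ W.primeFactors.card ≤ ∏ p ∈ W.primeFactors, p :=
    pow_card_le_prod _ _ _ (fun p hp => (Nat.prime_of_mem_primeFactors hp).two_le)
  have h2 : ∏ p ∈ W.primeFactors, p ≤ W :=
    Nat.le_of_dvd (Nat.pos_of_ne_zero hW) (Nat.prod_primeFactors_dvd W)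
  exact (Nat.pow_lt_pow_iff_right (by norm_num)).1 ((h1.trans h2).trans_lt hx)

theorem many_primes (C : ℕ) : ∃ x0 : ℕ, ∀ x : ℕ, x0 ≤ x →
    x + C ≤ Nat.primeCounting (x ^ 2) := by
  have hlog : ∀ᶠ x : ℕ in atTop, Real.log x ≤ (1 / 32 : ℝ) * x := by
    have h1 := (Real.isLittleO_log_id_atTop.bound (show (0 : ℝ) < 1 / 32 by norm_num))
    have h2 := tendsto_natCast_atTop_atTop.eventually h1
    filter_upwards [h2, eventually_ge_atTop 1] with x hx hx1
    simp only [id, Real.norm_eq_abs] at hx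
    have h3 : (0 : ℝ) ≤ x := Nat.cast_nonneg x
    rw [abs_of_nonneg h3] at hx
    exact (le_abs_self _).trans hx
  obtain ⟨x0, hx0⟩ := eventually_atTop.1 (hlog.and (eventually_ge_atTop (C + 16)))
  refine ⟨x0, fun x hx => ?_⟩
  obtain ⟨h1, h2⟩ := hx0 x hx
  have hx16 : (16 : ℝ) ≤ x := by
    have : 16 ≤ x := by omega
    exact_mod_cast this
  have hxC : (C : ℝ) ≤ x := by
    have : C ≤ x := by omega
    exact_mod_cast this
  have h3 := Chebyshev.psi_ge (x ^ 2)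
  have h4 := Chebyshev.psi_le_primeCounting_mul_log (x ^ 2)
  have h5 : Real.log ((x ^ 2 : ℕ) : ℝ) = 2 * Real.log x := by
    push_cast
    rw [Real.log_pow]
    norm_num
  have h6 : Real.log (((x ^ 2 : ℕ) : ℝ) + 1) ≤ 2 * Real.log x + 1 := by
    have h7 : ((x ^ 2 : ℕ) : ℝ) + 1 ≤ 2 * ((x ^ 2 : ℕ) : ℝ) := by
      push_cast
      nlinarith
    have h8 : Real.log (((x ^ 2 : ℕ) : ℝ) + 1) ≤ Real.log (2 * ((x ^ 2 : ℕ) : ℝ)) :=
      Real.log_le_log (by positivity) h7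
    have hx2 : ((x ^ 2 : ℕ) : ℝ) ≠ 0 := by
      push_cast
      positivity
    rw [Real.log_mul (by norm_num) hx2, h5] at h8
    have := Real.log_two_lt_d9
    linarith
  have h7 : (0 : ℝ) < Real.log x := Real.log_pos (by linarith)
  rw [h5] at h4
  have h8 : ((x ^ 2 : ℕ) : ℝ) * Real.log 2 - (2 * Real.log x + 1) ≤
      (Nat.primeCounting (x ^ 2) : ℝ) * (2 * Real.log x) := by linarith
  have h9 := Real.log_two_gt_d9
  by_contra hcon
  push Not at hcon
  have h10 : (Nat.primeCounting (x ^ 2) : ℝ) ≤ 2 * x := by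
    have : Nat.primeCounting (x ^ 2) ≤ x + C := hcon.le
    have h11 : (Nat.primeCounting (x ^ 2) : ℝ) ≤ x + C := by exact_mod_cast this
    linarith
  have h11 : (Nat.primeCounting (x ^ 2) : ℝ) * (2 * Real.log x) ≤ 2 * x * (2 * Real.log x) :=
    mul_le_mul_of_nonneg_right h10 (by linarith)
  push_cast at h8
  nlinarith

/-- primes avoiding a number -/
theorem avoid (n0 B : ℕ) : ∃ x0 : ℕ, ∀ x : ℕ, x0 ≤ x → ∀ W : ℕ, W ≠ 0 → W < 2 ^ x →
    ∃ r : Fin n0 → ℕ, Function.Injective r ∧ ∀ i, (r i).Prime ∧ B < r i ∧ r i ≤ x ^ 2 ∧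
      ¬ r i ∣ W := by
  classical
  obtain ⟨x0, hx0⟩ := many_primes (B + 1 + n0)
  refine ⟨x0, fun x hx W hW hWx => ?_⟩
  have h1 := hx0 x hx
  have h2 := card_pf_lt hW hWx
  have h3 : ((range (x ^ 2 + 1)).filter Nat.Prime).card = Nat.primeCounting (x ^ 2) := by
    rw [Nat.primeCounting, Nat.primeCounting', Nat.count_eq_card_filter_range]
  obtain ⟨S, hS⟩ : ∃ S : Finset ℕ, S = ((range (x ^ 2 + 1)).filter Nat.Prime \ range (B + 1)) \
    W.primeFactors := ⟨_, rfl⟩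
  have h4 : n0 ≤ S.card := by
    have h5 := le_card_sdiff W.primeFactors ((range (x ^ 2 + 1)).filter Nat.Prime \ range (B + 1))
    have h6 := le_card_sdiff (range (B + 1)) ((range (x ^ 2 + 1)).filter Nat.Prime)
    rw [card_range, h3] at h6
    rw [← hS] at h5
    omega
  obtain ⟨T, hT, hTc⟩ := exists_subset_card_eq h4
  refine ⟨fun i => T.orderEmbOfFin hTc i, (T.orderEmbOfFin hTc).injective, fun i => ?_⟩
  have h5 := hT (T.orderEmbOfFin_mem hTc i)
  beta_reduce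
  generalize T.orderEmbOfFin hTc i = y at h5 ⊢
  rw [hS, Finset.mem_sdiff, Finset.mem_sdiff, mem_filter, mem_range, mem_range] at h5
  obtain ⟨⟨⟨h6, h7⟩, h8⟩, h9⟩ := h5
  exact ⟨h7, by omega, by omega, fun hd => h9 (Nat.mem_primeFactors.2 ⟨h7, hd, hW⟩)⟩

end Pool.Agent.Y887.UT
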