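import Mathlib
import Pool.Agent.Y887.QE.SvB

/-!
Linear forms along a progression: divisibility, counting, exceptional arguments.
-/

set_option autoImplicit false

namespace Pool.Agent.Y887.UT

open Finset Filter Pool.Agent.Y887.QE

/-- the absolute value of a linear form -/
def lv (Q : ℕ) (a : ℤ) (m : ℕ) : ℕ := ((Q : ℤ) * m + a).natAbs

theorem dvd_lv {Q : ℕ} {a : ℤ} {m d : ℕ} : d ∣ lv Q a m ↔ (d : ℤ) ∣ (Q : ℤ) * m + a := by
  unfold lv
  exact Int.natCast_dvd.symm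

/-- few arguments in a residue class -/
theorem cnt_dvd {Q d : ℕ} (a : ℤ) (X : ℕ) (hd : 0 < d) (hQd : Nat.Coprime d Q) :
    ((Icc 1 X).filter (fun m => d ∣ lv Q a m)).card ≤ X / d + 1 := by
  classical
  set W := (Icc 1 X).filter (fun m => d ∣ lv Q a m) with hW
  have hmod : ∀ m ∈ W, ∀ n ∈ W, m % d = n % d := by
    intro m hm n hn
    rw [hW, mem_filter, dvd_lv] at hm hn
    have h1 := dvd_sub hm.2 hn.2
    have e : (Q : ℤ) * m + a - ((Q : ℤ) * n + a) = (Q : ℤ) * ((m : ℤ) - n) := by ring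
    rw [e] at h1
    have h2 : IsCoprime (d : ℤ) (Q : ℤ) := Nat.isCoprime_iff_coprime.2 hQd
    have h3 := h2.dvd_of_dvd_mul_left h1
    exact ((Nat.modEq_iff_dvd).2 h3).symm
  calc W.card ≤ (range (X / d + 1)).card := by
        apply card_le_card_of_injOn (fun m => m / d)
        · intro m hm
          rw [mem_coe, hW, mem_filter, mem_Icc] at hm
          rw [mem_coe, mem_range]
          exact Nat.lt_succ_of_le (Nat.div_le_div_right hm.1.2)
        · intro m hm n hn hmn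
          simp only at hmn
          rw [← Nat.div_add_mod m d, ← Nat.div_add_mod n d, hmn, hmod m hm n hn]
    _ = _ := card_range _

/-- the properties of the system -/
structure Sys {ι : Type} (Q : ℕ) (a : ι → ℤ) (c : ι → ℕ) : Prop where
  Qpos : 0 < Q
  cd : ∀ h m, c h ∣ lv Q (a h) m
  cQ : ∀ h p, p.Prime → p ∣ c h → p ∣ Q
  nd : ∀ h m p, p.Prime → p ∣ Q → ¬ p ∣ lv Q (a h) m / c h

theorem Sys.key {ι : Type} {Q : ℕ} {a : ι → ℤ} {c : ι → ℕ} (H : Sys Q a c) {h : ι} {p m : ℕ}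
    (hp : p.Prime) (hpQ : ¬ p ∣ Q) : p ∣ lv Q (a h) m / c h ↔ p ∣ lv Q (a h) m := by
  constructor
  · intro h1
    exact h1.trans (Nat.div_dvd_of_dvd (H.cd h m))
  · intro h1
    rw [← Nat.div_mul_cancel (H.cd h m)] at h1
    rcases (hp.dvd_mul).1 h1 with h2 | h2
    · exact h2
    · exact absurd (H.cQ h p hp h2) hpQ

theorem Sys.good {ι : Type} {Q : ℕ} {a : ι → ℤ} {c : ι → ℕ} (H : Sys Q a c) :
    Good (fun h m => lv Q (a h) m / c h) := by
  classical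
  constructor
  · intro h p n hp
    show p ∣ lv Q (a h) n / c h ↔ p ∣ lv Q (a h) (n % p) / c h
    by_cases hpQ : p ∣ Q
    · exact ⟨fun h1 => absurd h1 (H.nd h n p hp hpQ), fun h1 => absurd h1 (H.nd h _ p hp hpQ)⟩
    · rw [H.key hp hpQ, H.key hp hpQ, dvd_lv, dvd_lv]
      have h1 : (p : ℤ) ∣ (n : ℤ) - ((n % p : ℕ) : ℤ) := by
        rw [Int.natCast_mod]
        exact Int.dvd_self_sub_emod
      have e : (Q : ℤ) * n + a h = (Q : ℤ) * ((n % p : ℕ) : ℤ) + a h +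
          (Q : ℤ) * ((n : ℤ) - ((n % p : ℕ) : ℤ)) := by ring
      rw [e]
      exact (Int.dvd_add_left (h1.mul_left _))
  · intro h p hp
    show ((range p).filter (fun r => p ∣ lv Q (a h) r / c h)).card ≤ 2
    by_cases hpQ : p ∣ Q
    · have : (range p).filter (fun r => p ∣ lv Q (a h) r / c h) = ∅ := by
        rw [filter_eq_empty_iff]
        intro r _
        exact H.nd h r p hp hpQ
      rw [this]
      simp
    · refine le_trans (card_le_one.2 ?_) (by norm_num : 1 ≤ 2)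
      intro r hr s hs
      rw [mem_filter, mem_range, H.key hp hpQ, dvd_lv] at hr hs
      have h1 := dvd_sub hr.2 hs.2
      have e : (Q : ℤ) * r + a h - ((Q : ℤ) * s + a h) = (Q : ℤ) * ((r : ℤ) - s) := by ring
      rw [e] at h1
      have h2 : IsCoprime (p : ℤ) (Q : ℤ) :=
        Nat.isCoprime_iff_coprime.2 ((Nat.Prime.coprime_iff_not_dvd hp).2 hpQ)
      have h3 := h2.dvd_of_dvd_mul_left h1
      have h4 : r % p = s % p := ((Nat.modEq_iff_dvd).2 h3).symm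
      rwa [Nat.mod_eq_of_lt hr.1, Nat.mod_eq_of_lt hs.1] at h4

theorem Sys.ne {ι : Type} {Q : ℕ} {a : ι → ℤ} {c : ι → ℕ} (H : Sys Q a c) (h2 : 2 ∣ Q) (h : ι)
    (m : ℕ) : lv Q (a h) m / c h ≠ 0 := by
  intro h0
  apply H.nd h m 2 Nat.prime_two h2
  rw [h0]
  exact dvd_zero _

open Classical in
/-- the arguments with a bad prime or a large square factor are few -/
theorem exc {ι : Type} [Fintype ι] {Q : ℕ} {a : ι → ℤ} {c : ι → ℕ} (H : Sys Q a c) (h2 : 2 ∣ Q)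
    (X z Y : ℕ) (bad : Finset ℕ) (hbad : ∀ p ∈ bad, p.Prime) (hz : 1 ≤ z) (hzY : z ≤ Y)
    (hY : ∀ h, ∀ m ≤ X, lv Q (a h) m ≤ Y ^ 2) :
    (((Icc 1 X).filter (fun m => ∃ h, ∃ p : ℕ, p.Prime ∧ z < p ∧ p ∣ lv Q (a h) m / c h ∧
      (p ∈ bad ∨ p ^ 2 ∣ lv Q (a h) m / c h))).card : ℝ) ≤
      (Fintype.card ι : ℝ) * (X / z + Y + bad.card * (X / z + 1)) := by
  have hzr : (0 : ℝ) < z := by exact_mod_cast hz
  have hsub : (Icc 1 X).filter (fun m => ∃ h, ∃ p : ℕ, p.Prime ∧ z < p ∧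
      p ∣ lv Q (a h) m / c h ∧ (p ∈ bad ∨ p ^ 2 ∣ lv Q (a h) m / c h)) ⊆
      (univ : Finset ι).biUnion (fun h =>
        ((Ioc z Y).filter (fun p => p.Prime ∧ ¬ p ∣ Q)).biUnion (fun p =>
          (Icc 1 X).filter (fun m => p ^ 2 ∣ lv Q (a h) m)) ∪
        (bad.filter (fun p => z < p ∧ ¬ p ∣ Q)).biUnion (fun p =>
          (Icc 1 X).filter (fun m => p ∣ lv Q (a h) m))) := by
    intro m hm
    rw [mem_filter] at hm
    obtain ⟨hm1, h, p, hp, hzp, hpd, hor⟩ := hm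
    rw [mem_biUnion]
    refine ⟨h, mem_univ _, ?_⟩
    have hpQ : ¬ p ∣ Q := fun h3 => H.nd h m p hp h3 hpd
    have hne : lv Q (a h) m ≠ 0 := by
      intro h0
      apply H.ne h2 h m
      rw [h0, Nat.zero_div]
    rw [mem_union]
    rcases hor with h3 | h3
    · right
      rw [mem_biUnion]
      exact ⟨p, mem_filter.2 ⟨h3, hzp, hpQ⟩, mem_filter.2 ⟨hm1, (H.key hp hpQ).1 hpd⟩⟩
    · left
      rw [mem_biUnion]
      have h4 : p ^ 2 ∣ lv Q (a h) m := h3.trans (Nat.div_dvd_of_dvd (H.cd h m))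
      refine ⟨p, mem_filter.2 ⟨mem_Ioc.2 ⟨hzp, ?_⟩, hp, hpQ⟩, mem_filter.2 ⟨hm1, h4⟩⟩
      have h5 := (Nat.le_of_dvd (Nat.pos_of_ne_zero hne) h4).trans (hY h m (mem_Icc.1 hm1).2)
      exact (Nat.pow_le_pow_iff_left (by norm_num : (2 : ℕ) ≠ 0)).1 h5
  have h1 := card_le_card hsub
  have hsq : ∑ p ∈ Ioc z Y, ((p : ℝ) ^ 2)⁻¹ ≤ (z : ℝ)⁻¹ := by
    have h3 := sum_Ioc_inv_sq_le_sub (α := ℝ) (k := z) (n := Y) (by omega) hzY
    have h4 : (0 : ℝ) ≤ ((Y : ℝ))⁻¹ := by positivity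
    linarith
  have hA : ∀ h : ι, ((((Ioc z Y).filter (fun p => p.Prime ∧ ¬ p ∣ Q)).biUnion (fun p =>
          (Icc 1 X).filter (fun m => p ^ 2 ∣ lv Q (a h) m))).card : ℝ) ≤ X / z + Y := by
    intro h
    have h3 : (((Ioc z Y).filter (fun p => p.Prime ∧ ¬ p ∣ Q)).biUnion (fun p =>
          (Icc 1 X).filter (fun m => p ^ 2 ∣ lv Q (a h) m))).card ≤
        ∑ p ∈ (Ioc z Y).filter (fun p => p.Prime ∧ ¬ p ∣ Q), (X / p ^ 2 + 1) := by
      refine card_biUnion_le.trans (sum_le_sum fun p hp => ?_)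
      rw [mem_filter] at hp
      exact cnt_dvd _ _ (pow_pos hp.2.1.pos 2)
        (Nat.Coprime.pow_left 2 ((Nat.Prime.coprime_iff_not_dvd hp.2.1).2 hp.2.2))
    have h4 : ((∑ p ∈ (Ioc z Y).filter (fun p => p.Prime ∧ ¬ p ∣ Q), (X / p ^ 2 + 1) : ℕ) : ℝ) ≤
        ∑ p ∈ Ioc z Y, (X * ((p : ℝ) ^ 2)⁻¹ + 1) := by
      push_cast
      calc ∑ p ∈ (Ioc z Y).filter (fun p => p.Prime ∧ ¬ p ∣ Q), (((X / p ^ 2 : ℕ) : ℝ) + 1)
          ≤ ∑ p ∈ Ioc z Y, (((X / p ^ 2 : ℕ) : ℝ) + 1) :=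
            sum_le_sum_of_subset_of_nonneg (filter_subset _ _) (fun _ _ _ => by positivity)
        _ ≤ _ := by
            apply sum_le_sum
            intro p _
            have h5 : ((X / p ^ 2 : ℕ) : ℝ) ≤ (X : ℝ) / ((p ^ 2 : ℕ) : ℝ) := Nat.cast_div_le
            rw [div_eq_mul_inv] at h5
            push_cast at h5
            linarith
    have h5 : ∑ p ∈ Ioc z Y, ((X : ℝ) * ((p : ℝ) ^ 2)⁻¹ + 1) ≤ X / z + Y := by
      rw [sum_add_distrib, ← mul_sum, sum_const, Nat.card_Ioc, nsmul_eq_mul, mul_one]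
      have h6 : (X : ℝ) * ∑ p ∈ Ioc z Y, ((p : ℝ) ^ 2)⁻¹ ≤ X * (z : ℝ)⁻¹ :=
        mul_le_mul_of_nonneg_left hsq (Nat.cast_nonneg X)
      have h7 : ((Y - z : ℕ) : ℝ) ≤ Y := by exact_mod_cast Nat.sub_le Y z
      rw [div_eq_mul_inv]
      linarith
    have h6 : ((((Ioc z Y).filter (fun p => p.Prime ∧ ¬ p ∣ Q)).biUnion (fun p =>
          (Icc 1 X).filter (fun m => p ^ 2 ∣ lv Q (a h) m))).card : ℝ) ≤
        ((∑ p ∈ (Ioc z Y).filter (fun p => p.Prime ∧ ¬ p ∣ Q), (X / p ^ 2 + 1) : ℕ) : ℝ) := by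
      exact_mod_cast h3
    linarith
  have hB : ∀ h : ι, (((bad.filter (fun p => z < p ∧ ¬ p ∣ Q)).biUnion (fun p =>
          (Icc 1 X).filter (fun m => p ∣ lv Q (a h) m))).card : ℝ) ≤ bad.card * (X / z + 1) := by
    intro h
    have h3 : ((bad.filter (fun p => z < p ∧ ¬ p ∣ Q)).biUnion (fun p =>
          (Icc 1 X).filter (fun m => p ∣ lv Q (a h) m))).card ≤
        ∑ p ∈ bad.filter (fun p => z < p ∧ ¬ p ∣ Q), (X / p + 1) := by
      refine card_biUnion_le.trans (sum_le_sum fun p hp => ?_)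
      rw [mem_filter] at hp
      have hpp := hbad p hp.1
      exact cnt_dvd _ _ hpp.pos ((Nat.Prime.coprime_iff_not_dvd hpp).2 hp.2.2)
    have h4 : ((∑ p ∈ bad.filter (fun p => z < p ∧ ¬ p ∣ Q), (X / p + 1) : ℕ) : ℝ) ≤
        ∑ _p ∈ bad.filter (fun p => z < p ∧ ¬ p ∣ Q), ((X : ℝ) / z + 1) := by
      push_cast
      apply sum_le_sum
      intro p hp
      rw [mem_filter] at hp
      have h5 : ((X / p : ℕ) : ℝ) ≤ (X : ℝ) / p := Nat.cast_div_le
      have h6 : (X : ℝ) / p ≤ X / z := by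
        apply div_le_div_of_nonneg_left (Nat.cast_nonneg X) hzr
        exact_mod_cast hp.2.1.le
      linarith
    have h5 : ∑ _p ∈ bad.filter (fun p => z < p ∧ ¬ p ∣ Q), ((X : ℝ) / z + 1) ≤
        bad.card * (X / z + 1) := by
      rw [sum_const, nsmul_eq_mul]
      apply mul_le_mul_of_nonneg_right _ (by positivity)
      exact_mod_cast card_filter_le _ _
    have h6 : (((bad.filter (fun p => z < p ∧ ¬ p ∣ Q)).biUnion (fun p =>
          (Icc 1 X).filter (fun m => p ∣ lv Q (a h) m))).card : ℝ) ≤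
        ((∑ p ∈ bad.filter (fun p => z < p ∧ ¬ p ∣ Q), (X / p + 1) : ℕ) : ℝ) := by
      exact_mod_cast h3
    linarith
  have h3 : (((univ : Finset ι).biUnion (fun h =>
        ((Ioc z Y).filter (fun p => p.Prime ∧ ¬ p ∣ Q)).biUnion (fun p =>
          (Icc 1 X).filter (fun m => p ^ 2 ∣ lv Q (a h) m)) ∪
        (bad.filter (fun p => z < p ∧ ¬ p ∣ Q)).biUnion (fun p =>
          (Icc 1 X).filter (fun m => p ∣ lv Q (a h) m)))).card : ℝ) ≤
      ∑ _h : ι, ((X : ℝ) / z + Y + bad.card * (X / z + 1)) := by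
    have h4 := card_biUnion_le (s := (univ : Finset ι)) (t := fun h =>
        ((Ioc z Y).filter (fun p => p.Prime ∧ ¬ p ∣ Q)).biUnion (fun p =>
          (Icc 1 X).filter (fun m => p ^ 2 ∣ lv Q (a h) m)) ∪
        (bad.filter (fun p => z < p ∧ ¬ p ∣ Q)).biUnion (fun p =>
          (Icc 1 X).filter (fun m => p ∣ lv Q (a h) m)))
    refine ((Nat.cast_le (α := ℝ)).2 h4).trans ?_
    push_cast
    apply sum_le_sum
    intro h _
    have h5 := card_union_le (((Ioc z Y).filter (fun p => p.Prime ∧ ¬ p ∣ Q)).biUnion (fun p =>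
          (Icc 1 X).filter (fun m => p ^ 2 ∣ lv Q (a h) m)))
        ((bad.filter (fun p => z < p ∧ ¬ p ∣ Q)).biUnion (fun p =>
          (Icc 1 X).filter (fun m => p ∣ lv Q (a h) m)))
    refine ((Nat.cast_le (α := ℝ)).2 h5).trans ?_
    push_cast
    exact add_le_add (hA h) (hB h)
  rw [sum_const, card_univ, nsmul_eq_mul] at h3
  exact ((Nat.cast_le (α := ℝ)).2 h1).trans h3

end Pool.Agent.Y887.UT
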