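import Mathlib
import Pool.Agent.Y887.UT.SvA

/-!
The sieve for linear forms along a progression, uniformly in the forms, with a set of excluded primes.
-/

set_option autoImplicit false

namespace Pool.Agent.Y887.UT

open Finset Filter Pool.Agent.Y887.QE

/-- the exceptional set is small, uniformly -/
theorem exc_small (κ K : ℕ) (hK : 2 ≤ K) : ∃ X0 : ℕ, ∀ X : ℕ, X0 ≤ X → ∀ z Y w : ℕ, 1 ≤ z →
    X ≤ (2 * z) ^ K → Y ^ 4 ≤ 16 * X ^ 3 → w ^ (2 * K) ≤ X →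
    1 ≤ Real.log X ∧ (κ : ℝ) * (X / z + Y + w * (X / z + 1)) ≤ X / Real.log X ^ (K + 1) := by
  have hKr : (0 : ℝ) < K := by exact_mod_cast (by omega : 0 < K)
  obtain ⟨δ, hδd⟩ : ∃ δ : ℝ, δ = 1 / (2 * (K : ℝ)) := ⟨_, rfl⟩
  have hδ0 : 0 < δ := by rw [hδd]; positivity
  have hδ4 : δ ≤ 1 / 4 := by
    rw [hδd]
    have h1 : (2 : ℝ) ≤ K := by exact_mod_cast hK
    rw [div_le_div_iff₀ (by positivity) (by norm_num)]
    linarith
  have hlim : Tendsto (fun x : ℝ => (7 * (κ : ℝ)) * (Real.log x ^ (K + 1) / x ^ δ)) atTop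
      (nhds 0) := by
    have h1 : Tendsto (fun x : ℝ => Real.log x ^ (K + 1) / x ^ δ) atTop (nhds 0) := by
      have h2 := isLittleO_log_rpow_atTop (r := δ / (K + 1)) (by positivity)
      have h3 := h2.tendsto_div_nhds_zero.pow (K + 1)
      rw [zero_pow (by omega)] at h3
      refine h3.congr' ?_
      filter_upwards [eventually_gt_atTop 0] with x hx
      rw [div_pow, ← Real.rpow_natCast (x ^ (δ / (K + 1))), ← Real.rpow_mul hx.le]
      congr 2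
      push_cast
      field_simp
    have h4 := h1.const_mul (7 * (κ : ℝ))
    rwa [mul_zero] at h4
  have hev : ∀ᶠ X : ℕ in atTop, (7 * (κ : ℝ)) * (Real.log X ^ (K + 1) / (X : ℝ) ^ δ) < 1 :=
    (hlim.comp tendsto_natCast_atTop_atTop).eventually_lt_const (by norm_num)
  obtain ⟨X0, hX0⟩ := eventually_atTop.1 (hev.and (eventually_ge_atTop 3))
  refine ⟨X0, fun X hX z Y w hz hzX hYX hwX => ?_⟩
  obtain ⟨h1, h2⟩ := hX0 X hX
  have hX3 : (3 : ℝ) ≤ X := by exact_mod_cast h2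
  have hXpos : (0 : ℝ) < X := by linarith
  have hlog : 1 ≤ Real.log X := by
    rw [Real.le_log_iff_exp_le hXpos]
    have := Real.exp_one_lt_d9
    linarith
  refine ⟨hlog, ?_⟩
  have hzr : (1 : ℝ) ≤ z := by exact_mod_cast hz
  -- X ^ (1/K) ≤ 2 z
  have hz1 : (X : ℝ) ^ (2 * δ) ≤ 2 * z := by
    have h3 : (X : ℝ) ≤ (2 * z) ^ K := by exact_mod_cast hzX
    have h4 : (X : ℝ) ^ (1 / (K : ℝ)) ≤ ((2 * (z : ℝ)) ^ K) ^ (1 / (K : ℝ)) :=
      Real.rpow_le_rpow hXpos.le h3 (by positivity)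
    rw [← Real.rpow_natCast, ← Real.rpow_mul (by positivity), mul_one_div_cancel hKr.ne',
      Real.rpow_one] at h4
    have e : 2 * δ = 1 / (K : ℝ) := by rw [hδd]; field_simp
    rwa [e]
  have hw1 : (w : ℝ) ≤ (X : ℝ) ^ δ := by
    have h3 : (w : ℝ) ^ (2 * K) ≤ X := by exact_mod_cast hwX
    have h4 : ((w : ℝ) ^ (2 * K)) ^ δ ≤ (X : ℝ) ^ δ :=
      Real.rpow_le_rpow (by positivity) h3 hδ0.le
    rw [← Real.rpow_natCast, ← Real.rpow_mul (by positivity)] at h4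
    have e : ((2 * K : ℕ) : ℝ) * δ = 1 := by
      rw [hδd]; push_cast; field_simp
    rwa [e, Real.rpow_one] at h4
  have hY1 : (Y : ℝ) ≤ 2 * (X : ℝ) ^ (3 / 4 : ℝ) := by
    have h3 : (Y : ℝ) ^ 4 ≤ 16 * X ^ 3 := by exact_mod_cast hYX
    have h4 : (2 * (X : ℝ) ^ (3 / 4 : ℝ)) ^ 4 = 16 * X ^ 3 := by
      rw [mul_pow, ← Real.rpow_natCast ((X : ℝ) ^ (3 / 4 : ℝ)), ← Real.rpow_mul hXpos.le]
      norm_num
    rw [← h4] at h3
    exact le_of_pow_le_pow_left₀ (by norm_num) (by positivity) h3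
  have hXz : (X : ℝ) / z ≤ 2 * (X : ℝ) ^ (1 - 2 * δ) := by
    rw [Real.rpow_sub hXpos, Real.rpow_one, div_le_iff₀ (by linarith)]
    have h3 : 0 < (X : ℝ) ^ (2 * δ) := Real.rpow_pos_of_pos hXpos _
    calc (X : ℝ) = X * ((X : ℝ) ^ (2 * δ) / (X : ℝ) ^ (2 * δ)) := by
          rw [div_self h3.ne', mul_one]
      _ ≤ X * ((2 * z) / (X : ℝ) ^ (2 * δ)) := by
          apply mul_le_mul_of_nonneg_left _ hXpos.le
          exact div_le_div_of_nonneg_right hz1 h3.le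
      _ = _ := by ring
  have hE : ∀ e : ℝ, e ≤ 1 - δ → (X : ℝ) ^ e ≤ (X : ℝ) ^ (1 - δ) := fun e he =>
    Real.rpow_le_rpow_of_exponent_le (by linarith) he
  have h5 : (X : ℝ) / z ≤ 2 * (X : ℝ) ^ (1 - δ) :=
    hXz.trans (mul_le_mul_of_nonneg_left (hE _ (by linarith)) (by norm_num))
  have h6 : (Y : ℝ) ≤ 2 * (X : ℝ) ^ (1 - δ) :=
    hY1.trans (mul_le_mul_of_nonneg_left (hE _ (by linarith)) (by norm_num))
  have h7 : (w : ℝ) * (X / z + 1) ≤ 3 * (X : ℝ) ^ (1 - δ) := by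
    have h8 : (w : ℝ) * (X / z) ≤ 2 * (X : ℝ) ^ (1 - δ) := by
      calc (w : ℝ) * (X / z) ≤ (X : ℝ) ^ δ * (2 * (X : ℝ) ^ (1 - 2 * δ)) :=
            mul_le_mul hw1 hXz (by positivity) (by positivity)
        _ = 2 * ((X : ℝ) ^ δ * (X : ℝ) ^ (1 - 2 * δ)) := by ring
        _ = _ := by
            rw [← Real.rpow_add hXpos]
            congr 2
            ring
    have h9 : (w : ℝ) ≤ (X : ℝ) ^ (1 - δ) := hw1.trans (hE _ (by linarith))
    linarith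
  have h8 : (κ : ℝ) * (X / z + Y + w * (X / z + 1)) ≤ (7 * κ) * (X : ℝ) ^ (1 - δ) := by
    have : (0 : ℝ) ≤ κ := Nat.cast_nonneg _
    calc (κ : ℝ) * (X / z + Y + w * (X / z + 1)) ≤ κ * (7 * (X : ℝ) ^ (1 - δ)) := by
          apply mul_le_mul_of_nonneg_left _ this
          linarith
      _ = _ := by ring
  refine h8.trans ?_
  rw [Real.rpow_sub hXpos, Real.rpow_one, le_div_iff₀ (by positivity)]
  have h10 : 0 < (X : ℝ) ^ δ := Real.rpow_pos_of_pos hXpos _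
  calc 7 * (κ : ℝ) * (X / (X : ℝ) ^ δ) * Real.log X ^ (K + 1)
      = X * (7 * (κ : ℝ) * (Real.log X ^ (K + 1) / (X : ℝ) ^ δ)) := by ring
    _ ≤ X * 1 := mul_le_mul_of_nonneg_left h1.le hXpos.le
    _ = X := mul_one _

open Classical in
/-- the sieve for linear forms along a progression -/
theorem sieveL : ∃ C1 : ℕ, 1 ≤ C1 ∧ ∀ κ : ℕ, 1 ≤ κ → ∃ K X0 : ℕ, 2 ≤ K ∧ ∀ X : ℕ, X0 ≤ X →
    ∀ (ι : Type) [Fintype ι], Fintype.card ι = κ → ∀ (Q : ℕ) (a : ι → ℤ) (c : ι → ℕ), Sys Q a c →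
    (∀ p : ℕ, p.Prime → p ≤ 4 * κ → p ∣ Q) →
    (∀ h, ∀ m ≤ X, lv Q (a h) m ^ 2 ≤ X ^ 3) →
    ∀ bad : Finset ℕ, (∀ p ∈ bad, p.Prime) → bad.card ^ (2 * K) ≤ X →
    (X : ℝ) / Real.log X ^ K ≤
      (((Icc 1 X).filter (fun m => (∀ h, Squarefree (lv Q (a h) m / c h)) ∧
        ∑ h, (lv Q (a h) m / c h).primeFactors.card ≤ κ * (C1 * (Nat.log 2 κ + 1)) ∧
        ∀ h, ∀ p : ℕ, p.Prime → p ∣ lv Q (a h) m / c h → X < p ^ K ∧ p ∉ bad)).card : ℝ) := by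
  obtain ⟨C1, hC1, hS⟩ := sieveV
  refine ⟨C1, hC1, fun κ hκ => ?_⟩
  obtain ⟨K, X0, hS⟩ := hS κ hκ
  obtain ⟨X1, hX1⟩ := exc_small κ (K + 2) (by omega)
  refine ⟨K + 2, X0 + X1 + 8, by omega, ?_⟩
  intro X hX ι _ hcard Q a c H hsmall hsize bad hbad hbadc
  have h2Q : 2 ∣ Q := hsmall 2 Nat.prime_two (by omega)
  have hmain := hS X (by omega) ι hcard (fun h m => lv Q (a h) m / c h) H.good
    (fun p hp hpκ h n => H.nd h n p hp (hsmall p hp hpκ)) (by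
      intro h m hm
      have h1 := H.ne h2Q h m
      refine ⟨Nat.pos_of_ne_zero h1, ?_⟩
      have h3 := hsize h m hm
      have h4 : lv Q (a h) m ≤ lv Q (a h) m ^ 2 := Nat.le_self_pow (by norm_num) _
      have h5 : lv Q (a h) m / c h ≤ lv Q (a h) m := Nat.div_le_self _ _
      exact h5.trans (h4.trans h3))
  -- the parameter z
  have hXpos : 0 < X := by omega
  obtain ⟨z, hz⟩ : ∃ z : ℕ, z = Nat.find (p := fun z => X < (z + 1) ^ (K + 2))
      ⟨X, (Nat.lt_succ_self X).trans_le (Nat.le_self_pow (by omega) _)⟩ := ⟨_, rfl⟩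
  have hz1 : X < (z + 1) ^ (K + 2) := by
    rw [hz]
    exact Nat.find_spec (p := fun z => X < (z + 1) ^ (K + 2)) _
  have hz2 : ∀ p, X < p ^ (K + 2) → z < p := by
    intro p hp
    by_contra hle
    push Not at hle
    have hp0 : 0 < p := by
      rcases Nat.eq_zero_or_pos p with h0 | h0
      · rw [h0, zero_pow (by omega)] at hp
        omega
      · exact h0
    have hlt : p - 1 < z := by omega
    rw [hz] at hlt
    have := Nat.find_min (p := fun z => X < (z + 1) ^ (K + 2)) _ hlt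
    apply this
    have e : p - 1 + 1 = p := by omega
    show X < (p - 1 + 1) ^ (K + 2)
    rw [e]
    exact hp
  have hz0 : 1 ≤ z := by
    by_contra h0
    have h3 : z = 0 := by omega
    rw [h3, zero_add, one_pow] at hz1
    omega
  have hzX : X ≤ (2 * z) ^ (K + 2) := by
    have h3 : (z + 1) ^ (K + 2) ≤ (2 * z) ^ (K + 2) := Nat.pow_le_pow_left (by omega) _
    omega
  obtain ⟨Y, hY⟩ : ∃ Y : ℕ, Y = max z (Nat.sqrt (Nat.sqrt (X ^ 3)) + 1) := ⟨_, rfl⟩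
  have hzle : z ^ 4 ≤ 16 * X ^ 3 := by
    have h3 : ¬ X < (z - 1 + 1) ^ (K + 2) := by
      have hlt : z - 1 < z := by omega
      rw [hz] at hlt
      have := Nat.find_min (p := fun z => X < (z + 1) ^ (K + 2)) _ hlt
      rw [← hz] at this
      exact this
    have e : z - 1 + 1 = z := by omega
    rw [e] at h3
    push Not at h3
    have h4 : z ^ 2 ≤ z ^ (K + 2) := Nat.pow_le_pow_right hz0 (by omega)
    have h5 : z ^ 2 ≤ X := h4.trans h3
    calc z ^ 4 = (z ^ 2) ^ 2 := by ring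
      _ ≤ X ^ 2 := Nat.pow_le_pow_left h5 2
      _ ≤ X ^ 3 := Nat.pow_le_pow_right hXpos (by norm_num)
      _ ≤ 16 * X ^ 3 := Nat.le_mul_of_pos_left _ (by norm_num)
  have hYX : Y ^ 4 ≤ 16 * X ^ 3 := by
    rw [hY]
    rcases le_total z (Nat.sqrt (Nat.sqrt (X ^ 3)) + 1) with h3 | h3
    · rw [max_eq_right h3]
      have h4 : 1 ≤ Nat.sqrt (Nat.sqrt (X ^ 3)) := by
        rw [Nat.le_sqrt, Nat.le_sqrt]
        exact Nat.one_le_pow _ _ hXpos
      have h5 : Nat.sqrt (Nat.sqrt (X ^ 3)) ^ 4 ≤ X ^ 3 := by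
        have h6 : Nat.sqrt (Nat.sqrt (X ^ 3)) ^ 2 ≤ Nat.sqrt (X ^ 3) := Nat.sqrt_le' _
        calc Nat.sqrt (Nat.sqrt (X ^ 3)) ^ 4 = (Nat.sqrt (Nat.sqrt (X ^ 3)) ^ 2) ^ 2 := by ring
          _ ≤ Nat.sqrt (X ^ 3) ^ 2 := Nat.pow_le_pow_left h6 2
          _ ≤ X ^ 3 := Nat.sqrt_le' _
      calc (Nat.sqrt (Nat.sqrt (X ^ 3)) + 1) ^ 4 ≤ (2 * Nat.sqrt (Nat.sqrt (X ^ 3))) ^ 4 :=
            Nat.pow_le_pow_left (by omega) 4
        _ = 16 * Nat.sqrt (Nat.sqrt (X ^ 3)) ^ 4 := by ring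
        _ ≤ _ := Nat.mul_le_mul_left _ h5
    · rw [max_eq_left h3]
      exact hzle
  have hYs : ∀ h, ∀ m ≤ X, lv Q (a h) m ≤ Y ^ 2 := by
    intro h m hm
    have h3 : lv Q (a h) m ≤ Nat.sqrt (X ^ 3) := by
      rw [Nat.le_sqrt']
      exact hsize h m hm
    have h4 : Nat.sqrt (X ^ 3) < (Nat.sqrt (Nat.sqrt (X ^ 3)) + 1) ^ 2 := Nat.lt_succ_sqrt' _
    have h5 : (Nat.sqrt (Nat.sqrt (X ^ 3)) + 1) ^ 2 ≤ Y ^ 2 := by
      rw [hY]
      exact Nat.pow_le_pow_left (le_max_right _ _) 2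
    omega
  obtain ⟨hlog1, hexc⟩ := hX1 X (by omega) z Y bad.card hz0 hzX hYX hbadc
  have hE := exc H h2Q X z Y bad hbad hz0 (by rw [hY]; exact le_max_left _ _) hYs
  rw [hcard] at hE
  have hE' := hE.trans hexc
  have hsub : (Icc 1 X).filter (fun m =>
        ∑ h, (lv Q (a h) m / c h).primeFactors.card ≤ κ * (C1 * (Nat.log 2 κ + 1)) ∧
        ∀ h, ∀ p : ℕ, p.Prime → p ∣ lv Q (a h) m / c h → X < p ^ K) ⊆
      (Icc 1 X).filter (fun m => (∀ h, Squarefree (lv Q (a h) m / c h)) ∧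
        ∑ h, (lv Q (a h) m / c h).primeFactors.card ≤ κ * (C1 * (Nat.log 2 κ + 1)) ∧
        ∀ h, ∀ p : ℕ, p.Prime → p ∣ lv Q (a h) m / c h → X < p ^ (K + 2) ∧ p ∉ bad) ∪
      (Icc 1 X).filter (fun m => ∃ h, ∃ p : ℕ, p.Prime ∧ z < p ∧ p ∣ lv Q (a h) m / c h ∧
        (p ∈ bad ∨ p ^ 2 ∣ lv Q (a h) m / c h)) := by
    intro m hm
    rw [mem_filter] at hm
    obtain ⟨hm1, hm2, hm3⟩ := hm
    have hm4 : ∀ h, ∀ p : ℕ, p.Prime → p ∣ lv Q (a h) m / c h → X < p ^ (K + 2) :=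
      fun h p hp hpd => (hm3 h p hp hpd).trans_le (Nat.pow_le_pow_right hp.pos (by omega))
    rw [mem_union]
    by_cases hs : ∃ h, ∃ p : ℕ, p.Prime ∧ z < p ∧ p ∣ lv Q (a h) m / c h ∧
        (p ∈ bad ∨ p ^ 2 ∣ lv Q (a h) m / c h)
    · right
      exact mem_filter.2 ⟨hm1, hs⟩
    · left
      push Not at hs
      rw [mem_filter]
      refine ⟨hm1, fun h => ?_, hm2, fun h p hp hpd => ⟨hm4 h p hp hpd, ?_⟩⟩
      · rw [Nat.squarefree_iff_prime_squarefree]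
        intro p hp hpp
        rw [← pow_two] at hpp
        have hpd : p ∣ lv Q (a h) m / c h := (dvd_pow_self p (by norm_num)).trans hpp
        exact (hs h p hp (hz2 p (hm4 h p hp hpd)) hpd).2 hpp
      · exact (hs h p hp (hz2 p (hm4 h p hp hpd)) hpd).1
  have hcardle := (card_le_card hsub).trans (card_union_le _ _)
  have hcardr := (Nat.cast_le (α := ℝ)).2 hcardle
  rw [Nat.cast_add] at hcardr
  have hXr : (0 : ℝ) ≤ X := Nat.cast_nonneg _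
  -- X/L^K ≥ X/L^(K+2) + X/L^(K+3)
  have hX8 : (8 : ℝ) ≤ X := by
    have : 8 ≤ X := by omega
    exact_mod_cast this
  obtain ⟨t, ht⟩ : ∃ t : ℝ, t = (X : ℝ) / Real.log X ^ (K + 2) := ⟨_, rfl⟩
  have ht0 : 0 ≤ t := by rw [ht]; positivity
  have hl : 2 ≤ Real.log X := by
    rw [Real.le_log_iff_exp_le (by linarith)]
    have h3 := Real.exp_one_lt_d9
    have h4 : Real.exp 2 = Real.exp 1 * Real.exp 1 := by
      rw [← Real.exp_add]; norm_num
    have h5 := Real.exp_pos 1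
    rw [h4]
    nlinarith
  have e1 : (X : ℝ) / Real.log X ^ K = Real.log X ^ 2 * t := by
    rw [ht, pow_add]
    have h3 : Real.log X ≠ 0 := by linarith
    field_simp
  have e2 : (X : ℝ) / Real.log X ^ (K + 2 + 1) = t / Real.log X := by
    rw [ht, div_div, ← pow_succ]
  rw [e1] at hmain
  rw [e2] at hE'
  have e3 : (X : ℝ) / Real.log X ^ (K + 2) = t := ht.symm
  rw [e3]
  have h3 : t / Real.log X ≤ t := div_le_self ht0 (by linarith)
  have h4 : 2 * t ≤ Real.log X ^ 2 * t := mul_le_mul_of_nonneg_right (by nlinarith) ht0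
  linarith

end Pool.Agent.Y887.UT
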