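import Mathlib
import Pool.Agent.Y887.UT.SvB
import Pool.Agent.Y887.UT.Pr
import Pool.Agent.Y887.QE.DesA

/-!
The bipartite design of differences, of polylogarithmic size, whose primes avoid a given number.
-/

set_option autoImplicit false

namespace Pool.Agent.Y887.UT

open Finset Filter
open Pool.Agent.Y887.QE (crt_option poly_le nd)

/-- the design -/
structure Dsl (b Nn Cc B M0 W : ℕ) (h : Fin b → Fin b → ℕ) (s0 s1 : Fin b → ℕ) : Prop where
  eq : ∀ j i, s0 j = s1 i + h j i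
  sq : ∀ j i, Squarefree (h j i)
  lo : ∀ j i, Nn ≤ (h j i).primeFactors.card
  hi : ∀ j i, (h j i).primeFactors.card ≤ Nn + Cc
  s0one : ∀ j, s0 j ≡ 1 [MOD M0]
  s1zero : ∀ i, s1 i ≡ 0 [MOD M0]
  big : ∀ j i p, p.Prime → p ∣ h j i → B < p ∧ ¬ p ∣ W
  cop : ∀ j i j' i', (j', i') ≠ (j, i) → Nat.Coprime (h j i) (h j' i')

theorem poly_le' (c k : ℕ) : ∀ᶠ q : ℕ in atTop, c * q ^ k ≤ 2 ^ q := by
  filter_upwards [poly_le c k] with q hq
  exact (Nat.mul_le_mul_left c (Nat.pow_le_pow_left (Nat.le_succ q) k)).trans hq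

set_option maxHeartbeats 2000000 in
theorem designL : ∃ C1 : ℕ, 1 ≤ C1 ∧ ∀ b : ℕ, 1 ≤ b → ∀ Nn : ℕ, 1 ≤ Nn →
    ∀ B M0 G : ℕ, 0 < M0 → (∀ p : ℕ, p.Prime → p ≤ 4 * (b * b) → p ∣ M0) →
    ∃ A x0 : ℕ, ∀ x : ℕ, x0 ≤ x → ∀ W : ℕ, W ≠ 0 → W < 2 ^ x →
    ∃ (h : Fin b → Fin b → ℕ) (s0 s1 : Fin b → ℕ) (H0 : ℕ),
      Dsl b Nn (b * b * (C1 * (Nat.log 2 (b * b) + 1))) B M0 W h s0 s1 ∧
      0 < H0 ∧ H0 ≤ x ^ A ∧ (∀ j, H0 ≤ s0 j ∧ G * (s0 j - H0) ≤ H0) ∧ ∀ i, G * s1 i ≤ H0 := by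
  classical
  obtain ⟨C1, hC1, hS⟩ := sieveL
  refine ⟨C1, hC1, fun b hb Nn hNn B M0 G hM0 hsmall => ?_⟩
  obtain ⟨K, X0, hK2, hS⟩ := hS (b * b) (Nat.mul_pos hb hb)
  obtain ⟨n1, hn1⟩ : ∃ n1 : ℕ, n1 = b * b * Nn := ⟨_, rfl⟩
  obtain ⟨B1, hB1⟩ : ∃ B1 : ℕ, B1 = B + M0 * b + M0 + 2 := ⟨_, rfl⟩
  obtain ⟨x1, hx1⟩ := avoid (Fintype.card ((Fin b × Fin b) × Fin Nn)) B1
  obtain ⟨A1, hA1⟩ : ∃ A1 : ℕ, A1 = 2 * (4 * n1 + 2) + 4 * K + 4 := ⟨_, rfl⟩
  obtain ⟨x2, hx2⟩ := eventually_atTop.1 (poly_le' 1 ((4 * n1 + 3) * ((b * b) * (b * b))))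
  refine ⟨A1 + (4 * n1 + 2) + 1, x1 + x2 + X0 + (G * b + M0 * b + 1) + M0 + (B + 1) ^ K + 16, ?_⟩
  intro x hx W hW hWx
  have hx16 : 16 ≤ x := by omega
  have hxpos : 0 < x := by omega
  have hx1' : x1 ≤ x := by omega
  have hx2' : x2 ≤ x := by omega
  obtain ⟨g0, hg0⟩ : ∃ g0 : ℕ, g0 = G * b + M0 * b + 1 := ⟨_, rfl⟩
  have hg0x : g0 ≤ x := by omega
  obtain ⟨r, hrinj, hr⟩ := hx1 x hx1' W hW hWx
  obtain ⟨π, hπd⟩ : ∃ π : (Fin b × Fin b) × Fin Nn → ℕ, ∀ y, π y = r (Fintype.equivFin _ y) :=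
    ⟨_, fun _ => rfl⟩
  have hπinj : Function.Injective π := by
    intro y y' hyy
    rw [hπd, hπd] at hyy
    exact (Fintype.equivFin _).injective (hrinj hyy)
  have hπ : ∀ y, (π y).Prime ∧ B1 < π y ∧ π y ≤ x ^ 2 ∧ ¬ π y ∣ W := by
    intro y
    rw [hπd]
    exact hr _
  have hpM0 : ∀ y, (π y).Prime ∧ M0 < π y := fun y => ⟨(hπ y).1, by have := (hπ y).2.1; omega⟩
  obtain ⟨s1, hs1⟩ : ∃ s1 : Fin b → ℕ, ∀ i, s1 i = M0 * (i : ℕ) := ⟨_, fun _ => rfl⟩
  have hs1b : ∀ i, s1 i ≤ M0 * b := fun i => by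
    rw [hs1]; exact Nat.mul_le_mul_left _ i.2.le
  choose rX hrX using fun j : Fin b => crt_option M0 hM0 π hπinj hpM0 1
    (fun y => if y.1.1 = j then s1 y.1.2 + π y else π y ^ 2 - 1)
  obtain ⟨M, hM⟩ : ∃ M : ℕ, M = M0 * ∏ y, π y ^ 2 := ⟨_, rfl⟩
  have hMpos : 0 < M := by
    rw [hM]
    exact Nat.mul_pos hM0 (prod_pos fun y _ => pow_pos (hπ y).1.pos 2)
  have hM0M : M0 ∣ M := by rw [hM]; exact dvd_mul_right _ _
  have hπM : ∀ y, π y ^ 2 ∣ M := fun y => by
    rw [hM]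
    exact (dvd_prod_of_mem _ (mem_univ y)).mul_left _
  have hpM : ∀ p : ℕ, p.Prime → p ∣ M → p ∣ M0 ∨ ∃ y, p = π y := by
    intro p hp hd
    rw [hM, hp.dvd_mul] at hd
    rcases hd with h | h
    · exact Or.inl h
    · obtain ⟨y, _, hy⟩ := (hp.prime.dvd_finsetProd_iff _).1 h
      exact Or.inr ⟨y, (Nat.prime_dvd_prime_iff_eq hp (hπ y).1).1 (hp.dvd_of_dvd_pow hy)⟩
  have hMle : M ≤ x ^ (4 * n1 + 1) := by
    rw [hM]
    have h1 : ∏ y, π y ^ 2 ≤ ∏ _y : (Fin b × Fin b) × Fin Nn, x ^ 4 := by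
      apply Finset.prod_le_prod' 
      intro y _
      calc π y ^ 2 ≤ (x ^ 2) ^ 2 := Nat.pow_le_pow_left (hπ y).2.2.1 2
        _ = x ^ 4 := by ring
    rw [prod_const, card_univ] at h1
    have h2 : Fintype.card ((Fin b × Fin b) × Fin Nn) = n1 := by
      rw [hn1]; simp
    rw [h2, ← pow_mul] at h1
    have h3 : M0 ≤ x := by omega
    calc M0 * ∏ y, π y ^ 2 ≤ x * x ^ (4 * n1) := Nat.mul_le_mul h3 h1
      _ = _ := by ring
  obtain ⟨X, hX⟩ : ∃ X : Fin b → ℕ, ∀ j, X j = rX j % M := ⟨_, fun _ => rfl⟩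
  have hXlt : ∀ j, X j < M := fun j => by rw [hX]; exact Nat.mod_lt _ hMpos
  have hXm : ∀ j m, m ∣ M → X j ≡ rX j [MOD m] := fun j m hm => by
    rw [hX]; exact (Nat.mod_modEq (rX j) M).of_dvd hm
  -- the values
  obtain ⟨a, ha⟩ : ∃ a : Fin b × Fin b → ℤ, ∀ e, a e = (M : ℤ) * g0 + X e.1 - s1 e.2 :=
    ⟨_, fun _ => rfl⟩
  obtain ⟨c, hc⟩ : ∃ c : Fin b × Fin b → ℕ, ∀ e, c e = ∏ k : Fin Nn, π (e, k) := ⟨_, fun _ => rfl⟩
  have hMg : M0 * b ≤ M * g0 := by
    calc M0 * b ≤ g0 := by omega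
      _ ≤ M * g0 := Nat.le_mul_of_pos_left _ hMpos
  have hval : ∀ e t, (lv M (a e) t : ℤ) = (M : ℤ) * (t + g0) + X e.1 - s1 e.2 := by
    intro e t
    unfold lv
    rw [Int.natCast_natAbs, abs_of_nonneg]
    · rw [ha]; ring
    · rw [ha]
      have h1 : (s1 e.2 : ℤ) ≤ (M : ℤ) * g0 := by exact_mod_cast (hs1b e.2).trans hMg
      have h2 : (0 : ℤ) ≤ (M : ℤ) * t := by positivity
      have h3 : (0 : ℤ) ≤ (X e.1 : ℤ) := Int.natCast_nonneg _
      linarith
  have hcast : ∀ {a c m : ℕ}, a ≡ c [MOD m] → (m : ℤ) ∣ (a : ℤ) - c := fun h =>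
    (Nat.modEq_iff_dvd).1 h.symm
  have hXπ : ∀ j y, X j ≡ (if y.1.1 = j then s1 y.1.2 + π y else π y ^ 2 - 1) [MOD π y ^ 2] :=
    fun j y => (hXm j _ (hπM y)).trans ((hrX j).2 y)
  have hX1 : ∀ j, X j ≡ 1 [MOD M0] := fun j => (hXm j _ hM0M).trans (hrX j).1
  have hMz : ∀ y (w : ℤ), (π y : ℤ) ^ 2 ∣ (M : ℤ) * w := by
    intro y w
    exact (show (π y : ℤ) ^ 2 ∣ (M : ℤ) by exact_mod_cast hπM y).mul_right _
  have hπ1 : ∀ y, (π y : ℤ) ∣ (π y : ℤ) ^ 2 := fun y => dvd_pow_self _ (by norm_num)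
  have hexact0 : ∀ y t, (π y : ℤ) ^ 2 ∣ (lv M (a y.1) t : ℤ) - π y := by
    intro y t
    have h1 := hcast (hXπ y.1.1 y)
    rw [if_pos rfl] at h1
    push_cast at h1
    rw [hval]
    have e : (M : ℤ) * (t + g0) + X y.1.1 - s1 y.1.2 - π y = (M : ℤ) * (t + g0) +
      ((X y.1.1 : ℤ) - (s1 y.1.2 + π y)) := by ring
    rw [e]
    exact dvd_add (hMz y _) h1
  have hexact : ∀ y t, π y ∣ lv M (a y.1) t ∧ ¬ π y ^ 2 ∣ lv M (a y.1) t := by
    intro y t
    have h1 := hexact0 y t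
    constructor
    · have h2 := (hπ1 y).trans h1
      have h3 : (π y : ℤ) ∣ (lv M (a y.1) t : ℤ) := by
        have := dvd_add h2 (dvd_refl (π y : ℤ))
        rwa [sub_add_cancel] at this
      exact_mod_cast h3
    · intro h2
      have h3 : (π y : ℤ) ^ 2 ∣ (lv M (a y.1) t : ℤ) := by exact_mod_cast h2
      have h4 := dvd_sub h3 h1
      rw [sub_sub_cancel] at h4
      have h5 : π y ^ 2 ∣ π y := by exact_mod_cast h4
      have h6 := Nat.le_of_dvd (hπ y).1.pos h5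
      have h7 := (hπ y).1.two_le
      nlinarith
  have hother : ∀ y e t, e ≠ y.1 → ¬ π y ∣ lv M (a e) t := by
    intro y e t hne hd
    have hd' : (π y : ℤ) ∣ (M : ℤ) * (t + g0) + X e.1 - s1 e.2 := by
      rw [← hval]; exact_mod_cast hd
    have hbig := (hπ y).2.1
    have hM1 : (π y : ℤ) ∣ (M : ℤ) * (t + g0) := (hπ1 y).trans (hMz y _)
    have h1 := (hπ1 y).trans (by
      have := hcast (hXπ e.1 y)
      push_cast at this
      exact this)
    by_cases hj : y.1.1 = e.1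
    · rw [if_pos hj] at h1
      push_cast at h1
      have hi : e.2 ≠ y.1.2 := by
        intro h
        apply hne
        exact Prod.ext hj.symm h
      have h2 : (π y : ℤ) ∣ (s1 y.1.2 : ℤ) - s1 e.2 := by
        have e1 : (s1 y.1.2 : ℤ) - s1 e.2 = ((M : ℤ) * (t + g0) + X e.1 - s1 e.2) -
            (M : ℤ) * (t + g0) - ((X e.1 : ℤ) - (s1 y.1.2 + π y)) - π y := by ring
        rw [e1]
        exact dvd_sub (dvd_sub (dvd_sub hd' hM1) h1) dvd_rfl
      have h3 : (s1 y.1.2 : ℤ) - s1 e.2 ≠ 0 := by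
        intro h0
        have h4 : s1 y.1.2 = s1 e.2 := by omega
        rw [hs1, hs1] at h4
        have h5 := Nat.eq_of_mul_eq_mul_left hM0 h4
        exact hi (Fin.ext h5.symm)
      have h4 := hs1b y.1.2
      have h5 := hs1b e.2
      exact nd h3 (by omega) h2
    · rw [if_neg hj] at h1
      have hpp : 1 ≤ π y ^ 2 := Nat.one_le_pow _ _ (hπ y).1.pos
      rw [Nat.cast_sub hpp] at h1
      push_cast at h1
      have h2 : (π y : ℤ) ∣ (1 : ℤ) + s1 e.2 := by
        have e1 : (1 : ℤ) + s1 e.2 = (M : ℤ) * (t + g0) + ((X e.1 : ℤ) - ((π y : ℤ) ^ 2 - 1)) +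
            (π y : ℤ) ^ 2 - ((M : ℤ) * (t + g0) + X e.1 - s1 e.2) := by ring
        rw [e1]
        exact dvd_sub (dvd_add (dvd_add hM1 h1) (hπ1 y)) hd'
      have h5 := hs1b e.2
      have h3 : π y ∣ 1 + s1 e.2 := by exact_mod_cast h2
      have := Nat.le_of_dvd (by omega) h3
      omega
  have hpc : ∀ e p, p.Prime → p ∣ c e → ∃ k, p = π (e, k) := by
    intro e p hp hd
    rw [hc] at hd
    obtain ⟨k, _, hk⟩ := (hp.prime.dvd_finsetProd_iff _).1 hd
    exact ⟨k, (Nat.prime_dvd_prime_iff_eq hp (hπ _).1).1 hk⟩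
  have hπc : ∀ e k, π (e, k) ∣ c e := fun e k => by
    rw [hc]
    exact dvd_prod_of_mem _ (mem_univ k)
  have hcdvd : ∀ e t, c e ∣ lv M (a e) t := by
    intro e t
    rw [hc]
    have h1 : ∏ k : Fin Nn, π (e, k) = ∏ p ∈ univ.image (fun k : Fin Nn => π (e, k)), p := by
      rw [prod_image]
      intro k _ k' _ hkk
      have := hπinj hkk
      simpa using this
    rw [h1]
    apply Finset.prod_primes_dvd
    · intro p hp
      obtain ⟨k, -, rfl⟩ := mem_image.1 hp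
      exact (hπ _).1.prime
    · intro p hp
      obtain ⟨k, -, rfl⟩ := mem_image.1 hp
      exact (hexact (e, k) t).1
  have hcsq : ∀ e, Squarefree (c e) := by
    intro e
    rw [Nat.squarefree_iff_prime_squarefree]
    intro p hp hd
    obtain ⟨k, rfl⟩ := hpc e p hp ((dvd_mul_right _ _).trans hd)
    have h1 := hd.trans (hcdvd e 0)
    rw [← pow_two] at h1
    exact (hexact (e, k) 0).2 h1
  have hccard : ∀ e, (c e).primeFactors.card = Nn := by
    intro e
    have h1 : (c e).primeFactors = univ.image (fun k : Fin Nn => π (e, k)) := by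
      ext p
      rw [Nat.mem_primeFactors, mem_image]
      constructor
      · rintro ⟨hp, hd, -⟩
        obtain ⟨k, hk⟩ := hpc e p hp hd
        exact ⟨k, mem_univ _, hk.symm⟩
      · rintro ⟨k, -, rfl⟩
        exact ⟨(hπ _).1, hπc e k, (hcsq e).ne_zero⟩
    rw [h1, card_image_of_injective, card_univ, Fintype.card_fin]
    intro k k' hkk
    have := hπinj hkk
    simpa using this
  have hsys : Sys M a c := by
    constructor
    · exact hMpos
    · exact hcdvd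
    · intro e p hp hd
      obtain ⟨k, rfl⟩ := hpc e p hp hd
      exact (dvd_pow_self _ (by norm_num)).trans (hπM _)
    · intro e t p hp hpM' hd
      have hv := hd.trans (Nat.div_dvd_of_dvd (hcdvd e t))
      rcases hpM p hp hpM' with h0 | ⟨y, rfl⟩
      · have h1 : (p : ℤ) ∣ (M : ℤ) * (t + g0) + X e.1 - s1 e.2 := by
          rw [← hval]; exact_mod_cast hv
        have h2 : (p : ℤ) ∣ (M : ℤ) * (t + g0) :=
          (show (p : ℤ) ∣ (M : ℤ) by exact_mod_cast hpM').mul_right _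
        have h3 : (p : ℤ) ∣ (X e.1 : ℤ) - 1 := by
          have := hcast ((hX1 e.1).of_dvd h0)
          exact_mod_cast this
        have h4 : (p : ℤ) ∣ (s1 e.2 : ℤ) := by
          rw [hs1]
          push_cast
          exact (show (p : ℤ) ∣ (M0 : ℤ) by exact_mod_cast h0).mul_right _
        have h5 : (p : ℤ) ∣ 1 := by
          have e1 : (1 : ℤ) = ((M : ℤ) * (t + g0) + X e.1 - s1 e.2) - (M : ℤ) * (t + g0) -
            ((X e.1 : ℤ) - 1) + s1 e.2 := by ring
          rw [e1]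
          exact dvd_add (dvd_sub (dvd_sub h1 h2) h3) h4
        exact (Nat.prime_iff_prime_int.1 hp).not_isUnit (isUnit_of_dvd_one h5)
      · by_cases hy : e = y.1
        · have hcx : π y ∣ c e := by
            have : y = (e, y.2) := by rw [hy]
            rw [this]
            exact hπc e y.2
          have h1 : π y * π y ∣ lv M (a e) t := by
            rw [← Nat.div_mul_cancel (hcdvd e t)]
            exact Nat.mul_dvd_mul hd hcx
          rw [← pow_two, hy] at h1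
          exact (hexact y t).2 h1
        · exact hother y e t hy hv
  -- the range of the parameter
  obtain ⟨T, hT⟩ : ∃ T : ℕ, T = x ^ A1 := ⟨_, rfl⟩
  have hxT : x ≤ T := by rw [hT]; exact Nat.le_self_pow (by omega) _
  have hvle : ∀ e, ∀ t ≤ T, lv M (a e) t ≤ 3 * (M * T) := by
    intro e t ht
    have h1 : (lv M (a e) t : ℤ) ≤ ((3 * (M * T) : ℕ) : ℤ) := by
      rw [hval]
      have h2 : M * t ≤ M * T := Nat.mul_le_mul_left _ ht
      have h3 : M * g0 ≤ M * T := Nat.mul_le_mul_left _ (hg0x.trans hxT)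
      have h4 : X e.1 ≤ M * T := (hXlt e.1).le.trans (Nat.le_mul_of_pos_right _ (by omega))
      have h2' : (M : ℤ) * t ≤ M * T := by exact_mod_cast h2
      have h3' : (M : ℤ) * g0 ≤ M * T := by exact_mod_cast h3
      have h4' : (X e.1 : ℤ) ≤ M * T := by exact_mod_cast h4
      have h5 : (0 : ℤ) ≤ s1 e.2 := Int.natCast_nonneg _
      push_cast
      linarith
    exact_mod_cast h1
  have hsize : ∀ e, ∀ t ≤ T, lv M (a e) t ^ 2 ≤ T ^ 3 := by
    intro e t ht
    have h1 : 9 * M ^ 2 ≤ T := by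
      calc 9 * M ^ 2 ≤ x * (x ^ (4 * n1 + 1)) ^ 2 :=
            Nat.mul_le_mul (by omega) (Nat.pow_le_pow_left hMle 2)
        _ = x ^ (2 * (4 * n1 + 1) + 1) := by ring
        _ ≤ x ^ A1 := Nat.pow_le_pow_right hxpos (by omega)
        _ = T := hT.symm
    calc lv M (a e) t ^ 2 ≤ (3 * (M * T)) ^ 2 := Nat.pow_le_pow_left (hvle e t ht) 2
      _ = 9 * M ^ 2 * T ^ 2 := by ring
      _ ≤ T * T ^ 2 := Nat.mul_le_mul_right _ h1
      _ = T ^ 3 := by ring
  -- the differences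
  obtain ⟨Δ, hΔ⟩ : ∃ Δ : (Fin b × Fin b) × (Fin b × Fin b) → ℕ, ∀ d, Δ d =
      if d.1 = d.2 then 1 else (a d.1 - a d.2).natAbs := ⟨_, fun _ => rfl⟩
  have hdiff : ∀ e e' t, (lv M (a e) t : ℤ) - lv M (a e') t = a e - a e' := by
    intro e e' t
    rw [hval, hval, ha, ha]
    ring
  have hΔ0 : ∀ d, Δ d ≠ 0 := by
    intro d
    rw [hΔ]
    split_ifs with h
    · exact one_ne_zero
    · rw [Int.natAbs_ne_zero]
      intro h0
      have h1 := hdiff d.1 d.2 0
      rw [h0] at h1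
      have h2 : lv M (a d.1) 0 = lv M (a d.2) 0 := by omega
      have h3 := (hexact (d.1, ⟨0, hNn⟩) 0).1
      rw [h2] at h3
      exact hother (d.1, ⟨0, hNn⟩) d.2 0 (fun h' => h h'.symm) h3
  have hΔle : ∀ d, Δ d ≤ x ^ (4 * n1 + 3) := by
    intro d
    rw [hΔ]
    split_ifs with h
    · exact Nat.one_le_pow _ _ hxpos
    · have h1 : (a d.1 - a d.2).natAbs ≤ 2 * M * x := by
        have h2 : a d.1 - a d.2 = (X d.1.1 : ℤ) - X d.2.1 - (s1 d.1.2 - s1 d.2.2) := by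
          rw [ha, ha]; ring
        rw [h2]
        have h3 := hXlt d.1.1
        have h4 := hXlt d.2.1
        have h5 := hs1b d.1.2
        have h6 := hs1b d.2.2
        have h7 : M ≤ M * x := Nat.le_mul_of_pos_right _ hxpos
        have h8 : M0 * b ≤ M * x := by
          calc M0 * b ≤ x := by omega
            _ ≤ M * x := Nat.le_mul_of_pos_left _ hMpos
        have h9 : 2 * M * x = M * x + M * x := by ring
        omega
      calc (a d.1 - a d.2).natAbs ≤ 2 * M * x := h1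
        _ ≤ x * x ^ (4 * n1 + 1) * x :=
            Nat.mul_le_mul_right _ (Nat.mul_le_mul (by omega) hMle)
        _ = x ^ (4 * n1 + 3) := by ring
  obtain ⟨W', hW'⟩ : ∃ W' : ℕ, W' = W * ∏ d, Δ d := ⟨_, rfl⟩
  have hW'0 : W' ≠ 0 := by
    rw [hW']
    exact mul_ne_zero hW (prod_ne_zero_iff.2 fun d _ => hΔ0 d)
  have hW'lt : W' < 2 ^ (2 * x) := by
    have h1 : ∏ d, Δ d ≤ ∏ _d : (Fin b × Fin b) × (Fin b × Fin b), x ^ (4 * n1 + 3) :=
      Finset.prod_le_prod' fun d _ => hΔle d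
    rw [prod_const, card_univ, ← pow_mul] at h1
    have h2 : Fintype.card ((Fin b × Fin b) × (Fin b × Fin b)) = (b * b) * (b * b) := by simp
    rw [h2] at h1
    have h3 := hx2 x hx2'
    rw [one_mul] at h3
    have h4 : 0 < ∏ d, Δ d := prod_pos fun d _ => Nat.pos_of_ne_zero (hΔ0 d)
    rw [hW']
    calc W * ∏ d, Δ d < 2 ^ x * ∏ d, Δ d := Nat.mul_lt_mul_of_pos_right hWx h4
      _ ≤ 2 ^ x * 2 ^ x := Nat.mul_le_mul_left _ (h1.trans h3)
      _ = _ := by ring
  have hbadc : W'.primeFactors.card ^ (2 * K) ≤ T := by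
    have h1 := card_pf_lt hW'0 hW'lt
    calc W'.primeFactors.card ^ (2 * K) ≤ (x * x) ^ (2 * K) :=
          Nat.pow_le_pow_left (h1.le.trans (Nat.mul_le_mul_right _ (by omega))) _
      _ = x ^ (4 * K) := by rw [← pow_two, ← pow_mul]; ring_nf
      _ ≤ x ^ A1 := Nat.pow_le_pow_right hxpos (by omega)
      _ = T := hT.symm
  have hcount := hS T (by omega) (Fin b × Fin b) (by simp) M a c hsys
    (fun p hp hle => (hsmall p hp hle).trans hM0M) hsize W'.primeFactors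
    (fun p hp => Nat.prime_of_mem_primeFactors hp) hbadc
  have hne : ((Icc 1 T).filter (fun m => (∀ h, Squarefree (lv M (a h) m / c h)) ∧
        ∑ h, (lv M (a h) m / c h).primeFactors.card ≤
          b * b * (C1 * (Nat.log 2 (b * b) + 1)) ∧
        ∀ h, ∀ p : ℕ, p.Prime → p ∣ lv M (a h) m / c h →
          T < p ^ K ∧ p ∉ W'.primeFactors)).Nonempty := by
    rw [nonempty_iff_ne_empty]
    intro he
    rw [he, card_empty, Nat.cast_zero] at hcount
    have h1 : (3 : ℝ) ≤ T := by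
      have : 3 ≤ T := by omega
      exact_mod_cast this
    have h2 : 0 < Real.log T := Real.log_pos (by linarith)
    have h3 : 0 < (T : ℝ) / Real.log T ^ K := by positivity
    linarith
  obtain ⟨t, ht⟩ := hne
  rw [mem_filter, mem_Icc] at ht
  obtain ⟨⟨ht1, htT⟩, hsqf, hsum, hrough⟩ := ht
  obtain ⟨H0, hH0⟩ : ∃ H0 : ℕ, H0 = M * (t + g0) := ⟨_, rfl⟩
  obtain ⟨h, hh⟩ : ∃ h : Fin b → Fin b → ℕ, ∀ j i, h j i = lv M (a (j, i)) t := ⟨_, fun _ _ => rfl⟩
  obtain ⟨v, hv⟩ : ∃ v : Fin b → Fin b → ℕ, ∀ j i, v j i = lv M (a (j, i)) t / c (j, i) :=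
    ⟨_, fun _ _ => rfl⟩
  obtain ⟨s0, hs0⟩ : ∃ s0 : Fin b → ℕ, ∀ j, s0 j = H0 + X j := ⟨_, fun _ => rfl⟩
  have hcv : ∀ j i, h j i = c (j, i) * v j i := by
    intro j i
    rw [hh, hv, Nat.mul_div_cancel' (hcdvd (j, i) t)]
  have hvsq : ∀ j i, Squarefree (v j i) := fun j i => by rw [hv]; exact hsqf (j, i)
  have hvM : ∀ j i p, p.Prime → p ∣ M → ¬ p ∣ v j i := fun j i p hp hpM' => by
    rw [hv]; exact hsys.nd (j, i) t p hp hpM'
  have hcopcv : ∀ j i, Nat.Coprime (c (j, i)) (v j i) := by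
    intro j i
    rw [Nat.coprime_iff_gcd_eq_one]
    by_contra hne
    obtain ⟨p, hp, hpd⟩ := Nat.exists_prime_and_dvd hne
    exact hvM j i p hp (hsys.cQ (j, i) p hp (hpd.trans (Nat.gcd_dvd_left _ _)))
      (hpd.trans (Nat.gcd_dvd_right _ _))
  have hhsq : ∀ j i, Squarefree (h j i) := by
    intro j i
    rw [hcv, Nat.squarefree_mul (hcopcv j i)]
    exact ⟨hcsq _, hvsq j i⟩
  have hhcard : ∀ j i, (h j i).primeFactors.card = Nn + (v j i).primeFactors.card := by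
    intro j i
    rw [hcv, (hcopcv j i).primeFactors_mul,
      card_union_of_disjoint (hcopcv j i).disjoint_primeFactors, hccard]
  have hvcard : ∀ j i, (v j i).primeFactors.card ≤ b * b * (C1 * (Nat.log 2 (b * b) + 1)) := by
    intro j i
    refine le_trans ?_ hsum
    have := single_le_sum (f := fun e : Fin b × Fin b => (lv M (a e) t / c e).primeFactors.card)
      (fun _ _ => Nat.zero_le _) (mem_univ (j, i))
    rw [hv]
    exact this
  have hpcase : ∀ j i p, p.Prime → p ∣ h j i → p ∣ c (j, i) ∨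
      (T < p ^ K ∧ p ∉ W'.primeFactors ∧ p ∣ v j i) := by
    intro j i p hp hd
    rw [hcv, hp.dvd_mul] at hd
    rcases hd with h1 | h1
    · exact Or.inl h1
    · have h2 := h1
      rw [hv] at h2
      have h3 := hrough (j, i) p hp h2
      exact Or.inr ⟨h3.1, h3.2, h1⟩
  refine ⟨h, s0, s1, H0, ?_, ?_, ?_, ?_, ?_⟩
  · constructor
    · intro j i
      have h1 : (s0 j : ℤ) = s1 i + h j i := by
        rw [hh, hval, hs0, hH0]
        push_cast
        ring
      exact_mod_cast h1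
    · exact hhsq
    · intro j i
      rw [hhcard]
      exact Nat.le_add_right _ _
    · intro j i
      rw [hhcard]
      exact Nat.add_le_add_left (hvcard j i) _
    · intro j
      rw [hs0, hH0]
      have h1 : M * (t + g0) ≡ 0 [MOD M0] := (Nat.modEq_zero_iff_dvd).2 (hM0M.mul_right _)
      simpa using h1.add (hX1 j)
    · intro i
      rw [hs1]
      exact (Nat.modEq_zero_iff_dvd).2 (dvd_mul_right _ _)
    · intro j i p hp hd
      rcases hpcase j i p hp hd with h1 | ⟨h1, h2, h3⟩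
      · obtain ⟨k, rfl⟩ := hpc (j, i) p hp h1
        have := hπ ((j, i), k)
        exact ⟨by omega, this.2.2.2⟩
      · constructor
        · by_contra hle
          push Not at hle
          have h4 : p ^ K ≤ (B + 1) ^ K := Nat.pow_le_pow_left (by omega) K
          omega
        · intro h4
          apply h2
          rw [Nat.mem_primeFactors]
          exact ⟨hp, by rw [hW']; exact h4.mul_right _, hW'0⟩
    · intro j i j' i' hne
      rw [Nat.coprime_iff_gcd_eq_one]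
      by_contra hgc
      obtain ⟨p, hp, hpd⟩ := Nat.exists_prime_and_dvd hgc
      have h1 := hpd.trans (Nat.gcd_dvd_left _ _)
      have h2 := hpd.trans (Nat.gcd_dvd_right _ _)
      rcases hpcase j i p hp h1 with h3 | ⟨-, h3, -⟩
      · obtain ⟨k, rfl⟩ := hpc (j, i) p hp h3
        apply hother ((j, i), k) (j', i') t hne
        rw [← hh]
        exact h2
      · apply h3
        rw [Nat.mem_primeFactors]
        refine ⟨hp, ?_, hW'0⟩
        rw [hW']
        refine Dvd.dvd.mul_left ?_ _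
        refine dvd_trans ?_ (dvd_prod_of_mem Δ (mem_univ ((j', i'), (j, i))))
        rw [hΔ, if_neg hne, ← Int.natCast_dvd]
        rw [← hdiff (j', i') (j, i) t, ← hh, ← hh]
        exact dvd_sub (by exact_mod_cast h2) (by exact_mod_cast h1)
  · rw [hH0]
    exact Nat.mul_pos hMpos (by omega)
  · rw [hH0]
    have h1 : t + g0 ≤ x * x ^ A1 := by
      have h2 : t + g0 ≤ 2 * x ^ A1 := by
        rw [← hT]
        omega
      exact h2.trans (Nat.mul_le_mul_right _ (by omega))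
    calc M * (t + g0) ≤ x ^ (4 * n1 + 1) * (x * x ^ A1) := Nat.mul_le_mul hMle h1
      _ = x ^ (A1 + (4 * n1 + 2)) := by ring
      _ ≤ _ := Nat.pow_le_pow_right hxpos (by omega)
  · intro j
    rw [hs0]
    refine ⟨Nat.le_add_right _ _, ?_⟩
    rw [Nat.add_sub_cancel_left, hH0]
    calc G * X j ≤ G * M := Nat.mul_le_mul_left _ (hXlt j).le
      _ = M * G := mul_comm _ _
      _ ≤ M * (t + g0) := Nat.mul_le_mul_left _ (by
          have : G ≤ G * b := Nat.le_mul_of_pos_right _ hb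
          omega)
  · intro i
    rw [hH0]
    have hM0le : M0 ≤ M := Nat.le_of_dvd hMpos hM0M
    calc G * s1 i ≤ G * (M0 * b) := Nat.mul_le_mul_left _ (hs1b i)
      _ = M0 * (G * b) := by ring
      _ ≤ M * (t + g0) := Nat.mul_le_mul hM0le (by omega)

end Pool.Agent.Y887.UT
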