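import Mathlib
import Pool.Agent.Y887.UT.Des
import Pool.Agent.Y887.DE.Eq

/-!
Residue classes with prescribed exponents for the shifts of an integer by multiples of a number.
-/

set_option autoImplicit false

namespace Pool.Agent.Y887.UT

open Finset Filter Pool.Agent.Y887.DK
open Pool.Agent.Y887.DE (fac_eq)
open Pool.Agent.H658R2.ED (exists_crt_add)

/-- the absolute value of a shift -/
def gl (D : ℤ) (s y : ℕ) : ℕ := ((y : ℤ) + D * s).natAbs

theorem dvd_gl {D : ℤ} {s y d : ℕ} : d ∣ gl D s y ↔ (d : ℤ) ∣ (y : ℤ) + D * s := by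
  unfold gl
  exact Int.natCast_dvd.symm

theorem gl_congr {D : ℤ} {s y y' m : ℕ} (h : y ≡ y' [MOD m]) : m ∣ gl D s y ↔ m ∣ gl D s y' := by
  rw [dvd_gl, dvd_gl]
  have h1 := (Nat.modEq_iff_dvd).1 h
  have e : (y : ℤ) + D * s = ((y' : ℤ) + D * s) - ((y' : ℤ) - y) := by ring
  rw [e]
  exact dvd_sub_left h1

theorem fac_natAbs {p e : ℕ} {z : ℤ} (hp : p.Prime) (h1 : (p : ℤ) ^ e ∣ z)
    (h2 : ¬ (p : ℤ) ^ (e + 1) ∣ z) : z.natAbs.factorization p = e := by
  apply fac_eq hp
  · rw [← Int.natCast_dvd]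
    exact_mod_cast h1
  · intro h3
    apply h2
    rw [← Int.natCast_dvd] at h3
    exact_mod_cast h3

theorem crtZ {ι : Type} [Fintype ι] (m : ι → ℕ) (r : ι → ℤ) (hm : ∀ i, 0 < m i)
    (hco : ∀ i j, i ≠ j → Nat.Coprime (m i) (m j)) :
    ∃ X : ℕ, ∀ i, (m i : ℤ) ∣ (X : ℤ) - r i := by
  obtain ⟨X, hX⟩ := exists_crt_add m (fun _ => 0) (fun i => (r i % (m i : ℤ)).toNat) hm hco
  refine ⟨X, fun i => ?_⟩
  have h1 := hX i
  rw [add_zero] at h1
  have h2 := (Nat.modEq_iff_dvd).1 h1.symm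
  have h3 : (0 : ℤ) ≤ r i % (m i : ℤ) := Int.emod_nonneg _ (by have := hm i; omega)
  rw [Int.toNat_of_nonneg h3] at h2
  have h4 : (m i : ℤ) ∣ r i - r i % (m i : ℤ) := Int.dvd_self_sub_emod
  have e : (X : ℤ) - r i = ((X : ℤ) - r i % (m i : ℤ)) - (r i - r i % (m i : ℤ)) := by ring
  rw [e]
  exact dvd_sub h2 h4

theorem exact_lin {p : ℕ} (hp : p.Prime) (hp2 : 2 < p) {D : ℤ} (hD : ¬ (p : ℤ) ∣ D) {h : ℕ}
    (hh : p ∣ h) (hh2 : ¬ p ^ 2 ∣ h) {w0 w1 mm : ℕ} (hw0 : w0 ≤ mm) (hw1 : w1 ≤ mm)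
    (h01 : w0 = 0 ∨ w1 = 0) :
    ∃ l : ℤ, ∀ L : ℤ, (p : ℤ) ^ (mm + 2) ∣ L - l →
      L.natAbs.factorization p = w0 + 1 ∧ (L - D * h).natAbs.factorization p = w1 + 1 := by
  have hpp := Nat.prime_iff_prime_int.1 hp
  have hpz : (p : ℤ) ≠ 0 := hpp.ne_zero
  have a1 : (p : ℤ) ∣ D * h := (show (p : ℤ) ∣ (h : ℤ) by exact_mod_cast hh).mul_left _
  have a2 : ¬ (p : ℤ) ^ 2 ∣ D * h := by
    intro h1
    have h2 : IsCoprime ((p : ℤ) ^ 2) D := IsCoprime.pow_left ((hpp.coprime_iff_not_dvd).2 hD)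
    have h3 := h2.dvd_of_dvd_mul_left h1
    exact hh2 (by exact_mod_cast h3)
  have hpow : ∀ e, e ≤ mm + 2 → (p : ℤ) ^ e ∣ (p : ℤ) ^ (mm + 2) := fun e he => pow_dvd_pow _ he
  have hself : ∀ e, ¬ (p : ℤ) ^ (e + 1) ∣ (p : ℤ) ^ e := by
    intro e h1
    rw [pow_succ] at h1
    have h2 : (p : ℤ) ^ e * p ∣ (p : ℤ) ^ e * 1 := by rwa [mul_one]
    have h3 := (mul_dvd_mul_iff_left (pow_ne_zero e hpz)).1 h2
    exact hpp.not_isUnit (isUnit_of_dvd_one h3)
  by_cases hz : w0 = 0 ∧ w1 = 0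
  · obtain ⟨rfl, rfl⟩ := hz
    refine ⟨2 * (D * h), fun L hL => ?_⟩
    have h1 : (p : ℤ) ^ 2 ∣ L - 2 * (D * h) := (hpow 2 (by omega)).trans hL
    have h1' : (p : ℤ) ∣ L - 2 * (D * h) := (dvd_pow_self _ (by norm_num)).trans h1
    have h2 : ¬ (p : ℤ) ^ 2 ∣ 2 * (D * h) := by
      intro h3
      have h4 : IsCoprime ((p : ℤ) ^ 2) 2 := by
        apply IsCoprime.pow_left
        rw [hpp.coprime_iff_not_dvd]
        intro h5
        have h6 : p ∣ 2 := by exact_mod_cast h5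
        have := Nat.le_of_dvd (by norm_num) h6
        omega
      exact a2 (h4.dvd_of_dvd_mul_left h3)
    constructor
    · apply fac_natAbs hp
      · rw [zero_add, pow_one]
        have := dvd_add h1' (a1.mul_left 2)
        rwa [sub_add_cancel] at this
      · rw [zero_add]
        intro h3
        have := dvd_sub h3 h1
        rw [sub_sub_cancel] at this
        exact h2 this
    · apply fac_natAbs hp
      · rw [zero_add, pow_one]
        have := dvd_add h1' a1
        have e : L - 2 * (D * h) + D * h = L - D * h := by ring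
        rwa [e] at this
      · rw [zero_add]
        intro h3
        have := dvd_sub h3 h1
        have e : L - D * h - (L - 2 * (D * h)) = D * h := by ring
        rw [e] at this
        exact a2 this
  · rcases h01 with rfl | rfl
    · have hw1' : 1 ≤ w1 := by
        rcases Nat.eq_zero_or_pos w1 with h0 | h0
        · exact absurd ⟨rfl, h0⟩ hz
        · exact h0
      refine ⟨D * h + (p : ℤ) ^ (w1 + 1), fun L hL => ?_⟩
      have h1 : (p : ℤ) ^ (w1 + 2) ∣ L - (D * h + (p : ℤ) ^ (w1 + 1)) :=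
        (hpow _ (by omega)).trans hL
      have h2 : (p : ℤ) ^ (w1 + 1) ∣ L - D * h := by
        have h3 := (pow_dvd_pow (p : ℤ) (show w1 + 1 ≤ w1 + 2 by omega)).trans h1
        have := dvd_add h3 (dvd_refl ((p : ℤ) ^ (w1 + 1)))
        have e : L - (D * h + (p : ℤ) ^ (w1 + 1)) + (p : ℤ) ^ (w1 + 1) = L - D * h := by ring
        rwa [e] at this
      have h2' : (p : ℤ) ^ 2 ∣ L - D * h := (pow_dvd_pow _ (by omega)).trans h2
      constructor
      · apply fac_natAbs hp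
        · rw [zero_add, pow_one]
          have := dvd_add ((dvd_pow_self (p : ℤ) (by norm_num)).trans h2') a1
          rwa [sub_add_cancel] at this
        · rw [zero_add]
          intro h3
          have := dvd_sub h3 h2'
          rw [sub_sub_cancel] at this
          exact a2 this
      · apply fac_natAbs hp
        · exact h2
        · intro h3
          have := dvd_sub h3 h1
          have e : L - D * h - (L - (D * h + (p : ℤ) ^ (w1 + 1))) = (p : ℤ) ^ (w1 + 1) := by ring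
          rw [e] at this
          exact hself _ this
    · have hw0' : 1 ≤ w0 := by
        rcases Nat.eq_zero_or_pos w0 with h0 | h0
        · exact absurd ⟨h0, rfl⟩ hz
        · exact h0
      refine ⟨(p : ℤ) ^ (w0 + 1), fun L hL => ?_⟩
      have h1 : (p : ℤ) ^ (w0 + 2) ∣ L - (p : ℤ) ^ (w0 + 1) := (hpow _ (by omega)).trans hL
      have h2 : (p : ℤ) ^ (w0 + 1) ∣ L := by
        have h3 := (pow_dvd_pow (p : ℤ) (show w0 + 1 ≤ w0 + 2 by omega)).trans h1
        have := dvd_add h3 (dvd_refl ((p : ℤ) ^ (w0 + 1)))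
        rwa [sub_add_cancel] at this
      have h2' : (p : ℤ) ^ 2 ∣ L := (pow_dvd_pow _ (by omega)).trans h2
      constructor
      · apply fac_natAbs hp h2
        intro h3
        have := dvd_sub h3 h1
        rw [sub_sub_cancel] at this
        exact hself _ this
      · apply fac_natAbs hp
        · rw [zero_add, pow_one]
          exact dvd_sub ((dvd_pow_self (p : ℤ) (by norm_num)).trans h2') a1
        · rw [zero_add]
          intro h3
          have := dvd_sub h2' h3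
          rw [sub_sub_cancel] at this
          exact a2 this

/-- the full part of a number at the primes of `Q` -/
theorem gcd_full {Q z z' : ℕ} (hQ : 0 < Q) (h2 : 2 ∣ Q)
    (hz : ∀ p, p.Prime → p ∣ Q → ¬ p ^ Q.factorization p ∣ z)
    (hzz : ∀ m, m ∣ Q → (m ∣ z ↔ m ∣ z')) :
    z' ≠ 0 ∧ Nat.gcd Q z ∣ z' ∧ (∀ p, p.Prime → p ∣ Q → ¬ p ∣ z' / Nat.gcd Q z) ∧
      ∀ p, p.Prime → p ∣ Q → z'.factorization p = z.factorization p ∧
        (Nat.gcd Q z).factorization p = z.factorization p := by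
  have hz0 : z ≠ 0 := by
    rintro rfl
    exact hz 2 Nat.prime_two h2 (dvd_zero _)
  have hz'0 : z' ≠ 0 := by
    rintro rfl
    exact hz 2 Nat.prime_two h2 ((hzz _ (Nat.ordProj_dvd Q 2)).2 (dvd_zero _))
  have hlt : ∀ p, p.Prime → p ∣ Q → z.factorization p < Q.factorization p := by
    intro p hp hd
    by_contra hle
    push Not at hle
    exact hz p hp hd ((hp.pow_dvd_iff_le_factorization hz0).2 hle)
  have hval : ∀ p, p.Prime → p ∣ Q → z'.factorization p = z.factorization p := by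
    intro p hp hd
    have h1 := hlt p hp hd
    apply fac_eq hp
    · rw [← hzz _ ((hp.pow_dvd_iff_le_factorization hQ.ne').2 h1.le)]
      exact Nat.ordProj_dvd _ _
    · rw [← hzz _ ((hp.pow_dvd_iff_le_factorization hQ.ne').2 h1)]
      exact Nat.pow_succ_factorization_not_dvd hz0 hp
  have hg : ∀ p, p.Prime → p ∣ Q → (Nat.gcd Q z).factorization p = z.factorization p := by
    intro p hp hd
    rw [Nat.factorization_gcd hQ.ne' hz0, Finsupp.inf_apply]
    exact min_eq_right (hlt p hp hd).le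
  have hgd : Nat.gcd Q z ∣ z' := (hzz _ (Nat.gcd_dvd_left _ _)).1 (Nat.gcd_dvd_right _ _)
  refine ⟨hz'0, hgd, fun p hp hd hpd => ?_, fun p hp hd => ⟨hval p hp hd, hg p hp hd⟩⟩
  have h1 : (z' / Nat.gcd Q z).factorization p = 0 := by
    rw [Nat.factorization_div hgd, Finsupp.tsub_apply, hval p hp hd, hg p hp hd]
    omega
  have h2 : z' / Nat.gcd Q z ≠ 0 :=
    (Nat.div_pos (Nat.le_of_dvd (Nat.pos_of_ne_zero hz'0) hgd) (Nat.gcd_pos_of_pos_left _ hQ)).ne'
  have h3 := (hp.dvd_iff_one_le_factorization h2).1 hpd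
  omega

/-- the residue class with the prescribed exponents at the primes of the lines -/
theorem residuesL {b Nn Cc B M0 W : ℕ} {h : Fin b → Fin b → ℕ}
    {s0 s1 : Fin b → ℕ} (H : Dsl b Nn Cc B M0 W h s0 s1) (hB : 2 ≤ B) (hM0 : 0 < M0) {D : ℤ}
    (hDW : ∀ p : ℕ, (p : ℤ) ∣ D → p ∣ W)
    (y0 : ℕ) (mm : ℕ) (w0 w1 : Fin b → Fin b → ℕ → ℕ) (hw0 : ∀ j i p, w0 j i p ≤ mm)
    (hw1 : ∀ j i p, w1 j i p ≤ mm) (h01 : ∀ j i p, w0 j i p = 0 ∨ w1 j i p = 0) :
    ∃ Q X : ℕ, 0 < Q ∧ M0 ∣ Q ∧ X ≡ y0 [MOD M0] ∧ Q ≤ M0 * (∏ j, ∏ i, h j i) ^ (mm + 3) ∧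
      (∀ p : ℕ, p.Prime → p ∣ Q → p ∣ M0 ∨ ∃ j i, p ∣ h j i) ∧
      (∀ j i, h j i ∣ Q) ∧
      (∀ j i p, p.Prime → p ∣ h j i → ¬ p ∣ M0 ∧ mm + 3 ≤ Q.factorization p) ∧
      (∀ j i p, p.Prime → p ∣ h j i →
        (gl D (s0 j) X).factorization p = w0 j i p + 1 ∧
        (gl D (s1 i) X).factorization p = w1 j i p + 1 ∧
        (∀ j', j' ≠ j → ¬ p ∣ gl D (s0 j') X) ∧
        (∀ i', i' ≠ i → ¬ p ∣ gl D (s1 i') X)) := by
  classical
  have hpM0 : ∀ j i p, p.Prime → p ∣ h j i → ¬ p ∣ M0 := by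
    intro j i p hp hd hM
    have h1 : s0 j ≡ 1 [MOD p] := (H.s0one j).of_dvd hM
    have h2 : s1 i ≡ 0 [MOD p] := (H.s1zero i).of_dvd hM
    have h3 : h j i ≡ 0 [MOD p] := (Nat.modEq_zero_iff_dvd).2 hd
    have h4 := h2.add h3
    rw [← H.eq, add_zero] at h4
    have h5 := h1.symm.trans h4
    have h6 : p ∣ 1 := (Nat.modEq_zero_iff_dvd).1 h5
    exact hp.one_lt.ne' (Nat.dvd_one.1 h6)
  have hpos : ∀ j i, 0 < h j i := fun j i => Nat.pos_of_ne_zero (H.sq j i).ne_zero
  have hx0 : ∀ x : (Σ e : Fin b × Fin b, (h e.1 e.2).primeFactors), ∃ l : ℤ, ∀ L : ℤ,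
      ((x.2 : ℕ) : ℤ) ^ (mm + 2) ∣ L - l →
      L.natAbs.factorization x.2 = w0 x.1.1 x.1.2 x.2 + 1 ∧
      (L - D * (h x.1.1 x.1.2)).natAbs.factorization x.2 = w1 x.1.1 x.1.2 x.2 + 1 := by
    intro x
    have hp := Nat.prime_of_mem_primeFactors x.2.2
    have hd := Nat.dvd_of_mem_primeFactors x.2.2
    obtain ⟨h1, h2⟩ := H.big x.1.1 x.1.2 _ hp hd
    apply exact_lin hp (by omega) (fun h3 => h2 (hDW _ h3)) hd _ (hw0 _ _ _) (hw1 _ _ _)
      (h01 _ _ _)
    intro h4
    rw [pow_two] at h4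
    exact hp.one_lt.ne' (Nat.isUnit_iff.1 ((H.sq x.1.1 x.1.2) _ h4))
  choose lx hlx using hx0
  obtain ⟨X, hX⟩ := crtZ (ι := Option (Σ e : Fin b × Fin b, (h e.1 e.2).primeFactors))
    (fun o => match o with
      | none => M0
      | some x => (x.2 : ℕ) ^ (mm + 3))
    (fun o => match o with
      | none => (y0 : ℤ)
      | some x => lx x - D * s0 x.1.1)
    (by
      intro o
      match o with
      | none => exact hM0
      | some x => exact pow_pos (Nat.prime_of_mem_primeFactors x.2.2).pos _)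
    (by
      have key : ∀ x : (Σ e : Fin b × Fin b, (h e.1 e.2).primeFactors),
          Nat.Coprime M0 ((x.2 : ℕ) ^ (mm + 3)) := by
        intro x
        have hp := Nat.prime_of_mem_primeFactors x.2.2
        apply Nat.Coprime.pow_right
        apply Nat.Coprime.symm
        rw [Nat.Prime.coprime_iff_not_dvd hp]
        exact hpM0 _ _ _ hp (Nat.dvd_of_mem_primeFactors x.2.2)
      intro o o' hne
      match o, o' with
      | none, none => exact absurd rfl hne
      | none, some x => exact key x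
      | some x, none => exact (key x).symm
      | some x, some y =>
        apply Nat.Coprime.pow
        have hpx := Nat.prime_of_mem_primeFactors x.2.2
        have hpy := Nat.prime_of_mem_primeFactors y.2.2
        rw [Nat.coprime_primes hpx hpy]
        intro hxy
        apply hne
        congr 1
        obtain ⟨⟨j, i⟩, p, hp⟩ := x
        obtain ⟨⟨j', i'⟩, p', hp'⟩ := y
        have hpp : p = p' := hxy
        subst hpp
        by_cases he : (j', i') = (j, i)
        · rw [Prod.mk.injEq] at he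
          obtain ⟨rfl, rfl⟩ := he
          rfl
        · exfalso
          have h1 := H.cop j i j' i' he
          have h2 := Nat.dvd_gcd (Nat.dvd_of_mem_primeFactors hp) (Nat.dvd_of_mem_primeFactors hp')
          rw [h1] at h2
          exact hpx.one_lt.ne' (Nat.dvd_one.1 h2))
  have hXM : X ≡ y0 [MOD M0] := ((Nat.modEq_iff_dvd).2 (hX none)).symm
  have hXx : ∀ x : (Σ e : Fin b × Fin b, (h e.1 e.2).primeFactors),
      ((x.2 : ℕ) : ℤ) ^ (mm + 3) ∣ ((X : ℤ) + D * s0 x.1.1) - lx x := by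
    intro x
    have h1 := hX (some x)
    have e : ((X : ℤ) + D * s0 x.1.1) - lx x = (X : ℤ) - (lx x - D * s0 x.1.1) := by ring
    rw [e]
    exact_mod_cast h1
  obtain ⟨Q, hQ⟩ : ∃ Q : ℕ, Q = M0 * ∏ x : (Σ e : Fin b × Fin b, (h e.1 e.2).primeFactors),
    (x.2 : ℕ) ^ (mm + 3) := ⟨_, rfl⟩
  have hQpos : 0 < Q := by
    rw [hQ]
    exact Nat.mul_pos hM0 (prod_pos fun x _ => pow_pos (Nat.prime_of_mem_primeFactors x.2.2).pos _)
  have hpQ : ∀ j i p, p.Prime → p ∣ h j i → p ^ (mm + 3) ∣ Q := by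
    intro j i p hp hd
    have hmem : p ∈ (h j i).primeFactors := Nat.mem_primeFactors.2 ⟨hp, hd, (hpos j i).ne'⟩
    have h1 := dvd_prod_of_mem (fun x : (Σ e : Fin b × Fin b, (h e.1 e.2).primeFactors) =>
      (x.2 : ℕ) ^ (mm + 3)) (mem_univ ⟨(j, i), ⟨p, hmem⟩⟩)
    rw [hQ]
    exact h1.mul_left _
  have hval : ∀ j i p, p.Prime → p ∣ h j i →
        (gl D (s0 j) X).factorization p = w0 j i p + 1 ∧
        (gl D (s1 i) X).factorization p = w1 j i p + 1 := by
    intro j i p hp hd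
    have hmem : p ∈ (h j i).primeFactors := Nat.mem_primeFactors.2 ⟨hp, hd, (hpos j i).ne'⟩
    have h1 := hXx ⟨(j, i), ⟨p, hmem⟩⟩
    have h2 := hlx ⟨(j, i), ⟨p, hmem⟩⟩ ((X : ℤ) + D * s0 j)
      ((pow_dvd_pow _ (by omega)).trans h1)
    have e : (X : ℤ) + D * s0 j - D * (h j i) = (X : ℤ) + D * s1 i := by
      rw [H.eq j i]
      push_cast
      ring
    have h3 := h2.2
    have h4 : (X : ℤ) + D * s0 j - D * (h ((j, i) : Fin b × Fin b).1 ((j, i) : Fin b × Fin b).2) =
      (X : ℤ) + D * s1 i := e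
    rw [h4] at h3
    exact ⟨h2.1, h3⟩
  have hlin : ∀ p : ℕ, p.Prime → ¬ p ∣ W → ∀ s s' : ℕ, p ∣ gl D s X → p ∣ gl D s' X →
      (p : ℤ) ∣ (s : ℤ) - s' := by
    intro p hp hpW s s' h1 h2
    rw [dvd_gl] at h1 h2
    have h3 := dvd_sub h1 h2
    have e : (X : ℤ) + D * s - ((X : ℤ) + D * s') = D * ((s : ℤ) - s') := by ring
    rw [e] at h3
    rcases (Nat.prime_iff_prime_int.1 hp).dvd_or_dvd h3 with h4 | h4
    · exact absurd (hDW p h4) hpW
    · exact h4
  have hnoth : ∀ j i p, p.Prime → p ∣ h j i → ∀ j' i', (j', i') ≠ (j, i) → ¬ p ∣ h j' i' := by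
    intro j i p hp hd j' i' hne hd'
    have h1 := H.cop j i j' i' hne
    have h2 := Nat.dvd_gcd hd hd'
    rw [h1] at h2
    exact hp.one_lt.ne' (Nat.dvd_one.1 h2)
  refine ⟨Q, X, hQpos, by rw [hQ]; exact dvd_mul_right _ _, hXM, ?_, ?_, ?_, ?_, ?_⟩
  · rw [hQ]
    apply Nat.mul_le_mul_left
    rw [Fintype.prod_sigma, ← Finset.prod_product', ← Finset.prod_pow]
    apply Finset.prod_le_prod' 
    intro e _
    show ∏ p : (h e.1 e.2).primeFactors, (p : ℕ) ^ (mm + 3) ≤ h e.1 e.2 ^ (mm + 3)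
    rw [Finset.prod_pow]
    apply Nat.pow_le_pow_left
    have h1 : ∏ p : (h e.1 e.2).primeFactors, (p : ℕ) = ∏ p ∈ (h e.1 e.2).primeFactors, p :=
      Finset.prod_coe_sort _ (fun p => p)
    rw [h1]
    exact Nat.le_of_dvd (hpos _ _) (Nat.prod_primeFactors_dvd _)
  · intro p hp hd
    rw [hQ, hp.dvd_mul] at hd
    rcases hd with h1 | h1
    · exact Or.inl h1
    · obtain ⟨x, _, hx⟩ := (hp.prime.dvd_finsetProd_iff _).1 h1
      have hpx := Nat.prime_of_mem_primeFactors x.2.2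
      have h2 := (Nat.prime_dvd_prime_iff_eq hp hpx).1 (hp.dvd_of_dvd_pow hx)
      right
      refine ⟨x.1.1, x.1.2, ?_⟩
      rw [h2]
      exact Nat.dvd_of_mem_primeFactors x.2.2
  · intro j i
    rw [← Nat.factorization_le_iff_dvd (H.sq j i).ne_zero hQpos.ne']
    intro p
    by_cases hpp : p.Prime ∧ p ∣ h j i
    · have h1 := (H.sq j i).natFactorization_le_one p
      have h2 := (hpp.1.pow_dvd_iff_le_factorization hQpos.ne').1 (hpQ j i p hpp.1 hpp.2)
      omega
    · have : (h j i).factorization p = 0 := by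
        rcases not_and_or.1 hpp with h1 | h1
        · exact Nat.factorization_eq_zero_of_not_prime _ h1
        · exact Nat.factorization_eq_zero_of_not_dvd h1
      rw [this]
      exact Nat.zero_le _
  · intro j i p hp hd
    exact ⟨hpM0 j i p hp hd, (hp.pow_dvd_iff_le_factorization hQpos.ne').1 (hpQ j i p hp hd)⟩
  · intro j i p hp hd
    obtain ⟨h1, h2⟩ := hval j i p hp hd
    have hpW := (H.big j i p hp hd).2
    have h3 : p ∣ gl D (s0 j) X := Nat.dvd_of_factorization_pos (by rw [h1]; omega)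
    have h4 : p ∣ gl D (s1 i) X := Nat.dvd_of_factorization_pos (by rw [h2]; omega)
    refine ⟨h1, h2, ?_, ?_⟩
    · intro j' hne hd'
      have h5 := hlin p hp hpW _ _ hd' h4
      have e : (s0 j' : ℤ) - s1 i = h j' i := by rw [H.eq j' i]; push_cast; ring
      rw [e] at h5
      exact hnoth j i p hp hd j' i (fun he => hne (by rw [Prod.mk.injEq] at he; exact he.1))
        (by exact_mod_cast h5)
    · intro i' hne hd'
      have h5 := hlin p hp hpW _ _ h3 hd'
      have e : (s0 j : ℤ) - s1 i' = h j i' := by rw [H.eq j i']; push_cast; ring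
      rw [e] at h5
      exact hnoth j i p hp hd j i' (fun he => hne (by rw [Prod.mk.injEq] at he; exact he.2))
        (by exact_mod_cast h5)

end Pool.Agent.Y887.UT
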