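import Mathlib
import Pool.Agent.Y887.UT.Res
import Pool.Agent.Y887.UT.Pr
import Pool.Agent.Y887.QE.Eqz
import Pool.Agent.Y887.DE.Fil

/-!
Restriction of the shifts of an integer to a progression on which they have prescribed additional prime
powers.
-/

set_option autoImplicit false

namespace Pool.Agent.Y887.UT

open Finset Filter Pool.Agent.Y887.DK
open Pool.Agent.Y887.DE (fac_eq filler)

theorem exact_pow {p : ℕ} (hp : p.Prime) {e : ℕ} {D : ℤ} {s y X : ℕ} 
    (h : (p : ℤ) ^ (e + 1) ∣ (X : ℤ) - ((p : ℤ) ^ e - D * s)) (hy : y ≡ X [MOD p ^ (e + 1)]) :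
    p ^ e ∣ gl D s y ∧ ¬ p ^ (e + 1) ∣ gl D s y := by
  have hpz : (p : ℤ) ≠ 0 := by exact_mod_cast hp.ne_zero
  have h1 : ((p : ℤ)) ^ (e + 1) ∣ (X : ℤ) - y := by
    have := (Nat.modEq_iff_dvd).1 hy
    exact_mod_cast this
  have h2 : (p : ℤ) ^ (e + 1) ∣ ((y : ℤ) + D * s) - (p : ℤ) ^ e := by
    have e1 : ((y : ℤ) + D * s) - (p : ℤ) ^ e = ((X : ℤ) - ((p : ℤ) ^ e - D * s)) - ((X : ℤ) - y) := by
      ring
    rw [e1]
    exact dvd_sub h h1
  constructor
  · rw [dvd_gl]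
    push_cast
    have h3 := dvd_add ((pow_dvd_pow (p : ℤ) (Nat.le_succ e)).trans h2) (dvd_refl ((p : ℤ) ^ e))
    rwa [sub_add_cancel] at h3
  · intro h3
    rw [dvd_gl] at h3
    push_cast at h3
    have h4 := dvd_sub h3 h2
    rw [sub_sub_cancel, pow_succ] at h4
    have h5 : (p : ℤ) ^ e * p ∣ (p : ℤ) ^ e * 1 := by rwa [mul_one]
    have h6 := (mul_dvd_mul_iff_left (pow_ne_zero e hpz)).1 h5
    exact (Nat.prime_iff_prime_int.1 hp).not_isUnit (isUnit_of_dvd_one h6)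

/-- the filler with bounds -/
theorem filler_bd (S : Finset ℕ) (e : ℕ → ℕ) (Bm Z : ℕ) (hcard : S.card ≤ Z)
    (he : ∀ p ∈ S, e p ≤ Bm) :
    ∃ L : List ℕ, (∀ m ∈ L, 1 ≤ m ∧ m ≤ Bm) ∧ L.length ≤ Bm * Z ∧
      ∀ {Δ : Type} [CommMonoid Δ] (g : ℕ → Δ), g 0 = 1 →
      (∏ p ∈ S, g (e p)) * (L.map g).prod = ∏ j ∈ Icc 1 Bm, g j ^ Z := by
  classical
  obtain ⟨L, hL1, hL2⟩ := filler S e Bm Z hcard he
  have hlen : ∀ (q : ℕ → Prop) [DecidablePred q] (L : List ℕ),
      (L.map (fun m => Multiplicative.ofAdd (if q m then 1 else 0 : ℕ))).prod =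
      Multiplicative.ofAdd ((L.filter (fun m => decide (q m))).length) := by
    intro q _ L
    induction L with
    | nil => simp
    | cons a L ih =>
      rw [List.map_cons, List.prod_cons, ih, List.filter_cons]
      by_cases h : q a
      · simp [h, ← ofAdd_add, add_comm]
      · simp [h]
  have hb : ∀ m ∈ L, m ≤ Bm := by
    intro m hm
    by_contra hle
    have h1 := hL2 (fun m => Multiplicative.ofAdd (if Bm < m then 1 else 0 : ℕ)) (by simp)
    rw [hlen] at h1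
    have h2 : ∏ p ∈ S, Multiplicative.ofAdd (if Bm < e p then 1 else 0 : ℕ) = 1 := by
      apply prod_eq_one
      intro p hp
      have := he p hp
      rw [if_neg (by omega)]
      rfl
    have h3 : ∏ j ∈ Icc 1 Bm, Multiplicative.ofAdd (if Bm < j then 1 else 0 : ℕ) ^ Z = 1 := by
      apply prod_eq_one
      intro j hj
      rw [mem_Icc] at hj
      rw [if_neg (by omega)]
      simp
    rw [h2, h3, one_mul] at h1
    have h4 : (L.filter (fun m => decide (Bm < m))).length = 0 := by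
      have := congrArg Multiplicative.toAdd h1
      simpa using this
    rw [List.length_eq_zero_iff, List.filter_eq_nil_iff] at h4
    have := h4 m hm
    simp at this
    omega
  refine ⟨L, fun m hm => ⟨hL1 m hm, hb m hm⟩, ?_, hL2⟩
  have h1 := hL2 (fun m => Multiplicative.ofAdd (if 0 < m then 1 else 0 : ℕ)) (by simp)
  rw [hlen] at h1
  have h2 : L.filter (fun m => decide (0 < m)) = L := by
    rw [List.filter_eq_self]
    intro m hm
    have h5 := hL1 m hm
    have h6 : 0 < m := by omega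
    simpa using h6
  rw [h2] at h1
  have h3 : ∏ j ∈ Icc 1 Bm, Multiplicative.ofAdd (if 0 < j then 1 else 0 : ℕ) ^ Z =
      Multiplicative.ofAdd (Bm * Z) := by
    rw [prod_congr rfl (g := fun _ => Multiplicative.ofAdd Z), prod_const, Nat.card_Icc,
      Nat.add_sub_cancel, ← ofAdd_nsmul, smul_eq_mul]
    intro j hj
    rw [mem_Icc] at hj
    rw [if_pos (by omega), ← ofAdd_nsmul]
    simp
  rw [h3] at h1
  have h4 : (Multiplicative.toAdd (∏ p ∈ S, Multiplicative.ofAdd (if 0 < e p then 1 else 0 : ℕ))) +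
      L.length = Bm * Z := by
    have := congrArg Multiplicative.toAdd h1
    simp only [toAdd_mul, toAdd_ofAdd] at this
    exact this
  omega

set_option maxHeartbeats 1000000 in
theorem eqzL {D : ℤ} {V : Type} [Fintype V] (s : V → ℕ) (Q X : ℕ) (ex : V → List ℕ)
    (hQ : 0 < Q) (h2Q : 2 ∣ Q)
    (hlow : ∀ P, ∀ p : ℕ, p.Prime → p ∣ Q → ¬ p ^ Q.factorization p ∣ gl D (s P) X)
    (mx n0 Rb : ℕ) (hex : ∀ P, ∀ m ∈ ex P, 1 ≤ m ∧ m ≤ mx)
    (hn0 : ∑ P, (ex P).length ≤ n0)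
    (r : (Σ P : V, Fin (ex P).length) → ℕ) (hrinj : Function.Injective r)
    (hrp : ∀ y, (r y).Prime) (hrQ : ∀ y, ¬ r y ∣ Q) (hrD : ∀ y, ¬ (r y : ℤ) ∣ D)
    (hrs : ∀ y P, P ≠ y.1 → ¬ (r y : ℤ) ∣ (s P : ℤ) - s y.1) (hrb : ∀ y, r y ≤ Rb)
    (hRb : 1 ≤ Rb) :
    ∃ (Q' X' : ℕ) (c : V → ℕ), 0 < Q' ∧ Q ∣ Q' ∧ X' ≡ X [MOD Q] ∧
      Q' ≤ Q * Rb ^ ((mx + 1) * n0) ∧
      (∀ p : ℕ, p.Prime → p ∣ Q' → p ∣ Q ∨ ∃ y, p = r y) ∧
      ∀ P, 0 < c P ∧ c P ∣ Q' ∧ (∀ y, y ≡ X' [MOD Q'] → gl D (s P) y ≠ 0 ∧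
        c P ∣ gl D (s P) y ∧ (∀ p, p.Prime → p ∣ Q' → ¬ p ∣ gl D (s P) y / c P) ∧
        (∀ p, p.Prime → p ∣ Q' → (gl D (s P) y).factorization p = (c P).factorization p) ∧
        (∀ p, p.Prime → p ∣ Q →
          (gl D (s P) y).factorization p = (gl D (s P) X).factorization p)) ∧
        (∀ {Δ : Type} [CommMonoid Δ] (g : ℕ → Δ), g 0 = 1 → Fm g (c P) =
          (∏ p ∈ Q.primeFactors, g ((gl D (s P) X).factorization p)) *
            ((ex P).map g).prod) := by
  classical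
  obtain ⟨e, he⟩ : ∃ e : (Σ P : V, Fin (ex P).length) → ℕ,
      ∀ y, e y = (ex y.1).get y.2 := ⟨_, fun _ => rfl⟩
  have he1 : ∀ y, 1 ≤ e y := fun y => by
    rw [he]; exact (hex y.1 _ (List.get_mem _ _)).1
  have he2 : ∀ y, e y ≤ mx := fun y => by
    rw [he]; exact (hex y.1 _ (List.get_mem _ _)).2
  obtain ⟨X', hX'⟩ := crtZ (ι := Option (Σ P : V, Fin (ex P).length))
    (fun o => match o with
      | none => Q
      | some y => r y ^ (e y + 1))
    (fun o => match o with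
      | none => (X : ℤ)
      | some y => (r y : ℤ) ^ (e y) - D * s y.1)
    (by
      intro o
      match o with
      | none => exact hQ
      | some y => exact pow_pos (hrp y).pos _)
    (by
      intro o o' hne
      match o, o', hne with
      | none, none, h => exact absurd rfl h
      | none, some y, _ =>
        exact Nat.Coprime.pow_right _ ((Nat.Prime.coprime_iff_not_dvd (hrp y)).2 (hrQ y)).symm
      | some y, none, _ =>
        exact Nat.Coprime.pow_left _ ((Nat.Prime.coprime_iff_not_dvd (hrp y)).2 (hrQ y))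
      | some y, some y', h =>
        apply Nat.Coprime.pow
        exact (Nat.coprime_primes (hrp y) (hrp y')).2
          (fun h1 => h (by rw [hrinj h1])))
  have hX'1 : X' ≡ X [MOD Q] := ((Nat.modEq_iff_dvd).2 (hX' none)).symm
  have hX'2 : ∀ y : (Σ P : V, Fin (ex P).length),
      ((r y : ℕ) : ℤ) ^ (e y + 1) ∣ (X' : ℤ) - ((r y : ℤ) ^ (e y) - D * s y.1) := by
    intro y
    have := hX' (some y)
    exact_mod_cast this
  obtain ⟨R, hR⟩ : ∃ R : ℕ, R = ∏ y, r y ^ (e y + 1) := ⟨_, rfl⟩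
  have hRpos : 0 < R := by
    rw [hR]; exact Finset.prod_pos fun y _ => pow_pos (hrp y).pos _
  have hrR : ∀ y, r y ^ (e y + 1) ∣ R := fun y => by
    rw [hR]; exact Finset.dvd_prod_of_mem _ (mem_univ y)
  obtain ⟨Q', hQ'⟩ : ∃ Q' : ℕ, Q' = Q * R := ⟨_, rfl⟩
  have hQ'pos : 0 < Q' := by rw [hQ']; positivity
  have hQQ' : Q ∣ Q' := by rw [hQ']; exact dvd_mul_right _ _
  have hRQ' : R ∣ Q' := by rw [hQ']; exact dvd_mul_left _ _
  have hQ'p : ∀ p : ℕ, p.Prime → p ∣ Q' → p ∣ Q ∨ ∃ y, p = r y := by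
    intro p hp hd
    rw [hQ', hp.dvd_mul] at hd
    rcases hd with h | h
    · exact Or.inl h
    · rw [hR] at h
      obtain ⟨y, _, hy⟩ := (hp.prime.dvd_finsetProd_iff _).1 h
      exact Or.inr ⟨y, (Nat.prime_dvd_prime_iff_eq hp (hrp y)).1 (hp.dvd_of_dvd_pow hy)⟩
  have hrexact : ∀ y : (Σ P : V, Fin (ex P).length),
      r y ^ (e y) ∣ gl D (s y.1) X' ∧ ¬ r y ^ (e y + 1) ∣ gl D (s y.1) X' := fun y =>
    exact_pow (hrp y) (hX'2 y) rfl
  have hother : ∀ P, ∀ y : (Σ P : V, Fin (ex P).length), P ≠ y.1 →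
      ¬ r y ∣ gl D (s P) X' := by
    intro P y hne hd
    have h1 : r y ∣ gl D (s y.1) X' := (dvd_pow_self _ (by have := he1 y; omega)).trans
      (hrexact y).1
    rw [dvd_gl] at hd h1
    have h3 := dvd_sub hd h1
    have e1 : (X' : ℤ) + D * s P - ((X' : ℤ) + D * s y.1) = D * ((s P : ℤ) - s y.1) := by ring
    rw [e1] at h3
    rcases (Nat.prime_iff_prime_int.1 (hrp y)).dvd_or_dvd h3 with h4 | h4
    · exact hrD y h4
    · exact hrs y P hne h4
  have hfacQ' : ∀ y, e y + 1 ≤ Q'.factorization (r y) := fun y =>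
    ((hrp y).pow_dvd_iff_le_factorization hQ'pos.ne').1 ((hrR y).trans hRQ')
  have hQfac : ∀ p : ℕ, p.Prime → p ∣ Q → Q'.factorization p = Q.factorization p := by
    intro p hp hd
    rw [hQ', Nat.factorization_mul hQ.ne' hRpos.ne', Finsupp.add_apply]
    have h1 : R.factorization p = 0 := by
      apply Nat.factorization_eq_zero_of_not_dvd
      intro h2
      rw [hR] at h2
      obtain ⟨y, _, hy⟩ := (hp.prime.dvd_finsetProd_iff _).1 h2
      have h3 := (Nat.prime_dvd_prime_iff_eq hp (hrp y)).1 (hp.dvd_of_dvd_pow hy)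
      exact hrQ y (h3 ▸ hd)
    omega
  have hfull : ∀ P, ∀ p : ℕ, p.Prime → p ∣ Q' → ¬ p ^ Q'.factorization p ∣ gl D (s P) X' := by
    intro P p hp hpQ' hd
    rcases hQ'p p hp hpQ' with h | ⟨y, rfl⟩
    · rw [hQfac p hp h] at hd
      rw [gl_congr (hX'1.of_dvd (Nat.ordProj_dvd Q p))] at hd
      exact hlow P p hp h hd
    · by_cases hy : P = y.1
      · rw [hy] at hd
        exact (hrexact y).2 ((pow_dvd_pow _ (hfacQ' y)).trans hd)
      · exact hother P y hy ((dvd_pow_self _ (by have := hfacQ' y; omega)).trans hd)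
  have h2Q' : 2 ∣ Q' := h2Q.trans hQQ'
  -- the values at the class
  have hclass : ∀ P y, y ≡ X' [MOD Q'] → ∀ m, m ∣ Q' → (m ∣ gl D (s P) X' ↔ m ∣ gl D (s P) y) := by
    intro P y hy m hm
    exact (gl_congr (hy.of_dvd hm)).symm
  have hfull' := fun P y (hy : y ≡ X' [MOD Q']) =>
    gcd_full hQ'pos h2Q' (hfull P) (hclass P y hy)
  have hvX' : ∀ P, ∀ p : ℕ, p.Prime → p ∣ Q →
      (gl D (s P) X').factorization p = (gl D (s P) X).factorization p := by
    intro P p hp hd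
    have h1 := gcd_full hQ h2Q (hlow P) (fun m (hm : m ∣ Q) =>
      (gl_congr (D := D) (s := s P) (hX'1.of_dvd hm)).symm)
    exact (h1.2.2.2 p hp hd).1
  have hX'0 : ∀ P, gl D (s P) X' ≠ 0 := fun P => (hfull' P X' rfl).1
  refine ⟨Q', X', fun P => Nat.gcd Q' (gl D (s P) X'), hQ'pos, hQQ', hX'1, ?_, hQ'p, ?_⟩
  · rw [hQ', hR]
    apply Nat.mul_le_mul_left
    have h1 : ∏ y, r y ^ (e y + 1) ≤ ∏ _y : (Σ P : V, Fin (ex P).length), Rb ^ (mx + 1) := by
      apply Finset.prod_le_prod'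
      intro y _
      exact (Nat.pow_le_pow_left (hrb y) _).trans
        (Nat.pow_le_pow_right hRb (by have := he2 y; omega))
    refine h1.trans ?_
    rw [prod_const, card_univ, Fintype.card_sigma, ← pow_mul]
    apply Nat.pow_le_pow_right hRb
    apply Nat.mul_le_mul_left
    simpa using hn0
  intro P
  have hG : 0 < Nat.gcd Q' (gl D (s P) X') := Nat.gcd_pos_of_pos_left _ hQ'pos
  refine ⟨hG, Nat.gcd_dvd_left _ _, ?_, ?_⟩
  · intro y hy
    obtain ⟨h1, h2, h3, h4⟩ := hfull' P y hy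
    refine ⟨h1, h2, h3, fun p hp hd => ?_, fun p hp hd => ?_⟩
    · rw [(h4 p hp hd).1, (h4 p hp hd).2]
    · rw [(h4 p hp (hd.trans hQQ')).1, hvX' P p hp hd]
  · intro Δ _ g hg
    have hdisj : Disjoint Q.primeFactors (univ.image r) := by
      rw [disjoint_left]
      intro p hp hpr
      obtain ⟨y, -, rfl⟩ := mem_image.1 hpr
      exact hrQ y (Nat.dvd_of_mem_primeFactors hp)
    have hsub : (Nat.gcd Q' (gl D (s P) X')).primeFactors ⊆ Q.primeFactors ∪ univ.image r := by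
      intro p hp
      have hpp := Nat.prime_of_mem_primeFactors hp
      have hpd := (Nat.dvd_of_mem_primeFactors hp).trans (Nat.gcd_dvd_left _ _)
      rw [mem_union]
      rcases hQ'p p hpp hpd with h | ⟨y, rfl⟩
      · exact Or.inl (Nat.mem_primeFactors.2 ⟨hpp, h, hQ.ne'⟩)
      · exact Or.inr (mem_image_of_mem r (mem_univ y))
    have hgf : ∀ p, p.Prime → p ∣ Q' →
        (Nat.gcd Q' (gl D (s P) X')).factorization p = (gl D (s P) X').factorization p :=
      fun p hp hd => ((hfull' P X' rfl).2.2.2 p hp hd).2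
    show Fm g (Nat.gcd Q' (gl D (s P) X')) = _
    rw [Fm_prod hg hsub, prod_union hdisj]
    congr 1
    · apply prod_congr rfl
      intro p hp
      have hpp := Nat.prime_of_mem_primeFactors hp
      have hpQ := Nat.dvd_of_mem_primeFactors hp
      rw [hgf p hpp (hpQ.trans hQQ'), hvX' P p hpp hpQ]
    · rw [prod_image (fun y _ y' _ h => hrinj h)]
      rw [← prod_sigma_list (fun P : V => ex P) g P]
      apply prod_congr rfl
      intro y _
      have hry : r y ∣ Q' := ((dvd_pow_self _ (Nat.succ_ne_zero _)).trans (hrR y)).trans hRQ'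
      rw [hgf (r y) (hrp y) hry]
      by_cases hy : y.1 = P
      · rw [if_pos hy, ← hy, fac_eq (hrp y) (hrexact y).1 (hrexact y).2, he]
      · rw [if_neg hy, Nat.factorization_eq_zero_of_not_dvd (hother P y (Ne.symm hy)), hg]

end Pool.Agent.Y887.UT
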