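import Mathlib
import Pool.Agent.Y887.UT.Eqz
import Pool.Agent.Y887.DE.Kap
import Pool.Agent.Y887.QE.Cmb

/-!
Small lemmas for the assembly: assignments, the class modulo small primes, the value on one side.
-/

set_option autoImplicit false

namespace Pool.Agent.Y887.UT

open Finset Filter Pool.Agent.Y887.DK
open Pool.Agent.Y887.DE (kap kap_zero mix mix_prod mix_mem mix_length fac_eq Fm_kap)
open Pool.Agent.Y887.QE (assign sqf_dvd cop_of)

/-- two assignments with disjoint supports -/
theorem two_assign (S : Finset ℕ) (L0 L1 : List ℕ) (h : L0.length + L1.length ≤ S.card) :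
    ∃ w0 w1 : ℕ → ℕ, (∀ p, w0 p = 0 ∨ w0 p ∈ L0) ∧ (∀ p, w1 p = 0 ∨ w1 p ∈ L1) ∧
      (∀ p, w0 p = 0 ∨ w1 p = 0) ∧
      (∀ {Δ : Type} [CommMonoid Δ] (g : ℕ → Δ), g 0 = 1 →
        ∏ p ∈ S, g (w0 p) = (L0.map g).prod) ∧
      (∀ {Δ : Type} [CommMonoid Δ] (g : ℕ → Δ), g 0 = 1 →
        ∏ p ∈ S, g (w1 p) = (L1.map g).prod) := by
  classical
  obtain ⟨S0, hS0, hc⟩ := exists_subset_card_eq (show L0.length ≤ S.card by omega)
  obtain ⟨u0, hu0, hu0'⟩ := assign L0 S0 (by omega)
  obtain ⟨u1, hu1, hu1'⟩ := assign L1 (S \ S0) (by rw [card_sdiff_of_subset hS0]; omega)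
  refine ⟨fun p => if p ∈ S0 then u0 p else 0, fun p => if p ∈ S0 then 0 else u1 p, ?_, ?_, ?_,
    ?_, ?_⟩
  · intro p
    beta_reduce
    split_ifs
    · exact hu0 p
    · exact Or.inl rfl
  · intro p
    beta_reduce
    split_ifs
    · exact Or.inl rfl
    · exact hu1 p
  · intro p
    beta_reduce
    split_ifs
    · exact Or.inr rfl
    · exact Or.inl rfl
  · intro Δ _ g hg
    rw [← hu0' g hg, ← prod_sdiff hS0]
    rw [prod_congr (s₁ := S \ S0) rfl (g := fun _ => (1 : Δ)), prod_const_one, one_mul]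
    · apply prod_congr rfl
      intro p hp
      beta_reduce
      rw [if_pos hp]
    · intro p hp
      beta_reduce
      rw [if_neg (Finset.mem_sdiff.1 hp).2, hg]
  · intro Δ _ g hg
    rw [← hu1' g hg, ← prod_sdiff hS0]
    rw [prod_congr (s₁ := S0) rfl (g := fun _ => (1 : Δ)), prod_const_one, mul_one]
    · apply prod_congr rfl
      intro p hp
      beta_reduce
      rw [if_neg (Finset.mem_sdiff.1 hp).2]
    · intro p hp
      beta_reduce
      rw [if_pos hp, hg]

theorem gl_congr2 {D : ℤ} {s s' y y' m : ℕ} (h : y ≡ y' [MOD m]) (hs : s ≡ s' [MOD m]) :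
    m ∣ gl D s y ↔ m ∣ gl D s' y' := by
  rw [dvd_gl, dvd_gl]
  have h1 := (Nat.modEq_iff_dvd).1 h
  have h2 := (Nat.modEq_iff_dvd).1 hs
  have e : (y : ℤ) + D * s = ((y' : ℤ) + D * s') - (((y' : ℤ) - y) + D * ((s' : ℤ) - s)) := by ring
  rw [e]
  exact dvd_sub_left (dvd_add h1 (h2.mul_left _))

/-- the class modulo the small primes -/
theorem seed {α β : ℕ} (hα : 0 < α) (hβ : 0 < β) (hco : Nat.Coprime α β) {D : ℤ}
    (hD : ∀ p : ℕ, p.Prime → p ∣ α * β → ¬ (p : ℤ) ∣ D) (h2 : (2 : ℤ) ∣ ((α * β : ℕ) : ℤ) * D) (M0 : ℕ)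
    (hM0 : 0 < M0) :
    ∃ y0 : ℕ, ∀ p : ℕ, p.Prime → p ∣ M0 →
      (p ^ (α.factorization p) ∣ gl D 1 y0 ∧ ¬ p ^ (α.factorization p + 1) ∣ gl D 1 y0) ∧
      (p ^ (β.factorization p) ∣ gl D 0 y0 ∧ ¬ p ^ (β.factorization p + 1) ∣ gl D 0 y0) := by
  classical
  -- one prime
  have key : ∀ p : ℕ, p.Prime → ∃ l : ℤ, ∀ y : ℕ,
      (p : ℤ) ^ (α.factorization p + β.factorization p + 1) ∣ (y : ℤ) - l →
      (p ^ (α.factorization p) ∣ gl D 1 y ∧ ¬ p ^ (α.factorization p + 1) ∣ gl D 1 y) ∧
      (p ^ (β.factorization p) ∣ gl D 0 y ∧ ¬ p ^ (β.factorization p + 1) ∣ gl D 0 y) := by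
    intro p hp
    have hpz : (p : ℤ) ≠ 0 := by exact_mod_cast hp.ne_zero
    have hpp := Nat.prime_iff_prime_int.1 hp
    have hself : ∀ e, ¬ (p : ℤ) ^ (e + 1) ∣ (p : ℤ) ^ e := by
      intro e h1
      rw [pow_succ] at h1
      have h2 : (p : ℤ) ^ e * p ∣ (p : ℤ) ^ e * 1 := by rwa [mul_one]
      have h3 := (mul_dvd_mul_iff_left (pow_ne_zero e hpz)).1 h2
      exact hpp.not_isUnit (isUnit_of_dvd_one h3)
    have conv : ∀ (s y e : ℕ), (p ^ e ∣ gl D s y ↔ (p : ℤ) ^ e ∣ (y : ℤ) + D * s) := by
      intro s y e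
      rw [dvd_gl]
      push_cast
      rfl
    by_cases hpa : p ∣ α
    · have hpb : ¬ p ∣ β := fun h3 => by
        have := Nat.dvd_gcd hpa h3
        rw [hco] at this
        exact hp.one_lt.ne' (Nat.dvd_one.1 this)
      have hb0 : β.factorization p = 0 := Nat.factorization_eq_zero_of_not_dvd hpb
      have ha1 : 1 ≤ α.factorization p := (hp.dvd_iff_one_le_factorization hα.ne').1 hpa
      have hnD := hD p hp (hpa.mul_right _)
      refine ⟨(p : ℤ) ^ (α.factorization p) - D, fun y hy => ?_⟩
      rw [hb0, add_zero] at hy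
      rw [conv, conv, conv, conv, hb0]
      simp only [pow_zero, zero_add, pow_one, one_dvd, true_and, Nat.cast_one, mul_one,
        Nat.cast_zero, mul_zero, add_zero]
      have h3 : (y : ℤ) + D = ((y : ℤ) - ((p : ℤ) ^ (α.factorization p) - D)) +
          (p : ℤ) ^ (α.factorization p) := by ring
      refine ⟨⟨?_, ?_⟩, ?_⟩
      · rw [h3]
        exact dvd_add ((pow_dvd_pow _ (Nat.le_succ _)).trans hy) (dvd_refl _)
      · rw [h3]
        intro h4
        have := dvd_sub h4 hy
        rw [add_sub_cancel_left] at this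
        exact hself _ this
      · intro h4
        apply hnD
        have h5 : (p : ℤ) ∣ (y : ℤ) - ((p : ℤ) ^ (α.factorization p) - D) :=
          (dvd_pow_self _ (by omega)).trans hy
        have h6 := dvd_sub h5 h4
        have h7 : (p : ℤ) ∣ (p : ℤ) ^ (α.factorization p) := dvd_pow_self _ (by omega)
        have e : D = ((y : ℤ) - ((p : ℤ) ^ (α.factorization p) - D) - y) +
          (p : ℤ) ^ (α.factorization p) := by ring
        rw [e]
        exact dvd_add h6 h7
    · have ha0 : α.factorization p = 0 := Nat.factorization_eq_zero_of_not_dvd hpa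
      by_cases hpb : p ∣ β
      · have hb1 : 1 ≤ β.factorization p := (hp.dvd_iff_one_le_factorization hβ.ne').1 hpb
        have hnD := hD p hp (hpb.mul_left _)
        refine ⟨(p : ℤ) ^ (β.factorization p), fun y hy => ?_⟩
        rw [ha0, zero_add] at hy
        rw [conv, conv, conv, conv, ha0]
        simp only [pow_zero, zero_add, pow_one, one_dvd, true_and, Nat.cast_one, mul_one,
          Nat.cast_zero, mul_zero, add_zero]
        have h3 : (y : ℤ) = ((y : ℤ) - ((p : ℤ) ^ (β.factorization p))) +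
            (p : ℤ) ^ (β.factorization p) := by ring
        refine ⟨?_, ?_, ?_⟩
        · intro h4
          apply hnD
          have h5 : (p : ℤ) ∣ (y : ℤ) - (p : ℤ) ^ (β.factorization p) :=
            (dvd_pow_self _ (by omega)).trans hy
          have h7 : (p : ℤ) ∣ (p : ℤ) ^ (β.factorization p) := dvd_pow_self _ (by omega)
          have h8 : (p : ℤ) ∣ (y : ℤ) := by
            rw [h3]
            exact dvd_add h5 h7
          have h9 := dvd_sub h4 h8
          rwa [add_sub_cancel_left] at h9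
        · rw [h3]
          exact dvd_add ((pow_dvd_pow _ (Nat.le_succ _)).trans hy) (dvd_refl _)
        · rw [h3]
          intro h4
          have := dvd_sub h4 hy
          rw [add_sub_cancel_left] at this
          exact hself _ this
      · have hb0 : β.factorization p = 0 := Nat.factorization_eq_zero_of_not_dvd hpb
        -- a residue different from `0` and `-D`
        have hex : ∃ l : ℤ, ¬ (p : ℤ) ∣ l ∧ ¬ (p : ℤ) ∣ l + D := by
          by_cases hp2 : p = 2
          · subst hp2
            refine ⟨1, by norm_num, fun h3 => ?_⟩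
            have h4 : (2 : ℤ) ∣ D := by
              rcases (Nat.prime_iff_prime_int.1 Nat.prime_two).dvd_or_dvd h2 with h5 | h5
              · exfalso
                have h6 : 2 ∣ α * β := by exact_mod_cast h5
                rcases (Nat.prime_two.dvd_mul).1 h6 with h7 | h7
                · exact hpa h7
                · exact hpb h7
              · exact h5
            have h5 := dvd_sub h3 h4
            push_cast at h5
            rw [add_sub_cancel_right] at h5
            norm_num at h5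
          · have hp3 : 3 ≤ p := by
              have := hp.two_le
              omega
            have h1n : ¬ (p : ℤ) ∣ 1 := fun h3 => hpp.not_isUnit (isUnit_of_dvd_one h3)
            have h2n : ¬ (p : ℤ) ∣ 2 := by
              intro h3
              have : p ∣ 2 := by exact_mod_cast h3
              have := Nat.le_of_dvd (by norm_num) this
              omega
            by_cases h3 : (p : ℤ) ∣ 1 + D
            · refine ⟨2, h2n, fun h4 => ?_⟩
              have h5 := dvd_sub h4 h3
              have e : (2 : ℤ) + D - (1 + D) = 1 := by ring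
              rw [e] at h5
              exact h1n h5
            · exact ⟨1, h1n, h3⟩
        obtain ⟨l, hl1, hl2⟩ := hex
        refine ⟨l, fun y hy => ?_⟩
        rw [ha0, hb0] at hy
        simp only [zero_add, pow_one] at hy
        rw [conv, conv, conv, conv, ha0, hb0]
        simp only [pow_zero, zero_add, pow_one, one_dvd, true_and, Nat.cast_one,
          mul_one, Nat.cast_zero, mul_zero, add_zero]
        constructor
        · intro h3
          apply hl2
          have h4 := dvd_sub h3 hy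
          have e : (y : ℤ) + D - (y - l) = l + D := by ring
          rwa [e] at h4
        · intro h3
          apply hl1
          have h4 := dvd_sub h3 hy
          have e : (y : ℤ) - (y - l) = l := by ring
          rwa [e] at h4
  have key' : ∀ p : M0.primeFactors, ∃ l : ℤ, ∀ y : ℕ,
      ((p : ℕ) : ℤ) ^ (α.factorization p + β.factorization p + 1) ∣ (y : ℤ) - l →
      ((p : ℕ) ^ (α.factorization p) ∣ gl D 1 y ∧ ¬ (p : ℕ) ^ (α.factorization p + 1) ∣ gl D 1 y) ∧
      ((p : ℕ) ^ (β.factorization p) ∣ gl D 0 y ∧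
        ¬ (p : ℕ) ^ (β.factorization p + 1) ∣ gl D 0 y) :=
    fun p => key p (Nat.prime_of_mem_primeFactors p.2)
  choose l hl using key'
  obtain ⟨y0, hy0⟩ := crtZ (fun p : M0.primeFactors =>
    (p : ℕ) ^ (α.factorization p + β.factorization p + 1)) l
    (fun p => pow_pos (Nat.prime_of_mem_primeFactors p.2).pos _) (by
      intro p q hne
      apply Nat.Coprime.pow
      rw [Nat.coprime_primes (Nat.prime_of_mem_primeFactors p.2) (Nat.prime_of_mem_primeFactors q.2)]
      exact fun h => hne (Subtype.ext h))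
  refine ⟨y0, fun p hp hd => ?_⟩
  have h3 := hy0 ⟨p, Nat.mem_primeFactors.2 ⟨hp, hd, hM0.ne'⟩⟩
  push_cast at h3
  exact hl ⟨p, Nat.mem_primeFactors.2 ⟨hp, hd, hM0.ne'⟩⟩ y0 h3

/-- the value on one side -/
theorem side {Γ : Type} [CommGroup Γ] (f : ℕ → Γ) (hf0 : f 0 = 1) (Lp Lm : List ℕ)
    (hrel : (Lp.map (kap f)).prod = f 1 * (Lm.map (kap f)).prod)
    {h c V Cm cnt : ℕ} (hh : Squarefree h) (hc : c ≠ 0) (hV : Squarefree V) (hcop : Nat.Coprime c V)
    (w : ℕ → ℕ) (hw : ∀ p, p.Prime → p ∣ h → c.factorization p = w p + 1) (hcnt : cnt ≤ Cm)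
    (hprod : ∏ p ∈ h.primeFactors, kap f (w p) = ((mix Lp Lm Cm cnt).map (kap f)).prod) :
    ∃ k, c = h * k ∧ Fm f (k * V) * f 1 ^ h.primeFactors.card =
      Fm f c * (f 1 ^ cnt * (Lm.map (kap f)).prod ^ Cm) * f 1 ^ V.primeFactors.card := by
  have hd : h ∣ c := by
    apply sqf_dvd hh hc
    intro p hp hd
    exact Nat.dvd_of_factorization_pos (by rw [hw p hp hd]; omega)
  obtain ⟨k, hk⟩ := hd
  have hk0 : k ≠ 0 := by
    rintro rfl
    exact hc (by rw [hk, mul_zero])
  refine ⟨k, hk, ?_⟩
  have hwk : ∀ p ∈ h.primeFactors, kap f (k.factorization p) = kap f (w p) := by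
    intro p hp
    have hpp := Nat.prime_of_mem_primeFactors hp
    have h1 := hw p hpp (Nat.dvd_of_mem_primeFactors hp)
    rw [hk, Nat.factorization_mul hh.ne_zero hk0, Finsupp.add_apply] at h1
    have h2 := hh.natFactorization_le_one p
    have h3 := (hpp.dvd_iff_one_le_factorization hh.ne_zero).1 (Nat.dvd_of_mem_primeFactors hp)
    have h4 : k.factorization p = w p := by omega
    rw [h4]
  have h1 := Fm_kap f hf0 hh hk0
  rw [prod_congr rfl hwk, hprod, mix_prod f Lp Lm hrel hcnt, ← hk, Fm_sqfree f hh] at h1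
  have hcopk : Nat.Coprime k V := Nat.Coprime.coprime_dvd_left (by rw [hk]; exact dvd_mul_left _ _) hcop
  rw [Fm_mul f hk0 hV.ne_zero hcopk, Fm_sqfree f hV, h1, mul_right_comm,
    mul_comm (Fm f k) (f 1 ^ h.primeFactors.card)]

end Pool.Agent.Y887.UT
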