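import Mathlib
import Pool.Agent.Y887.UT.Sm
import Pool.Agent.H410R2.EDFinal

/-!
The arithmetic data at one scale.
-/

set_option autoImplicit false

namespace Pool.Agent.Y887.UT

open Finset Filter Pool.Agent.Y887.DK
open Pool.Agent.Y887.DE (kap kap_zero mix mix_prod mix_mem mix_length fac_eq Fm_kap)
open Pool.Agent.Y887.QE (assign sqf_dvd cop_of)
open Pool.Agent.H410R2.ED (Ln Pt pt)

/-- the arithmetic data -/
structure Stg {Γ : Type} [CommGroup Γ] (f : ℕ → Γ) (b T : ℕ) (ρ : Ln 1 b → Fin (1 + 1) → ℕ) (Φ : Γ)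
    (α β M G : ℕ) (ex0 ex1 : List ℕ) (D : ℤ) (Y Q X H0 : ℕ) (s c : Pt 1 b → ℕ)
    (h : Ln 1 b → ℕ) : Prop where
  Qpos : 0 < Q
  Qle : Q ≤ Y
  H0pos : 0 < H0
  H0le : H0 ≤ Y
  small : ∀ p : ℕ, p.Prime → p ≤ 8 * b + M → p ∣ Q
  hpos : ∀ e, 0 < h e
  hs : ∀ e, s (pt 0 e) = s (pt 1 e) + h e
  lo : ∀ e, H0 ≤ s (pt 0 e)
  hi : ∀ e, G * (s (pt 0 e) - H0) ≤ H0
  rt : ∀ e, G * s (pt 1 e) ≤ H0
  sle : ∀ P, s P ≤ 2 * H0
  cpos : ∀ P, 0 < c P
  cQ : ∀ P : Pt 1 b, (if P.1 = 0 then α else β) * c P ∣ Q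
  dvd : ∀ y, y ≡ X [MOD Q] → ∀ P : Pt 1 b, (if P.1 = 0 then α else β) * c P ∣ gl D (s P) y ∧
    ∀ p : ℕ, p.Prime → p ∣ Q → ¬ p ∣ gl D (s P) y / ((if P.1 = 0 then α else β) * c P)
  cM : ∀ P, ∀ p : ℕ, p.Prime → p ∣ c P → M < p ∧ ¬ (p : ℤ) ∣ D
  val : ∀ e l V, Squarefree V → (∀ p : ℕ, p.Prime → p ∣ Q → ¬ p ∣ V) →
    ρ e l + V.primeFactors.card = T + 1 →
    ∃ k, c (pt l e) = h e * k ∧
      Fm f (k * V) = Φ * (((if l = 0 then ex0 else ex1) : List ℕ).map f).prod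

theorem cases2 {b : ℕ} (P : Pt 1 b) : (∃ j, P = ((0 : Fin 2), fun _ => j)) ∨
    (∃ i, P = ((1 : Fin 2), fun _ => i)) := by
  obtain ⟨l, c⟩ := P
  have hc : c = fun _ => c 0 := by
    funext i
    rw [Subsingleton.elim i 0]
  fin_cases l
  · exact Or.inl ⟨c 0, by rw [← hc]; rfl⟩
  · exact Or.inr ⟨c 0, by rw [← hc]; rfl⟩

theorem pt0 {b : ℕ} (e : Ln 1 b) : (pt 0 e : Pt 1 b) = ((0 : Fin 2), fun _ => e 1) := by
  unfold pt
  congr 1
  funext i
  rw [Subsingleton.elim i 0]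
  rfl

theorem pt1 {b : ℕ} (e : Ln 1 b) : (pt 1 e : Pt 1 b) = ((1 : Fin 2), fun _ => e 0) := by
  unfold pt
  congr 1
  funext i
  rw [Subsingleton.elim i 0]
  rfl

set_option maxHeartbeats 8000000 in
theorem stage {Γ : Type} [CommGroup Γ] (f : ℕ → Γ) (hf0 : f 0 = 1)
    (Lp Lm : List ℕ) (hrel : (Lp.map (kap f)).prod = f 1 * (Lm.map (kap f)).prod)
    (b T : ℕ) (hb : 2 ≤ b) (ρ : Ln 1 b → Fin (1 + 1) → ℕ) (hρ : ∀ e l, 1 ≤ ρ e l ∧ ρ e l ≤ T + 1) :
    ∃ Φ : Γ, ∀ α β M G : ℕ, 0 < α → 0 < β → Nat.Coprime α β → 0 < G →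
      ∀ ex0 ex1 : List ℕ, (∀ m ∈ ex0, 1 ≤ m) → (∀ m ∈ ex1, 1 ≤ m) →
      ∃ A q0 : ℕ, ∀ q : ℕ, q0 ≤ q → ∀ D : ℤ, D ≠ 0 → D.natAbs < 2 ^ q →
        (∀ p : ℕ, p.Prime → p ∣ α * β → ¬ (p : ℤ) ∣ D) → (2 : ℤ) ∣ ((α * β : ℕ) : ℤ) * D →
        ∃ (Q X H0 : ℕ) (s c : Pt 1 b → ℕ) (h : Ln 1 b → ℕ),
          Stg f b T ρ Φ α β M G ex0 ex1 D (q ^ A) Q X H0 s c h := by
  classical
  obtain ⟨C1, hC10, hdes⟩ := designL
  obtain ⟨Cc, hCc⟩ : ∃ Cc : ℕ, Cc = b * b * (C1 * (Nat.log 2 (b * b) + 1)) := ⟨_, rfl⟩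
  obtain ⟨Cm, hCm⟩ : ∃ Cm : ℕ, Cm = (T + 1) + Cc := ⟨_, rfl⟩
  obtain ⟨nL, hnL⟩ : ∃ nL : ℕ, nL = Cm * (Lp.length + Lm.length) := ⟨_, rfl⟩
  obtain ⟨Nn, hNn⟩ : ∃ Nn : ℕ, Nn = 2 * nL + 1 := ⟨_, rfl⟩
  obtain ⟨mm, hmm⟩ : ∃ mm : ℕ, mm = Lp.sum + Lm.sum := ⟨_, rfl⟩
  obtain ⟨Z, hZd⟩ : ∃ Z : ℕ, Z = b * b * (Nn + Cc) := ⟨_, rfl⟩
  obtain ⟨Φ0, hΦ0⟩ : ∃ Φ0 : Γ, Φ0 = ∏ j ∈ Icc 1 (mm + 1), f j ^ Z := ⟨_, rfl⟩
  obtain ⟨Km, hKm⟩ : ∃ Km : Γ, Km = (Lm.map (kap f)).prod := ⟨_, rfl⟩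
  refine ⟨Φ0 * Km ^ Cm * f 1 ^ (T + 1) / f 1 ^ Nn, ?_⟩
  intro α β M G hα hβ hαβ hG ex0 ex1 hex0 hex1
  -- the constants
  obtain ⟨B, hB⟩ : ∃ B : ℕ, B = 4 * (b * b) + 8 * b + M + α * β + 5 := ⟨_, rfl⟩
  obtain ⟨BF, hBF⟩ : ∃ BF : ℕ, BF = B.factorial := ⟨_, rfl⟩
  have hBFpos : 0 < BF := by rw [hBF]; exact Nat.factorial_pos _
  obtain ⟨M0, hM0d⟩ : ∃ M0 : ℕ, M0 = BF * (α * β) := ⟨_, rfl⟩
  have hαβ0 : 0 < α * β := Nat.mul_pos hα hβ
  have hM0 : 0 < M0 := by rw [hM0d]; positivity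
  have hM1 : ∀ p : ℕ, p.Prime → p ≤ B → p ∣ M0 := fun p hp hle => by
    rw [hM0d, hBF]
    exact ((hp.dvd_factorial).2 hle).mul_right _
  have hαM : α ∣ M0 := by rw [hM0d]; exact (dvd_mul_right _ _).mul_left _
  have hβM : β ∣ M0 := by rw [hM0d]; exact (dvd_mul_left _ _).mul_left _
  have hM0fac : ∀ p : ℕ, p.Prime → p ∣ M0 → α.factorization p < M0.factorization p ∧
      β.factorization p < M0.factorization p := by
    intro p hp hd
    have h1 : p ∣ BF := by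
      rw [hM0d, hp.dvd_mul] at hd
      rcases hd with h | h
      · exact h
      · have h2 := Nat.le_of_dvd hαβ0 h
        rw [hBF]
        exact (hp.dvd_factorial).2 (by omega)
    have h2 := (hp.dvd_iff_one_le_factorization hBFpos.ne').1 h1
    rw [hM0d, Nat.factorization_mul hBFpos.ne' hαβ0.ne',
      Nat.factorization_mul hα.ne' hβ.ne', Finsupp.add_apply, Finsupp.add_apply]
    omega
  obtain ⟨mx, hmx⟩ : ∃ mx : ℕ, mx = mm + 1 + ex0.sum + ex1.sum := ⟨_, rfl⟩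
  obtain ⟨n0, hn0⟩ : ∃ n0 : ℕ, n0 = Fintype.card (Pt 1 b) *
    ((mm + 1) * Z + ex0.length + ex1.length) := ⟨_, rfl⟩
  obtain ⟨A1, x1, hdes⟩ := hdes b (by omega) Nn (by omega) B M0 G hM0
    (fun p hp hle => hM1 p hp (by omega))
  rw [← hCc] at hdes
  obtain ⟨x2, havoid⟩ := avoid n0 B
  obtain ⟨cP, hcP⟩ : ∃ cP : ℕ, cP = Fintype.card (Pt 1 b) := ⟨_, rfl⟩
  -- the exponent of the bounds
  obtain ⟨ee, hee⟩ : ∃ ee : ℕ, ee = b * b + cP * cP := ⟨_, rfl⟩
  obtain ⟨x3, hx3⟩ := eventually_atTop.1 (poly_le' (M0 * (2 * 2 ^ A1) ^ ee) (A1 * ee))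
  refine ⟨1 + (1 + (2 * A1 + 1) * (b * b) * (mm + 3)) + (2 * 2) * ((mx + 1) * n0) + 2 * A1 + 1,
    x1 + x2 + x3 + M0 + 4, ?_⟩
  intro q hq D hD0 hDq hDαβ h2D
  have hq1 : x1 ≤ 2 * q := by omega
  have hq2 : x2 ≤ 2 * q := by omega
  have hq3 : x3 ≤ q := by omega
  have hqM : M0 ≤ q := by omega
  have hq4 : 4 ≤ q := by omega
  have hDn : D.natAbs ≠ 0 := Int.natAbs_ne_zero.2 hD0
  have hDlt2 : D.natAbs < 2 ^ (2 * q) :=
    hDq.trans_le (Nat.pow_le_pow_right (by norm_num) (by omega))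
  obtain ⟨hh, s0, s1, H0, H, hH0, hH0le, hs0w, hs1w⟩ := hdes (2 * q) hq1 D.natAbs hDn hDlt2
  have hhpos : ∀ j i, 0 < hh j i := fun j i => Nat.pos_of_ne_zero (H.sq j i).ne_zero
  have hH0q : H0 ≤ q ^ (2 * A1) := by
    refine hH0le.trans ?_
    rw [pow_mul]
    apply Nat.pow_le_pow_left
    rw [pow_two]
    exact Nat.mul_le_mul_right _ (by omega)
  have hs0le : ∀ j, s0 j ≤ 2 * H0 := by
    intro j
    obtain ⟨h1, h2⟩ := hs0w j
    have h3 : s0 j - H0 ≤ G * (s0 j - H0) := Nat.le_mul_of_pos_left _ hG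
    omega
  have hs1le : ∀ i, s1 i ≤ 2 * H0 := by
    intro i
    have h2 := hs1w i
    have h3 : s1 i ≤ G * s1 i := Nat.le_mul_of_pos_left _ hG
    omega
  have hhle : ∀ j i, hh j i ≤ 2 * H0 := by
    intro j i
    have h1 := H.eq j i
    have h2 := hs0le j
    omega
  have hhM0 : ∀ j i p, p.Prime → p ∣ hh j i → ¬ p ∣ M0 := by
    intro j i p hp hd hM
    have h1 : s0 j ≡ 1 [MOD p] := (H.s0one j).of_dvd hM
    have h2 : s1 i ≡ 0 [MOD p] := (H.s1zero i).of_dvd hM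
    have h3 : hh j i ≡ 0 [MOD p] := (Nat.modEq_zero_iff_dvd).2 hd
    have h4 := h2.add h3
    rw [← H.eq, add_zero] at h4
    have h5 := h1.symm.trans h4
    have h6 : p ∣ 1 := (Nat.modEq_zero_iff_dvd).1 h5
    exact hp.one_lt.ne' (Nat.dvd_one.1 h6)
  -- the lists of exponents
  obtain ⟨cnt, hcnt⟩ : ∃ cnt : Fin 2 → Fin b → Fin b → ℕ, ∀ l j i, cnt l j i =
      ρ ![i, j] l + ((hh j i).primeFactors.card - Nn) := ⟨_, fun _ _ _ => rfl⟩
  have hcntle : ∀ l j i, cnt l j i ≤ Cm := by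
    intro l j i
    rw [hcnt, hCm]
    have h1 := (hρ ![i, j] l).2
    have h3 := H.hi j i
    omega
  have hasg : ∀ j i, ∃ w0 w1 : ℕ → ℕ, (∀ p, w0 p = 0 ∨ w0 p ∈ mix Lp Lm Cm (cnt 0 j i)) ∧
      (∀ p, w1 p = 0 ∨ w1 p ∈ mix Lp Lm Cm (cnt 1 j i)) ∧ (∀ p, w0 p = 0 ∨ w1 p = 0) ∧
      (∀ {Δ : Type} [CommMonoid Δ] (g : ℕ → Δ), g 0 = 1 →
        ∏ p ∈ (hh j i).primeFactors, g (w0 p) = ((mix Lp Lm Cm (cnt 0 j i)).map g).prod) ∧
      (∀ {Δ : Type} [CommMonoid Δ] (g : ℕ → Δ), g 0 = 1 →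
        ∏ p ∈ (hh j i).primeFactors, g (w1 p) = ((mix Lp Lm Cm (cnt 1 j i)).map g).prod) := by
    intro j i
    apply two_assign
    have h1 := mix_length Lp Lm (hcntle 0 j i)
    have h2 := mix_length Lp Lm (hcntle 1 j i)
    have h3 := H.lo j i
    omega
  choose w0 w1 hw0 hw1 hw01 hw0p hw1p using hasg
  have hwle : ∀ l j i p, (p = 0 ∨ p ∈ mix Lp Lm Cm (cnt l j i)) → p ≤ mm := by
    intro l j i p h0
    rcases h0 with h1 | h1
    · omega
    · rw [hmm]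
      rcases mix_mem h1 with h2 | h2
      · have := List.le_sum_of_mem h2
        omega
      · have := List.le_sum_of_mem h2
        omega
  have hw0le : ∀ j i p, w0 j i p ≤ mm := fun j i p => hwle 0 j i _ (hw0 j i p)
  have hw1le : ∀ j i p, w1 j i p ≤ mm := fun j i p => hwle 1 j i _ (hw1 j i p)
  -- the class
  obtain ⟨y0, hy0⟩ := seed hα hβ hαβ hDαβ h2D M0 hM0
  obtain ⟨Q, X, hQpos, hMQ, hXM, hQle, hQp, hhQ, hQfac, hres⟩ := residuesL H (by omega) hM0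
    (D := D) (fun p hp => Int.natCast_dvd.1 hp) y0 mm w0 w1 hw0le hw1le hw01
  -- the vertices
  obtain ⟨s, hs⟩ : ∃ s : Pt 1 b → ℕ, ∀ P, s P = if P.1 = 0 then s0 (P.2 0) else s1 (P.2 0) :=
    ⟨_, fun _ => rfl⟩
  have hsL : ∀ (c : Fin 1 → Fin b), s ((0 : Fin 2), c) = s0 (c 0) := fun c => by rw [hs]; simp
  have hsR : ∀ (c : Fin 1 → Fin b), s ((1 : Fin 2), c) = s1 (c 0) := fun c => by rw [hs]; simp
  obtain ⟨A, hA⟩ : ∃ A : Pt 1 b → ℕ, ∀ P, A P = if P.1 = 0 then α else β := ⟨_, fun _ => rfl⟩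
  have hbpos : 0 < b := by omega
  have hsle : ∀ P, s P ≤ 2 * H0 := by
    intro P
    rw [hs]
    split_ifs
    · exact hs0le _
    · exact hs1le _
  have hexp1 : ∀ j i, ∃ p, p.Prime ∧ p ∣ hh j i := by
    intro j i
    have h1 := H.lo j i
    have h2 : 0 < (hh j i).primeFactors.card := by omega
    obtain ⟨p, hp⟩ := card_pos.1 h2
    exact ⟨p, Nat.prime_of_mem_primeFactors hp, Nat.dvd_of_mem_primeFactors hp⟩
  have hs0inj : ∀ j j', s0 j = s0 j' → j = j' := by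
    intro j j' heq
    by_contra hne
    obtain ⟨p, hp, hd⟩ := hexp1 j ⟨0, hbpos⟩
    obtain ⟨h1, h2, h3, h4⟩ := hres j ⟨0, hbpos⟩ p hp hd
    have h5 := h3 j' (Ne.symm hne)
    rw [← heq] at h5
    apply h5
    exact Nat.dvd_of_factorization_pos (by rw [h1]; omega)
  have hs1inj : ∀ i i', s1 i = s1 i' → i = i' := by
    intro i i' heq
    by_contra hne
    obtain ⟨p, hp, hd⟩ := hexp1 ⟨0, hbpos⟩ i
    obtain ⟨h1, h2, h3, h4⟩ := hres ⟨0, hbpos⟩ i p hp hd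
    have h5 := h4 i' (Ne.symm hne)
    rw [← heq] at h5
    apply h5
    exact Nat.dvd_of_factorization_pos (by rw [h2]; omega)
  have hs01 : ∀ j i, s0 j ≠ s1 i := by
    intro j i
    have h1 := H.eq j i
    have h2 := hhpos j i
    omega
  have hsinj : Function.Injective s := by
    intro P P' hPP
    rcases cases2 P with ⟨j, rfl⟩ | ⟨i, rfl⟩
    · rcases cases2 P' with ⟨j', rfl⟩ | ⟨i', rfl⟩
      · rw [hsL, hsL] at hPP
        rw [hs0inj _ _ hPP]
      · rw [hsL, hsR] at hPP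
        exact absurd hPP (hs01 _ _)
    · rcases cases2 P' with ⟨j', rfl⟩ | ⟨i', rfl⟩
      · rw [hsL, hsR] at hPP
        exact absurd hPP.symm (hs01 _ _)
      · rw [hsR, hsR] at hPP
        rw [hs1inj _ _ hPP]
  -- valuations at the vertices
  have hvM : ∀ P, ∀ p : ℕ, p.Prime → p ∣ M0 →
      p ^ ((A P).factorization p) ∣ gl D (s P) X ∧
      ¬ p ^ ((A P).factorization p + 1) ∣ gl D (s P) X := by
    intro P p hp hd
    have hlt := hM0fac p hp hd
    obtain ⟨⟨h1, h2⟩, h3, h4⟩ := hy0 p hp hd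
    rcases cases2 P with ⟨j, rfl⟩ | ⟨i, rfl⟩
    · rw [hsL, hA, if_pos rfl]
      have h5 : p ^ (α.factorization p + 1) ∣ M0 :=
        (hp.pow_dvd_iff_le_factorization hM0.ne').2 hlt.1
      constructor
      · rwa [gl_congr2 ((hXM.of_dvd h5).of_dvd (pow_dvd_pow _ (Nat.le_succ _)))
          (((H.s0one j).of_dvd h5).of_dvd (pow_dvd_pow _ (Nat.le_succ _)))]
      · rwa [gl_congr2 (hXM.of_dvd h5) ((H.s0one j).of_dvd h5)]
    · rw [hsR, hA, if_neg (by norm_num)]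
      have h5 : p ^ (β.factorization p + 1) ∣ M0 :=
        (hp.pow_dvd_iff_le_factorization hM0.ne').2 hlt.2
      constructor
      · rwa [gl_congr2 ((hXM.of_dvd h5).of_dvd (pow_dvd_pow _ (Nat.le_succ _)))
          (((H.s1zero i).of_dvd h5).of_dvd (pow_dvd_pow _ (Nat.le_succ _)))]
      · rwa [gl_congr2 (hXM.of_dvd h5) ((H.s1zero i).of_dvd h5)]
  have hne0 : ∀ P, gl D (s P) X ≠ 0 := by
    intro P h0
    have h2M : 2 ∣ M0 := hM1 2 Nat.prime_two (by omega)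
    exact (hvM P 2 Nat.prime_two h2M).2 (by rw [h0]; exact dvd_zero _)
  have hvMf : ∀ P, ∀ p : ℕ, p.Prime → p ∣ M0 →
      (gl D (s P) X).factorization p = (A P).factorization p :=
    fun P p hp hd => fac_eq hp (hvM P p hp hd).1 (hvM P p hp hd).2
  have hvle : ∀ P, ∀ p : ℕ, p.Prime → (∃ j i, p ∣ hh j i) →
      (gl D (s P) X).factorization p ≤ mm + 1 := by
    rintro P p hp ⟨j, i, hd⟩
    obtain ⟨h1, h2, h3, h4⟩ := hres j i p hp hd
    have h5 := hw0le j i p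
    have h5' := hw1le j i p
    rcases cases2 P with ⟨j', rfl⟩ | ⟨i', rfl⟩
    · rw [hsL]
      by_cases hj : j' = j
      · rw [hj, h1]; omega
      · rw [Nat.factorization_eq_zero_of_not_dvd (h3 j' hj)]; omega
    · rw [hsR]
      by_cases hi : i' = i
      · rw [hi, h2]; omega
      · rw [Nat.factorization_eq_zero_of_not_dvd (h4 i' hi)]; omega
  have hlow : ∀ P, ∀ p : ℕ, p.Prime → p ∣ Q →
      ¬ p ^ Q.factorization p ∣ gl D (s P) X := by
    intro P p hp hd hdd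
    have h0 := (hp.pow_dvd_iff_le_factorization (hne0 P)).1 hdd
    rcases hQp p hp hd with h1 | ⟨j, i, h1⟩
    · rw [hvMf P p hp h1] at h0
      have h2 : M0.factorization p ≤ Q.factorization p :=
        (Nat.factorization_le_iff_dvd hM0.ne' hQpos.ne').2 hMQ p
      have h3 := hM0fac p hp h1
      rw [hA] at h0
      split_ifs at h0 <;> omega
    · have h2 := hvle P p hp ⟨j, i, h1⟩
      have h3 := (hQfac j i p hp h1).2
      omega
  -- complementary exponents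
  obtain ⟨Sd, hSd⟩ : ∃ Sd : Finset ℕ, Sd = (univ : Finset (Fin b × Fin b)).biUnion
    (fun e => (hh e.1 e.2).primeFactors) := ⟨_, rfl⟩
  have hSdm : ∀ p, p ∈ Sd ↔ p.Prime ∧ ∃ j i, p ∣ hh j i := by
    intro p
    rw [hSd, mem_biUnion]
    constructor
    · rintro ⟨e, -, he⟩
      exact ⟨Nat.prime_of_mem_primeFactors he, e.1, e.2, Nat.dvd_of_mem_primeFactors he⟩
    · rintro ⟨hp, j, i, hd⟩
      exact ⟨(j, i), mem_univ _, Nat.mem_primeFactors.2 ⟨hp, hd, (hhpos j i).ne'⟩⟩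
  have hSdc : Sd.card ≤ Z := by
    rw [hSd]
    refine card_biUnion_le.trans ?_
    refine (Finset.sum_le_card_nsmul _ _ _ fun e _ => H.hi e.1 e.2).trans ?_
    rw [card_univ, Fintype.card_prod, Fintype.card_fin, smul_eq_mul, hZd]
  have hfl : ∀ P : Pt 1 b, ∃ L : List ℕ, (∀ m ∈ L, 1 ≤ m ∧ m ≤ mm + 1) ∧
      L.length ≤ (mm + 1) * Z ∧
      ∀ {Δ : Type} [CommMonoid Δ] (g : ℕ → Δ), g 0 = 1 →
        (∏ p ∈ Sd, g ((gl D (s P) X).factorization p)) * (L.map g).prod =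
          ∏ j ∈ Icc 1 (mm + 1), g j ^ Z := by
    intro P
    apply filler_bd Sd (fun p => (gl D (s P) X).factorization p) (mm + 1) Z hSdc
    intro p hp
    obtain ⟨hpp, hpd⟩ := (hSdm p).1 hp
    exact hvle P p hpp hpd
  choose fl hfl1 hfl3 hfl2 using hfl
  obtain ⟨exL, hexL⟩ : ∃ exL : Pt 1 b → List ℕ, ∀ P, exL P = fl P ++
    (if P.1 = 0 then ex0 else ex1) := ⟨_, fun _ => rfl⟩
  have hexLb : ∀ P, ∀ m ∈ exL P, 1 ≤ m ∧ m ≤ mx := by
    intro P m hm
    rw [hexL] at hm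
    rcases List.mem_append.1 hm with h1 | h1
    · have := hfl1 P m h1
      omega
    · split_ifs at h1 with h2
      · have := List.le_sum_of_mem h1
        exact ⟨hex0 m h1, by omega⟩
      · have := List.le_sum_of_mem h1
        exact ⟨hex1 m h1, by omega⟩
  have hexLn : ∑ P, (exL P).length ≤ n0 := by
    have h1 : ∀ P ∈ (univ : Finset (Pt 1 b)), (exL P).length ≤
        (mm + 1) * Z + ex0.length + ex1.length := by
      intro P _
      rw [hexL, List.length_append]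
      have := hfl3 P
      split_ifs <;> omega
    refine (Finset.sum_le_card_nsmul _ _ _ h1).trans ?_
    rw [card_univ, smul_eq_mul, hn0]
  -- the private primes
  obtain ⟨W2, hW2⟩ : ∃ W2 : ℕ, W2 = D.natAbs * (M0 * ((∏ j, ∏ i, hh j i) *
    ∏ P, ∏ P', (if P = P' then 1 else ((s P : ℤ) - s P').natAbs))) := ⟨_, rfl⟩
  have hdiff0 : ∀ P P', (if P = P' then 1 else ((s P : ℤ) - s P').natAbs) ≠ 0 := by
    intro P P'
    split_ifs with h1
    · norm_num
    · rw [Int.natAbs_ne_zero, sub_ne_zero]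
      intro h2
      exact h1 (hsinj (by exact_mod_cast h2))
  have hprodh0 : (∏ j, ∏ i, hh j i) ≠ 0 :=
    Finset.prod_ne_zero_iff.2 fun j _ => Finset.prod_ne_zero_iff.2 fun i _ => (hhpos j i).ne'
  have hprods0 : (∏ P, ∏ P', (if P = P' then 1 else ((s P : ℤ) - s P').natAbs)) ≠ 0 :=
    Finset.prod_ne_zero_iff.2 fun P _ => Finset.prod_ne_zero_iff.2 fun P' _ => hdiff0 P P'
  have hW20 : W2 ≠ 0 := by
    rw [hW2]
    exact mul_ne_zero hDn (mul_ne_zero hM0.ne' (mul_ne_zero hprodh0 hprods0))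
  have hprodh : (∏ j, ∏ i, hh j i) ≤ (2 * H0) ^ (b * b) := by
    calc (∏ j, ∏ i, hh j i) ≤ ∏ _j : Fin b, ∏ _i : Fin b, (2 * H0) :=
          Finset.prod_le_prod' fun j _ => Finset.prod_le_prod' fun i _ => hhle j i
      _ = (2 * H0) ^ (b * b) := by
          rw [prod_const, prod_const, card_univ, Fintype.card_fin, ← pow_mul]
  have hprods : (∏ P, ∏ P', (if P = P' then 1 else ((s P : ℤ) - s P').natAbs)) ≤
      (2 * H0) ^ (cP * cP) := by
    calc (∏ P, ∏ P', (if P = P' then 1 else ((s P : ℤ) - s P').natAbs)) ≤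
          ∏ _P : Pt 1 b, ∏ _P' : Pt 1 b, (2 * H0) := by
          apply Finset.prod_le_prod'
          intro P _
          apply Finset.prod_le_prod'
          intro P' _
          split_ifs with h1
          · omega
          · have h2 := hsle P
            have h3 := hsle P'
            omega
      _ = (2 * H0) ^ (cP * cP) := by
          rw [prod_const, prod_const, card_univ, ← hcP, ← pow_mul]
  have hW2lt : W2 < 2 ^ (2 * q) := by
    have h1 : M0 * ((∏ j, ∏ i, hh j i) *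
        ∏ P, ∏ P', (if P = P' then 1 else ((s P : ℤ) - s P').natAbs)) ≤ 2 ^ q := by
      calc M0 * ((∏ j, ∏ i, hh j i) *
            ∏ P, ∏ P', (if P = P' then 1 else ((s P : ℤ) - s P').natAbs)) ≤
            M0 * ((2 * H0) ^ (b * b) * (2 * H0) ^ (cP * cP)) :=
            Nat.mul_le_mul_left _ (Nat.mul_le_mul hprodh hprods)
        _ = M0 * (2 * H0) ^ ee := by rw [hee, pow_add]
        _ ≤ M0 * (2 * (2 * q) ^ A1) ^ ee :=
            Nat.mul_le_mul_left _ (Nat.pow_le_pow_left (Nat.mul_le_mul_left _ hH0le) _)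
        _ = M0 * (2 * 2 ^ A1) ^ ee * q ^ (A1 * ee) := by
            rw [mul_pow 2 q A1, ← mul_assoc, mul_pow (2 * 2 ^ A1) (q ^ A1) ee, ← pow_mul q, mul_assoc]
        _ ≤ 2 ^ q := hx3 q hq3
    rw [hW2, two_mul, pow_add]
    exact Nat.mul_lt_mul_of_lt_of_le hDq h1 (by positivity)
  obtain ⟨r', hr'inj, hr'⟩ := havoid (2 * q) hq2 W2 hW20 hW2lt
  have hcardS : Fintype.card (Σ P : Pt 1 b, Fin (exL P).length) ≤ n0 := by
    rw [Fintype.card_sigma]
    simpa using hexLn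
  obtain ⟨r, hrd⟩ : ∃ r : (Σ P : Pt 1 b, Fin (exL P).length) → ℕ,
      ∀ y, r y = r' (Fin.castLE hcardS (Fintype.equivFin _ y)) := ⟨_, fun _ => rfl⟩
  have hrinj : Function.Injective r := by
    intro y y' hyy
    rw [hrd, hrd] at hyy
    have h1 := hr'inj hyy
    exact (Fintype.equivFin _).injective (Fin.castLE_injective hcardS h1)
  have hrW : ∀ y, (r y).Prime ∧ B < r y ∧ r y ≤ (2 * q) ^ 2 ∧ ¬ r y ∣ W2 := fun y => by
    rw [hrd]; exact hr' _
  have hrD' : ∀ y, ¬ r y ∣ D.natAbs := fun y hd => (hrW y).2.2.2 (by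
    rw [hW2]; exact hd.mul_right _)
  have hrM : ∀ y, ¬ r y ∣ M0 := fun y hd => (hrW y).2.2.2 (by
    rw [hW2]; exact (hd.mul_right _).mul_left _)
  have hrh : ∀ y j i, ¬ r y ∣ hh j i := fun y j i hd => (hrW y).2.2.2 (by
    rw [hW2]
    have h1 : hh j i ∣ ∏ j, ∏ i, hh j i :=
      (dvd_prod_of_mem (fun i => hh j i) (mem_univ i)).trans
        (dvd_prod_of_mem (fun j => ∏ i, hh j i) (mem_univ j))
    exact (((hd.trans h1).mul_right _).mul_left _).mul_left _)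
  have hrs : ∀ y P, P ≠ y.1 → ¬ (r y : ℤ) ∣ (s P : ℤ) - s y.1 := fun y P hne hd =>
    (hrW y).2.2.2 (by
      rw [hW2]
      have h0 : r y ∣ (if P = y.1 then 1 else ((s P : ℤ) - s y.1).natAbs) := by
        rw [if_neg hne]
        exact Int.natCast_dvd.1 hd
      have h1 : (if P = y.1 then 1 else ((s P : ℤ) - s y.1).natAbs) ∣
          ∏ P, ∏ P', (if P = P' then 1 else ((s P : ℤ) - s P').natAbs) :=
        (dvd_prod_of_mem (fun P' => (if P = P' then 1 else ((s P : ℤ) - s P').natAbs))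
          (mem_univ y.1)).trans
          (dvd_prod_of_mem (fun P => ∏ P', (if P = P' then 1 else ((s P : ℤ) - s P').natAbs))
            (mem_univ P))
      exact (((h0.trans h1).mul_left _).mul_left _).mul_left _)
  have hrQ : ∀ y, ¬ r y ∣ Q := by
    intro y hd
    rcases hQp (r y) (hrW y).1 hd with h1 | ⟨j, i, h1⟩
    · exact hrM y h1
    · exact hrh y j i h1
  obtain ⟨Q', X', c, hQ'pos, hQQ', hX'X, hQ'le, hQ'p, hc⟩ := eqzL s Q X exL hQpos
    ((hM1 2 Nat.prime_two (by omega)).trans hMQ) hlow mx n0 ((2 * q) ^ 2) hexLb hexLn r hrinj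
    (fun y => (hrW y).1) hrQ (fun y hd => hrD' y (Int.natCast_dvd.1 hd)) hrs
    (fun y => (hrW y).2.2.1) (Nat.one_le_pow 2 (2 * q) (by omega))
  have hMQ' : M0 ∣ Q' := hMQ.trans hQQ'
  -- the constants of the vertices
  have hcpos : ∀ P, 0 < c P := fun P => (hc P).1
  have hcQ' : ∀ P, c P ∣ Q' := fun P => (hc P).2.1
  have hcX := fun P => (hc P).2.2.1 X' rfl
  have hcfac' : ∀ P p, p.Prime → p ∣ Q → (c P).factorization p = (gl D (s P) X).factorization p := by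
    intro P p hp hd
    obtain ⟨h1, h2, h3, h4, h5⟩ := hcX P
    rw [← h4 p hp (hd.trans hQQ'), h5 p hp hd]
  have hcfac : ∀ P p, p.Prime → p ∣ M0 → (c P).factorization p = (A P).factorization p := by
    intro P p hp hd
    rw [hcfac' P p hp (hd.trans hMQ), hvMf P p hp hd]
  have hApos : ∀ P, 0 < A P := by
    intro P
    rw [hA]
    split_ifs
    · exact hα
    · exact hβ
  have hAM : ∀ P, A P ∣ M0 := by
    intro P
    rw [hA]
    split_ifs
    · exact hαM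
    · exact hβM
  have hAc : ∀ P, A P ∣ c P := by
    intro P
    rw [← Nat.factorization_le_iff_dvd (hApos P).ne' (hcpos P).ne']
    intro p
    by_cases hp : p.Prime ∧ p ∣ M0
    · rw [hcfac P p hp.1 hp.2]
    · have : (A P).factorization p = 0 := by
        rcases not_and_or.1 hp with h1 | h1
        · exact Nat.factorization_eq_zero_of_not_prime _ h1
        · exact Nat.factorization_eq_zero_of_not_dvd (fun h2 => h1 (h2.trans (hAM P)))
      rw [this]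
      exact Nat.zero_le _
  obtain ⟨c', hc'⟩ : ∃ c' : Pt 1 b → ℕ, ∀ P, c P = A P * c' P := by
    choose c' hc' using hAc
    exact ⟨c', hc'⟩
  have hc'pos : ∀ P, 0 < c' P := by
    intro P
    have h1 := hcpos P
    rw [hc'] at h1
    exact Nat.pos_of_mul_pos_left h1
  have hc'M : ∀ P p, p.Prime → p ∣ c' P → ¬ p ∣ M0 := by
    intro P p hp hd hM
    have h1 := hcfac P p hp hM
    rw [hc', Nat.factorization_mul (hApos P).ne' (hc'pos P).ne', Finsupp.add_apply] at h1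
    have h2 := (hp.dvd_iff_one_le_factorization (hc'pos P).ne').1 hd
    omega
  have hc'Q : ∀ P, c' P ∣ Q' := fun P => by
    refine dvd_trans ?_ (hcQ' P)
    rw [hc']
    exact dvd_mul_left _ _
  have hcop : ∀ P, Nat.Coprime (A P) (c' P) := by
    intro P
    apply cop_of
    intro p hp h3 h4
    exact hc'M P p hp h4 (h3.trans (hAM P))
  have hc'F : ∀ P, Fm f (c' P) = Φ0 * (((if P.1 = 0 then ex0 else ex1) : List ℕ).map f).prod := by
    intro P
    have h1 := (hc P).2.2.2 f hf0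
    have hQS : Q.primeFactors = M0.primeFactors ∪ Sd := by
      ext p
      rw [mem_union, Nat.mem_primeFactors, Nat.mem_primeFactors, hSdm]
      constructor
      · rintro ⟨hp, hd, -⟩
        rcases hQp p hp hd with h2 | h2
        · exact Or.inl ⟨hp, h2, hM0.ne'⟩
        · exact Or.inr ⟨hp, h2⟩
      · rintro (⟨hp, hd, -⟩ | ⟨hp, j, i, hd⟩)
        · exact ⟨hp, hd.trans hMQ, hQpos.ne'⟩
        · exact ⟨hp, hd.trans (hhQ j i), hQpos.ne'⟩
    have hdisj : Disjoint M0.primeFactors Sd := by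
      rw [disjoint_left]
      intro p hp1 hp2
      obtain ⟨hp, j, i, hd⟩ := (hSdm p).1 hp2
      exact hhM0 j i p hp hd (Nat.dvd_of_mem_primeFactors hp1)
    have h2 : ∏ p ∈ M0.primeFactors, f ((gl D (s P) X).factorization p) = Fm f (A P) := by
      rw [Fm_prod hf0 (S := M0.primeFactors) (Nat.primeFactors_mono (hAM P) hM0.ne')]
      apply prod_congr rfl
      intro p hp
      rw [hvMf P p (Nat.prime_of_mem_primeFactors hp) (Nat.dvd_of_mem_primeFactors hp)]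
    rw [hQS, prod_union hdisj, h2, hc', Fm_mul f (hApos P).ne' (hc'pos P).ne' (hcop P), hexL,
      List.map_append, List.prod_append] at h1
    have h3 : Fm f (A P) * Fm f (c' P) = Fm f (A P) * (Φ0 *
        (((if P.1 = 0 then ex0 else ex1) : List ℕ).map f).prod) := by
      rw [h1, hΦ0, ← hfl2 P f hf0]
      ac_rfl
    exact mul_left_cancel h3
  have hs_pt0 : ∀ e : Ln 1 b, s (pt 0 e) = s0 (e 1) := fun e => by rw [pt0, hsL]
  have hs_pt1 : ∀ e : Ln 1 b, s (pt 1 e) = s1 (e 0) := fun e => by rw [pt1, hsR]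
  have hc'facp : ∀ P p, p.Prime → p ∣ Q → ¬ p ∣ M0 →
      (c' P).factorization p = (gl D (s P) X).factorization p := by
    intro P p hp hd hM
    rw [← hcfac' P p hp hd, hc', Nat.factorization_mul (hApos P).ne' (hc'pos P).ne',
      Finsupp.add_apply,
      Nat.factorization_eq_zero_of_not_dvd (fun h2 => hM (h2.trans (hAM P))), zero_add]
  refine ⟨Q', X', H0, s, c', fun e => hh (e 1) (e 0), ?_⟩
  refine ⟨hQ'pos, ?_, hH0, ?_, ?_, fun e => hhpos _ _, ?_, ?_, ?_, ?_, hsle, hc'pos, ?_, ?_, ?_, ?_⟩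
  · -- the size of `Q'`
    have h1 : 2 * H0 ≤ q ^ (2 * A1 + 1) := by
      rw [pow_succ, mul_comm]
      exact Nat.mul_le_mul hH0q (by omega)
    have h2 : Q ≤ q ^ (1 + (2 * A1 + 1) * (b * b) * (mm + 3)) := by
      refine hQle.trans ?_
      have h4 : (∏ j, ∏ i, hh j i) ≤ q ^ ((2 * A1 + 1) * (b * b)) := by
        refine hprodh.trans ?_
        rw [pow_mul q (2 * A1 + 1)]
        exact Nat.pow_le_pow_left h1 _
      calc M0 * (∏ j, ∏ i, hh j i) ^ (mm + 3) ≤ q * (q ^ ((2 * A1 + 1) * (b * b))) ^ (mm + 3) :=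
            Nat.mul_le_mul hqM (Nat.pow_le_pow_left h4 _)
        _ = q ^ (1 + (2 * A1 + 1) * (b * b) * (mm + 3)) := by rw [← pow_mul, pow_add q 1, pow_one]
    have h3 : ((2 * q) ^ 2) ^ ((mx + 1) * n0) ≤ q ^ ((2 * 2) * ((mx + 1) * n0)) := by
      rw [pow_mul q (2 * 2)]
      apply Nat.pow_le_pow_left
      rw [pow_mul]
      apply Nat.pow_le_pow_left
      rw [pow_two]
      exact Nat.mul_le_mul_right _ (by omega)
    refine hQ'le.trans ((Nat.mul_le_mul h2 h3).trans ?_)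
    rw [← pow_add]
    exact Nat.pow_le_pow_right (by omega) (by omega)
  · exact hH0q.trans (Nat.pow_le_pow_right (by omega) (by omega))
  · intro p hp hle
    exact (hM1 p hp (by omega)).trans hMQ'
  · intro e
    rw [hs_pt0, hs_pt1]
    exact H.eq _ _
  · intro e
    rw [hs_pt0]
    exact (hs0w _).1
  · intro e
    rw [hs_pt0]
    exact (hs0w _).2
  · intro e
    rw [hs_pt1]
    exact hs1w _
  · intro P
    have := hcQ' P
    rwa [hc', hA] at this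
  · intro y hy P
    obtain ⟨h1, h2, h3, h4, h5⟩ := (hc P).2.2.1 y hy
    rw [hc', hA] at h2 h3
    exact ⟨h2, h3⟩
  · intro P p hp hd
    have h1 := hc'M P p hp hd
    constructor
    · by_contra hle
      exact h1 (hM1 p hp (by omega))
    · intro h2
      have h2' : p ∣ D.natAbs := Int.natCast_dvd.1 h2
      rcases hQ'p p hp (hd.trans (hc'Q P)) with h3 | ⟨y, rfl⟩
      · rcases hQp p hp h3 with h4 | ⟨j, i, h4⟩
        · exact h1 h4
        · exact (H.big j i p hp h4).2 h2'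
      · exact hrD' y h2'
  · -- the value
    intro e l V hV hVQ hcard
    obtain ⟨j, hj⟩ : ∃ j, j = e 1 := ⟨_, rfl⟩
    obtain ⟨i, hi⟩ : ∃ i, i = e 0 := ⟨_, rfl⟩
    have hρe : e = ![i, j] := by
      funext l
      fin_cases l
      · exact hi.symm
      · exact hj.symm
    have hcnt' := hcnt l j i
    rw [← hρe] at hcnt'
    have hlo := H.lo j i
    have hcopV : Nat.Coprime (c' (pt l e)) V := by
      apply cop_of
      intro p hp h3 h4
      exact hVQ p hp (h3.trans (hc'Q _)) h4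
    have key : ∃ w : ℕ → ℕ, (∀ p, p.Prime → p ∣ hh j i →
        (c' (pt l e)).factorization p = w p + 1) ∧
        ∏ p ∈ (hh j i).primeFactors, kap f (w p) =
          ((mix Lp Lm Cm (cnt l j i)).map (kap f)).prod := by
      have h0 : ∀ l' : Fin 2, l' = 0 ∨ l' = 1 := by
        intro l'
        fin_cases l'
        · exact Or.inl rfl
        · exact Or.inr rfl
      rcases h0 l with rfl | rfl
      · refine ⟨w0 j i, fun p hp hd => ?_, hw0p j i (kap f) (kap_zero f hf0)⟩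
        rw [hc'facp _ p hp (hd.trans (hhQ j i)) (hhM0 j i p hp hd), hs_pt0, ← hj]
        exact (hres j i p hp hd).1
      · refine ⟨w1 j i, fun p hp hd => ?_, hw1p j i (kap f) (kap_zero f hf0)⟩
        rw [hc'facp _ p hp (hd.trans (hhQ j i)) (hhM0 j i p hp hd), hs_pt1, ← hi]
        exact (hres j i p hp hd).2.1
    obtain ⟨w, hwf, hwp⟩ := key
    obtain ⟨k, hk, hFk⟩ := side f hf0 Lp Lm hrel (H.sq j i) (hc'pos (pt l e)).ne' hV hcopV w hwf
      (hcntle l j i) hwp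
    have hexl : (((if (pt l e : Pt 1 b).1 = 0 then ex0 else ex1) : List ℕ).map f).prod =
        (((if l = 0 then ex0 else ex1) : List ℕ).map f).prod := rfl
    refine ⟨k, by beta_reduce; rw [← hj, ← hi]; exact hk, ?_⟩
    rw [hc'F, hexl, ← hKm] at hFk
    obtain ⟨EX, hEX⟩ : ∃ EX : Γ, EX = (((if l = 0 then ex0 else ex1) : List ℕ).map f).prod :=
      ⟨_, rfl⟩
    rw [← hEX] at hFk ⊢
    obtain ⟨U, hU⟩ : ∃ U : ℕ, U = V.primeFactors.card := ⟨_, rfl⟩
    rw [← hU] at hFk hcard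
    have hcount : cnt l j i + U + Nn = (T + 1) + (hh j i).primeFactors.card := by omega
    have hpw : f 1 ^ (cnt l j i) * f 1 ^ U * f 1 ^ Nn =
        f 1 ^ (T + 1) * f 1 ^ (hh j i).primeFactors.card := by
      rw [← pow_add, ← pow_add, hcount, pow_add]
    rw [div_mul_eq_mul_div, eq_div_iff_mul_eq']
    apply mul_right_cancel (b := f 1 ^ (hh j i).primeFactors.card)
    calc Fm f (k * V) * f 1 ^ Nn * f 1 ^ (hh j i).primeFactors.card
        = (Fm f (k * V) * f 1 ^ (hh j i).primeFactors.card) * f 1 ^ Nn := by ac_rfl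
      _ = (Φ0 * EX * (f 1 ^ cnt l j i * Km ^ Cm) * f 1 ^ U) * f 1 ^ Nn := by rw [hFk]
      _ = (f 1 ^ (cnt l j i) * f 1 ^ U * f 1 ^ Nn) * (Φ0 * Km ^ Cm * EX) := by ac_rfl
      _ = _ := by
          rw [hpw]
          ac_rfl

end Pool.Agent.Y887.UT
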