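import Mathlib
import Pool.Agent.Y887.UT.Stg
import Pool.Agent.Y887.UT.SvB

/-!
The two numbers given by one argument and one line.
-/

set_option autoImplicit false

namespace Pool.Agent.Y887.UT

open Finset Filter Pool.Agent.Y887.DK
open Pool.Agent.H410R2.ED (Ln Pt pt)

/-- numbers of the required shape -/
def Gd (K M X N m : ℕ) : Prop :=
  ∃ c s : ℕ, m = c * s ∧ (c : ℝ) ≤ Real.log X ^ K ∧ Squarefree s ∧
    (∀ p : ℕ, p.Prime → p ∣ s → X < p ^ K) ∧ ∀ p : ℕ, p.Prime → p ∣ m → M < p ∧ ¬ p ∣ N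

theorem win_lo {g X N E1 H0 s1 h d0 y B D G : ℤ} (hg : 0 < g) (hX : 0 < X)
    (hNX : N ≤ X) (hE1 : 0 ≤ E1) (hE : E1 ≤ g * X) (hH0 : 0 < H0) (hs1 : 0 ≤ s1) (hh : 0 < h)
    (hd0 : h ≤ H0 + d0) (hd0' : G * d0 ≤ H0) (hh1 : H0 - s1 ≤ h)
    (hs1' : G * s1 ≤ H0) (hy : H0 * E1 ≤ y) (hD : -N ≤ D)
    (hB : h * B = y + D * s1) (hG : g * g + g + 1 ≤ G) : g * E1 ≤ g * B + X := by
  by_contra hcon
  push Not at hcon
  have hGpos : 0 < G := by nlinarith
  -- multiply by `h`
  have h1 : h * (g * B + X) < h * (g * E1) := by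
    exact mul_lt_mul_of_pos_left hcon hh
  have h2 : h * (g * B + X) = g * (y + D * s1) + X * h := by rw [← hB]; ring
  have h3 : -(N * s1) ≤ D * s1 := by
    have := mul_le_mul_of_nonneg_right hD hs1
    linarith
  have h4 : N * s1 ≤ X * s1 := mul_le_mul_of_nonneg_right hNX hs1
  have h5 : g * (H0 * E1 - X * s1) ≤ g * (y + D * s1) :=
    mul_le_mul_of_nonneg_left (by linarith) hg.le
  have h6 : X * (H0 - s1) ≤ X * h := mul_le_mul_of_nonneg_left hh1 hX.le
  have h7 : h * (g * E1) ≤ (H0 + d0) * (g * E1) :=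
    mul_le_mul_of_nonneg_right hd0 (mul_nonneg hg.le hE1)
  -- the conclusion without `h`
  have h8 : X * H0 < d0 * (g * E1) + (1 + g) * (X * s1) := by nlinarith
  have h9 : G * (X * H0) < G * (d0 * (g * E1) + (1 + g) * (X * s1)) :=
    mul_lt_mul_of_pos_left h8 hGpos
  have h10 : G * d0 * (g * E1) ≤ H0 * (g * E1) :=
    mul_le_mul_of_nonneg_right hd0' (mul_nonneg hg.le hE1)
  have h11 : H0 * (g * E1) ≤ H0 * (g * (g * X)) :=
    mul_le_mul_of_nonneg_left (mul_le_mul_of_nonneg_left hE hg.le) hH0.le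
  have h12 : (1 + g) * X * (G * s1) ≤ (1 + g) * X * H0 :=
    mul_le_mul_of_nonneg_left hs1' (by positivity)
  have h13 : (g * g + g + 1) * (X * H0) ≤ G * (X * H0) :=
    mul_le_mul_of_nonneg_right hG (by positivity)
  nlinarith

theorem win_hi {g X N E2 H0 s1 h y B D G : ℤ} (hg : 0 < g) (hX : 0 < X)
    (hNX : N ≤ X) (hE2 : 0 ≤ E2) (hE : E2 ≤ g * X) (hH0 : 0 < H0) (hs1 : 0 ≤ s1) (hh : 0 < h)
    (hh1 : H0 - s1 ≤ h)
    (hs1' : G * s1 ≤ H0) (hy : y ≤ H0 * E2) (hD : D ≤ N)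
    (hB : h * B = y + D * s1) (hG : g * g + g + 1 ≤ G) : g * B ≤ g * E2 + X := by
  by_contra hcon
  push Not at hcon
  have hGpos : 0 < G := by nlinarith
  have h1 : h * (g * E2 + X) < h * (g * B) := mul_lt_mul_of_pos_left hcon hh
  have h2 : h * (g * B) = g * (y + D * s1) := by rw [← hB]; ring
  have h3 : D * s1 ≤ N * s1 := mul_le_mul_of_nonneg_right hD hs1
  have h4 : N * s1 ≤ X * s1 := mul_le_mul_of_nonneg_right hNX hs1
  have h5 : g * (y + D * s1) ≤ g * (H0 * E2 + X * s1) :=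
    mul_le_mul_of_nonneg_left (by linarith) hg.le
  have h6 : (H0 - s1) * (g * E2 + X) ≤ h * (g * E2 + X) :=
    mul_le_mul_of_nonneg_right hh1 (by positivity)
  have h8 : X * H0 < s1 * (g * X + g * E2 + X) := by nlinarith
  have h9 : G * (X * H0) < G * (s1 * (g * X + g * E2 + X)) :=
    mul_lt_mul_of_pos_left h8 hGpos
  have h10 : G * s1 * (g * X + g * E2 + X) ≤ H0 * (g * X + g * E2 + X) :=
    mul_le_mul_of_nonneg_right hs1' (by positivity)
  have h11 : H0 * (g * X + g * E2 + X) ≤ H0 * (g * X + g * (g * X) + X) := by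
    apply mul_le_mul_of_nonneg_left _ hH0.le
    have := mul_le_mul_of_nonneg_left hE hg.le
    linarith
  have h13 : (g * g + g + 1) * (X * H0) ≤ G * (X * H0) :=
    mul_le_mul_of_nonneg_right hG (by positivity)
  nlinarith

set_option maxHeartbeats 1000000 in
theorem point {Γ : Type} [CommGroup Γ] {f : ℕ → Γ} {b T : ℕ} {ρ : Ln 1 b → Fin (1 + 1) → ℕ} {Φ : Γ}
    {α β M g : ℕ} {ex0 ex1 : List ℕ} {D : ℤ} {Y Q X' H0 : ℕ} {s c : Pt 1 b → ℕ}
    {h : Ln 1 b → ℕ} (S : Stg f b T ρ Φ α β M (g * g + g + 2) ex0 ex1 D Y Q X' H0 s c h)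
    (hg : 0 < g) {N X : ℕ} {σ : ℤ} (hσ : σ = 1 ∨ σ = -1) (hD : D = σ * N)
    (hX : 0 < X) (hNX : N ≤ X) {E1 E2 : ℕ} (hE12 : E1 ≤ E2) (hE2 : E2 ≤ g * X)
    (hneg : σ = -1 → X ≤ g * E1 ∧ X ≤ g * (N - E2))
    {y : ℕ} (hy : y ≡ X' [MOD Q]) (hy1 : H0 * E1 ≤ y) (hy2 : y ≤ H0 * E2)
    {V : Pt 1 b → ℕ} (hV : ∀ P, V P = gl D (s P) y / ((if P.1 = 0 then α else β) * c P))
    (hVs : ∀ P, Squarefree (V P)) {e : Ln 1 b}
    (he : ∀ l, ρ e l + (V (pt l e)).primeFactors.card = T + 1)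
    {K : ℕ} (hY : (Y : ℝ) ≤ Real.log X ^ K)
    (hrough : ∀ P, ∀ p : ℕ, p.Prime → p ∣ V P → X < p ^ K ∧ ¬ p ∣ N) :
    ∃ m n : ℕ, (α : ℤ) * (h e * m) = σ * (y + D * s (pt 0 e)) ∧
      (α : ℤ) * m = N + σ * (β * n) ∧
      Fm f m = Φ * (ex0.map f).prod ∧ Fm f n = Φ * (ex1.map f).prod ∧
      g * E1 ≤ g * (β * n) + X ∧ g * (β * n) ≤ g * E2 + X ∧ Gd K M X N m ∧ Gd K M X N n := by
  have hVQ : ∀ P, ∀ p : ℕ, p.Prime → p ∣ Q → ¬ p ∣ V P := fun P p hp hd => by
    rw [hV]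
    exact (S.dvd y hy P).2 p hp hd
  have hgl : ∀ P, gl D (s P) y = (if P.1 = 0 then α else β) * c P * V P := fun P => by
    rw [hV, Nat.mul_div_cancel' (S.dvd y hy P).1]
  obtain ⟨k0, hk0, hF0⟩ := S.val e 0 (V (pt 0 e)) (hVs _) (hVQ _) (he 0)
  obtain ⟨k1, hk1, hF1⟩ := S.val e 1 (V (pt 1 e)) (hVs _) (hVQ _) (he 1)
  rw [if_pos rfl] at hF0
  rw [if_neg (by norm_num)] at hF1
  have hcle : ∀ P, c P ≤ Y := fun P => by
    have h1 := Nat.le_of_dvd S.Qpos (S.cQ P)
    have h2 : c P ≤ (if P.1 = 0 then α else β) * c P := by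
      apply Nat.le_mul_of_pos_left
      rcases Nat.eq_zero_or_pos (if P.1 = 0 then α else β) with h3 | h3
      · exfalso
        have h4 := S.cQ P
        rw [h3, zero_mul] at h4
        have := S.Qpos
        rw [Nat.zero_dvd.1 h4] at this
        omega
      · exact h3
    exact h2.trans (h1.trans S.Qle)
  -- the shape
  have hGd : ∀ (l : Fin 2) (k : ℕ), c (pt l e) = h e * k → Gd K M X N (k * V (pt l e)) := by
    intro l k hk
    have hkd : k ∣ c (pt l e) := by rw [hk]; exact dvd_mul_left _ _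
    refine ⟨k, V (pt l e), rfl, ?_, hVs _, fun p hp hd => (hrough _ p hp hd).1, ?_⟩
    · refine le_trans ?_ hY
      exact_mod_cast (Nat.le_of_dvd (S.cpos _) hkd).trans (hcle _)
    · intro p hp hd
      rcases (hp.dvd_mul).1 hd with h1 | h1
      · obtain ⟨h2, h3⟩ := S.cM _ p hp (h1.trans hkd)
        refine ⟨h2, fun h4 => h3 ?_⟩
        rw [hD]
        exact (show (p : ℤ) ∣ (N : ℤ) by exact_mod_cast h4).mul_left _
      · refine ⟨?_, (hrough _ p hp h1).2⟩
        by_contra hle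
        exact hVQ _ p hp (S.small p hp (by omega)) h1
  -- signs
  have hs := S.hs e
  have hlo := S.lo e
  have hhi := S.hi e
  have hrt := S.rt e
  have hhpos := S.hpos e
  have hH0 := S.H0pos
  obtain ⟨s0, hs0⟩ : ∃ s0, s0 = s (pt 0 e) := ⟨_, rfl⟩
  obtain ⟨s1, hs1⟩ : ∃ s1, s1 = s (pt 1 e) := ⟨_, rfl⟩
  obtain ⟨he', hhe⟩ : ∃ x, x = h e := ⟨_, rfl⟩
  rw [← hs0] at hs hlo hhi
  rw [← hs1] at hs hrt
  rw [← hhe] at hs hhpos
  have hL : ((gl D s0 y : ℕ) : ℤ) = σ * (y + D * s0) := by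
    unfold gl
    rcases hσ with rfl | rfl
    · rw [Int.natCast_natAbs, one_mul, hD, one_mul, abs_of_nonneg (by positivity)]
    · obtain ⟨h1, h2⟩ := hneg rfl
      have h3 : y ≤ N * s0 := by
        have h4 : E2 ≤ N := by
          by_contra h5
          have h6 : N - E2 = 0 := by omega
          rw [h6] at h2
          omega
        calc y ≤ H0 * E2 := hy2
          _ ≤ s0 * N := Nat.mul_le_mul hlo h4
          _ = N * s0 := mul_comm _ _
      have h4 : (y : ℤ) ≤ N * s0 := by exact_mod_cast h3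
      rw [Int.natCast_natAbs, hD, abs_of_nonpos (by linarith)]
      ring
  have hR : ((gl D s1 y : ℕ) : ℤ) = y + D * s1 := by
    unfold gl
    rw [Int.natCast_natAbs]
    apply abs_of_nonneg
    rcases hσ with rfl | rfl
    · rw [hD, one_mul]
      positivity
    · obtain ⟨h1, h2⟩ := hneg rfl
      have h3 : N * s1 ≤ y := by
        have h4 : g * (N * s1) ≤ g * y := by
          calc g * (N * s1) ≤ g * (X * s1) := Nat.mul_le_mul_left _ (Nat.mul_le_mul_right _ hNX)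
            _ ≤ g * (g * E1 * s1) := Nat.mul_le_mul_left _ (Nat.mul_le_mul_right _ h1)
            _ = g * g * s1 * E1 := by ring
            _ ≤ H0 * E1 := by
                apply Nat.mul_le_mul_right
                refine le_trans ?_ hrt
                apply Nat.mul_le_mul_right
                omega
            _ ≤ y := hy1
            _ ≤ g * y := Nat.le_mul_of_pos_left _ hg
        exact Nat.le_of_mul_le_mul_left h4 hg
      have h4 : (N : ℤ) * s1 ≤ y := by exact_mod_cast h3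
      rw [hD]
      linarith
  have hL' : ((gl D s0 y : ℕ) : ℤ) = α * (he' * (k0 * V (pt 0 e) : ℕ)) := by
    have h1 := hgl (pt 0 e)
    rw [← hs0, if_pos (show (pt 0 e : Pt 1 b).1 = 0 from rfl), hk0, ← hhe] at h1
    rw [h1]
    push_cast
    ring
  have hR' : ((gl D s1 y : ℕ) : ℤ) = he' * (β * (k1 * V (pt 1 e) : ℕ)) := by
    have h1 := hgl (pt 1 e)
    rw [← hs1, if_neg (show ¬ (pt 1 e : Pt 1 b).1 = 0 from (by show ¬ (1 : Fin 2) = 0; norm_num)),
      hk1, ← hhe] at h1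
    rw [h1]
    push_cast
    ring
  obtain ⟨m, hm⟩ : ∃ m, m = k0 * V (pt 0 e) := ⟨_, rfl⟩
  obtain ⟨n, hn⟩ : ∃ n, n = k1 * V (pt 1 e) := ⟨_, rfl⟩
  rw [← hm] at hL' hF0
  rw [← hn] at hR' hF1
  have hσ2 : σ * σ = 1 := by rcases hσ with rfl | rfl <;> norm_num
  have hhz : (0 : ℤ) < he' := by exact_mod_cast hhpos
  have hsz : (s0 : ℤ) = s1 + he' := by exact_mod_cast hs
  have hBn : (he' : ℤ) * ((β * n : ℕ) : ℤ) = y + D * s1 := by
    rw [← hR, hR']
    push_cast
    ring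
  refine ⟨m, n, ?_, ?_, hF0, hF1, ?_, ?_, by rw [hm]; exact hGd 0 k0 hk0,
    by rw [hn]; exact hGd 1 k1 hk1⟩
  · rw [← hs0, ← hhe, ← hL, hL']
  · have h1 : (he' : ℤ) * ((α : ℤ) * m) = he' * (N + σ * (β * n)) := by
      have h2 : (he' : ℤ) * ((α : ℤ) * m) = σ * (y + D * s0) := by
        rw [← hL, hL']
        ring
      rw [h2, hsz]
      push_cast at hBn
      calc σ * ((y : ℤ) + D * (s1 + he')) = σ * (y + D * s1) + σ * D * he' := by ring
        _ = σ * (he' * (β * n)) + σ * (σ * N) * he' := by rw [← hBn, hD]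
        _ = σ * (he' * (β * n)) + (σ * σ) * N * he' := by ring
        _ = _ := by rw [hσ2]; ring
    exact mul_left_cancel₀ hhz.ne' h1
  · have h1 := win_lo (g := g) (X := X) (N := N) (E1 := E1) (H0 := H0) (s1 := s1) (h := he')
      (d0 := (s0 - H0 : ℕ)) (y := y) (B := ((β * n : ℕ) : ℤ)) (D := D)
      (G := ((g * g + g + 2 : ℕ) : ℤ)) (by exact_mod_cast hg) (by exact_mod_cast hX)
      (by exact_mod_cast hNX) (by positivity) (by exact_mod_cast hE12.trans hE2)
      (by exact_mod_cast hH0) (by positivity) hhz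
      (by
        have : he' ≤ H0 + (s0 - H0) := by omega
        exact_mod_cast this)
      (by exact_mod_cast hhi)
      (by
        have : (H0 : ℤ) ≤ s0 := by exact_mod_cast hlo
        rw [hsz] at this
        linarith)
      (by exact_mod_cast hrt) (by exact_mod_cast hy1)
      (by
        rw [hD]
        rcases hσ with rfl | rfl
        · have : (0 : ℤ) ≤ N := by positivity
          linarith
        · linarith)
      hBn (by push_cast; linarith)
    exact_mod_cast h1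
  · have h1 := win_hi (g := g) (X := X) (N := N) (E2 := E2) (H0 := H0) (s1 := s1) (h := he')
      (y := y) (B := ((β * n : ℕ) : ℤ)) (D := D)
      (G := ((g * g + g + 2 : ℕ) : ℤ)) (by exact_mod_cast hg) (by exact_mod_cast hX)
      (by exact_mod_cast hNX) (by positivity) (by exact_mod_cast hE2)
      (by exact_mod_cast hH0) (by positivity) hhz
      (by
        have : (H0 : ℤ) ≤ s0 := by exact_mod_cast hlo
        rw [hsz] at this
        linarith)
      (by exact_mod_cast hrt) (by exact_mod_cast hy2)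
      (by
        rw [hD]
        rcases hσ with rfl | rfl
        · linarith
        · have : (0 : ℤ) ≤ N := by positivity
          linarith)
      hBn (by push_cast; linarith)
    exact_mod_cast h1

end Pool.Agent.Y887.UT
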