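import Mathlib
import Pool.Agent.Y887.UT.Point
import Pool.Agent.H446R2.ED_T1
import Pool.Agent.Y887.QE.Mn

/-!
Two linear forms with prescribed values of a prime independent multiplicative function, uniformly in the
constant term.
-/

set_option autoImplicit false

namespace Pool.Agent.Y887.UT

open Finset Filter Pool.Agent.Y887.DK
open Pool.Agent.Y887.DE (kap)
open Pool.Agent.H410R2.ED (Ln Pt pt Comb params)
open Pool.Agent.Y887.QE (poly_le natlog_le2)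

/-- the solutions -/
def Sol {Γ : Type} [CommGroup Γ] (f : ℕ → Γ) (α β M g : ℕ) (v0 v1 : Γ) (K X N : ℕ) (σ : ℤ)
    (E1 E2 m : ℕ) : Prop :=
  ∃ n : ℕ, (α : ℤ) * m = N + σ * (β * n) ∧ Fm f m = v0 ∧ Fm f n = v1 ∧
    g * E1 ≤ g * (β * n) + X ∧ g * (β * n) ≤ g * E2 + X ∧ Gd K M X N m ∧ Gd K M X N n

theorem evlog (c k : ℕ) : ∀ᶠ X : ℕ in atTop, c * (Nat.log 2 X + 1) ^ k ≤ X := by
  obtain ⟨q1, h1⟩ := eventually_atTop.1 (poly_le c k)
  filter_upwards [eventually_ge_atTop (2 ^ q1)] with X hX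
  have hX0 : X ≠ 0 := by
    have : 0 < 2 ^ q1 := by positivity
    omega
  have h2 : q1 ≤ Nat.log 2 X := (Nat.le_log_iff_pow_le (by norm_num) hX0).2 hX
  exact (h1 _ h2).trans (Nat.pow_log_le_self 2 hX0)

set_option maxHeartbeats 4000000 in
theorem core {Γ : Type} [CommGroup Γ] (f : ℕ → Γ) (hf0 : f 0 = 1)
    (Lp Lm : List ℕ) (hrel : (Lp.map (kap f)).prod = f 1 * (Lm.map (kap f)).prod) :
    ∃ Φ : Γ, ∀ α β M g : ℕ, 0 < α → 0 < β → Nat.Coprime α β → 0 < g →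
      ∀ ex0 ex1 : List ℕ, (∀ m ∈ ex0, 1 ≤ m) → (∀ m ∈ ex1, 1 ≤ m) →
      ∃ K : ℕ, ∀ᶠ X : ℕ in atTop, ∀ N : ℕ, 0 < N → N ≤ X → Nat.Coprime N (α * β) →
        2 ∣ α * β * N → ∀ σ : ℤ, (σ = 1 ∨ σ = -1) → ∀ E1 E2 : ℕ, X ≤ g * (E2 - E1) →
        E2 ≤ g * X → (σ = -1 → X ≤ g * E1 ∧ X ≤ g * (N - E2)) →
        (X : ℝ) / Real.log X ^ K ≤ ({m : ℕ | Sol f α β M g (Φ * (ex0.map f).prod)
          (Φ * (ex1.map f).prod) K X N σ E1 E2 m}.ncard : ℝ) := by
  classical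
  obtain ⟨C2, hC20, hS2⟩ := sieveL
  have hC2r : (0 : ℝ) < 3 * C2 := by
    have : (1 : ℝ) ≤ C2 := by exact_mod_cast hC20
    linarith
  obtain ⟨b, T, hb2, hbT, hCT⟩ := params (3 * C2) hC2r 1
  obtain ⟨ρ, hρ, hcomb⟩ := Pool.Agent.H446R2.comb 1 b T hbT
  have hκ2 : 2 ≤ (1 + 1) * b ^ 1 := by rw [pow_one]; omega
  have hcardP : Fintype.card (Pt 1 b) = (1 + 1) * b ^ 1 := by simp [Pt]
  have hsumbd : 2 * ((1 + 1) * b ^ 1 * (C2 * (Nat.log 2 ((1 + 1) * b ^ 1) + 1))) ≤ T * b ^ 1 := by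
    have h1 := natlog_le2 hκ2
    have h2 : (2 : ℝ) * ((((1 + 1) * b ^ 1 : ℕ) : ℝ) * (C2 *
        ((Nat.log 2 ((1 + 1) * b ^ 1) + 1 : ℕ) : ℝ))) ≤
        2 * (3 * C2 * (((1 + 1) * b ^ 1 : ℕ) : ℝ) * Real.log (((1 + 1) * b ^ 1 : ℕ) : ℝ)) := by
      have h3 : (0 : ℝ) ≤ (((1 + 1) * b ^ 1 : ℕ) : ℝ) * C2 := by positivity
      have h4 := mul_le_mul_of_nonneg_left h1 h3
      calc (2 : ℝ) * ((((1 + 1) * b ^ 1 : ℕ) : ℝ) * (C2 *
            ((Nat.log 2 ((1 + 1) * b ^ 1) + 1 : ℕ) : ℝ)))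
          = 2 * ((((1 + 1) * b ^ 1 : ℕ) : ℝ) * C2 *
            ((Nat.log 2 ((1 + 1) * b ^ 1) + 1 : ℕ) : ℝ)) := by ring
        _ ≤ 2 * ((((1 + 1) * b ^ 1 : ℕ) : ℝ) * C2 *
            (3 * Real.log (((1 + 1) * b ^ 1 : ℕ) : ℝ))) := by linarith
        _ = _ := by ring
    have h4 := h2.trans hCT
    exact_mod_cast h4
  obtain ⟨Φ, hΦ⟩ := stage f hf0 Lp Lm hrel b T hb2 ρ hρ
  obtain ⟨K0, X0, hK02, hS2⟩ := hS2 ((1 + 1) * b ^ 1) (by omega)
  refine ⟨Φ, fun α β M g hα hβ hαβ hg ex0 ex1 hex0 hex1 => ?_⟩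
  obtain ⟨A, q0, hst⟩ := hΦ α β M (g * g + g + 2) hα hβ hαβ (by omega) ex0 ex1 hex0 hex1
  obtain ⟨K, hK⟩ : ∃ K : ℕ, K = 2 * A + 2 * K0 + 3 := ⟨_, rfl⟩
  refine ⟨K, ?_⟩
  have hlogX : Tendsto (fun X : ℕ => Real.log (X : ℝ)) atTop atTop :=
    Real.tendsto_log_atTop.comp tendsto_natCast_atTop_atTop
  filter_upwards [evlog (((g + 2) * (4 * g)) ^ 2 * (4 * g)) (5 * A), evlog (4 * g) (2 * K0 + A),
    evlog (4 * g * (4 * g)) (2 * A), evlog (X0 * (4 * g)) A, eventually_ge_atTop (2 ^ q0 + 2),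
    hlogX.eventually_ge_atTop (3 + 4 * g * (Fintype.card (Ln 1 b)))] with X hX1 hX2 hX3 hX4 hX5 hX6
  intro N hN0 hNX hNco h2N σ hσ E1 E2 hE12 hE2 hneg
  have hX0 : 0 < X := by omega
  obtain ⟨q, hq⟩ : ∃ q : ℕ, q = Nat.log 2 X + 1 := ⟨_, rfl⟩
  rw [← hq] at hX1 hX2 hX3 hX4
  have hXq : X < 2 ^ q := by rw [hq]; exact Nat.lt_pow_succ_log_self (by norm_num) X
  have hq0 : q0 ≤ q := by
    have : q0 ≤ Nat.log 2 X := (Nat.le_log_iff_pow_le (by norm_num) hX0.ne').2 (by omega)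
    omega
  have hq1 : 1 ≤ q := by omega
  obtain ⟨D, hD⟩ : ∃ D : ℤ, D = σ * N := ⟨_, rfl⟩
  have hDabs : D.natAbs = N := by
    rw [hD, Int.natAbs_mul]
    rcases hσ with rfl | rfl <;> simp
  have hD0 : D ≠ 0 := by
    rw [← Int.natAbs_ne_zero, hDabs]
    omega
  obtain ⟨Q, X', H0, s, c, h, S⟩ := hst q hq0 D hD0 (by rw [hDabs]; omega) (by
    intro p hp hd hpD
    have h1 : p ∣ N := by
      rw [← hDabs]
      exact Int.natCast_dvd.1 hpD
    have h3 := Nat.dvd_gcd h1 hd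
    rw [hNco] at h3
    exact hp.one_lt.ne' (Nat.dvd_one.1 h3)) (by
    have h1 : ((2 : ℕ) : ℤ) ∣ ((α * β * N : ℕ) : ℤ) := by exact_mod_cast h2N
    rw [hD]
    have e1 : ((α * β : ℕ) : ℤ) * (σ * N) = σ * ((α * β * N : ℕ) : ℤ) := by
      push_cast
      ring
    rw [e1]
    exact h1.mul_left σ)
  obtain ⟨Y, hY⟩ : ∃ Y : ℕ, Y = q ^ A := ⟨_, rfl⟩
  rw [← hY] at S
  have hYpos : 0 < Y := by rw [hY]; positivity
  have hQpos := S.Qpos
  have hQY := S.Qle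
  have hH0 := S.H0pos
  have hH0Y := S.H0le
  -- the number of arguments
  obtain ⟨Pc, hPc⟩ : ∃ Pc : ℕ, Pc = 4 * g * Y := ⟨_, rfl⟩
  have hPcpos : 0 < Pc := by rw [hPc]; positivity
  obtain ⟨Xn, hXn⟩ : ∃ Xn : ℕ, Xn = X / (2 * g * Y) := ⟨_, rfl⟩
  have h2gY : 0 < 2 * g * Y := by positivity
  have hPP : Pc * Pc ≤ X := by
    refine le_trans (le_of_eq ?_) hX3
    rw [hPc, hY]
    ring
  have hgYX : 2 * g * Y ≤ X := by
    have h1 : Pc ≤ Pc * Pc := Nat.le_mul_of_pos_left _ hPcpos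
    have h2 : 2 * g * Y ≤ Pc := by
      rw [hPc]
      exact Nat.mul_le_mul_right _ (by omega)
    omega
  have hXnle : Xn * (2 * g * Y) ≤ X := by rw [hXn]; exact Nat.div_mul_le_self _ _
  have hXn1 : 1 ≤ Xn := by
    rw [hXn]
    exact (Nat.one_le_div_iff h2gY).2 hgYX
  have hXP : X ≤ Pc * Xn := by
    have h1 : X < 2 * g * Y * (Xn + 1) := by
      rw [hXn]
      exact Nat.lt_mul_div_succ X h2gY
    have h2 : 2 * g * Y * (Xn + 1) ≤ 2 * g * Y * (2 * Xn) := Nat.mul_le_mul_left _ (by omega)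
    have h3 : 2 * g * Y * (2 * Xn) = Pc * Xn := by rw [hPc]; ring
    omega
  have hcancel : ∀ u : ℕ, u * Pc ≤ X → u ≤ Xn := by
    intro u hu
    have h1 : u * Pc ≤ Xn * Pc := by
      rw [mul_comm Xn]
      exact hu.trans hXP
    exact Nat.le_of_mul_le_mul_right h1 hPcpos
  have hXnX : Xn ≤ X := by
    have : Xn ≤ Xn * (2 * g * Y) := Nat.le_mul_of_pos_right _ h2gY
    omega
  have hPXn : Pc ≤ Xn := hcancel Pc hPP
  have hXX : X ≤ Xn ^ 2 := by
    rw [pow_two]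
    exact hXP.trans (Nat.mul_le_mul_right _ hPXn)
  have hX0n : X0 ≤ Xn := by
    apply hcancel
    refine le_trans (le_of_eq ?_) hX4
    rw [hPc, hY]
    ring
  have hqK : q ^ (2 * K0) ≤ Xn := by
    apply hcancel
    refine le_trans (le_of_eq ?_) hX2
    rw [hPc, hY]
    ring
  have hsz : ((g + 2) * Y * Pc) ^ 2 ≤ Xn := by
    apply hcancel
    refine le_trans (le_of_eq ?_) hX1
    rw [hPc, hY]
    ring
  -- the range
  have hrange : Q * (Xn + 1) + H0 * E1 ≤ H0 * E2 := by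
    have h1 : g * (Y * (Xn + 1)) ≤ X := by
      have h2 : 2 * (g * (Y * (Xn + 1))) = Xn * (2 * g * Y) + 2 * g * Y := by ring
      omega
    have h3 : Y * (Xn + 1) ≤ E2 - E1 := Nat.le_of_mul_le_mul_left (h1.trans hE12) hg
    have h4 : Q * (Xn + 1) ≤ H0 * (E2 - E1) := by
      calc Q * (Xn + 1) ≤ Y * (Xn + 1) := Nat.mul_le_mul_right _ hQY
        _ ≤ E2 - E1 := h3
        _ ≤ H0 * (E2 - E1) := Nat.le_mul_of_pos_left _ hH0
    have h5 : E1 ≤ E2 := by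
      by_contra h6
      have h7 : E2 - E1 = 0 := by omega
      rw [h7] at hE12
      omega
    have h6 : H0 * (E2 - E1) + H0 * E1 = H0 * E2 := by
      rw [← Nat.mul_add, Nat.sub_add_cancel h5]
    omega
  have hE1E2 : E1 ≤ E2 := by
    by_contra h6
    have h7 : E2 - E1 = 0 := by omega
    rw [h7] at hE12
    omega
  obtain ⟨a0, ha0, ha1, ha2⟩ : ∃ a0 : ℕ, a0 ≡ X' [MOD Q] ∧ a0 ≤ H0 * E1 + Q ∧
      H0 * E1 ≤ a0 + Q := by
    refine ⟨X' % Q + Q * (H0 * E1 / Q), ?_, ?_, ?_⟩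
    · have h1 : X' % Q + Q * (H0 * E1 / Q) ≡ X' % Q + 0 [MOD Q] :=
        Nat.ModEq.add_left _ ((Nat.modEq_zero_iff_dvd).2 (dvd_mul_right _ _))
      exact h1.trans (Nat.mod_modEq X' Q)
    · have h1 := Nat.mod_lt X' hQpos
      have h2 := Nat.mul_div_le (H0 * E1) Q
      omega
    · have h2 := Nat.lt_mul_div_succ (H0 * E1) hQpos
      have h3 : Q * (H0 * E1 / Q + 1) = Q * (H0 * E1 / Q) + Q := by ring
      omega
  have hmod : ∀ t, Q * t + a0 ≡ X' [MOD Q] := by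
    intro t
    have h1 : Q * t ≡ 0 [MOD Q] := (Nat.modEq_zero_iff_dvd).2 (dvd_mul_right _ _)
    have h2 := h1.add ha0
    rwa [zero_add] at h2
  have hlv : ∀ (P : Pt 1 b) t, lv Q ((a0 : ℤ) + D * s P) t = gl D (s P) (Q * t + a0) := by
    intro P t
    unfold lv gl
    congr 1
    push_cast
    ring
  have hsys : Sys Q (fun P : Pt 1 b => (a0 : ℤ) + D * s P)
      (fun P : Pt 1 b => (if P.1 = 0 then α else β) * c P) := by
    refine ⟨hQpos, ?_, ?_, ?_⟩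
    · intro P t
      rw [hlv]
      exact (S.dvd _ (hmod t) P).1
    · intro P p hp hd
      exact hd.trans (S.cQ P)
    · intro P t p hp hd
      rw [hlv]
      exact (S.dvd _ (hmod t) P).2 p hp hd
  have hyup : ∀ t, t ≤ Xn → Q * t + a0 ≤ H0 * E2 := by
    intro t ht
    have h1 : Q * t ≤ Q * Xn := Nat.mul_le_mul_left _ ht
    have h2 : Q * (Xn + 1) = Q * Xn + Q := by ring
    omega
  have hsize : ∀ P : Pt 1 b, ∀ t ≤ Xn, lv Q ((a0 : ℤ) + D * s P) t ^ 2 ≤ Xn ^ 3 := by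
    intro P t ht
    rw [hlv]
    have h1 : gl D (s P) (Q * t + a0) ≤ Q * t + a0 + N * s P := by
      unfold gl
      refine (Int.natAbs_add_le _ _).trans ?_
      rw [Int.natAbs_mul, hDabs, Int.natAbs_natCast, Int.natAbs_natCast]
    have h2 : Q * t + a0 ≤ Y * (g * X) := (hyup t ht).trans (Nat.mul_le_mul hH0Y hE2)
    have h3 : N * s P ≤ X * (2 * Y) :=
      Nat.mul_le_mul hNX ((S.sle P).trans (Nat.mul_le_mul_left _ hH0Y))
    have h4 : gl D (s P) (Q * t + a0) ≤ (g + 2) * Y * (Pc * Xn) := by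
      calc gl D (s P) (Q * t + a0) ≤ Y * (g * X) + X * (2 * Y) := by omega
        _ = (g + 2) * Y * X := by ring
        _ ≤ _ := Nat.mul_le_mul_left _ hXP
    calc gl D (s P) (Q * t + a0) ^ 2 ≤ ((g + 2) * Y * (Pc * Xn)) ^ 2 :=
          Nat.pow_le_pow_left h4 2
      _ = ((g + 2) * Y * Pc) ^ 2 * Xn ^ 2 := by ring
      _ ≤ Xn * Xn ^ 2 := Nat.mul_le_mul_right _ hsz
      _ = Xn ^ 3 := by ring
  have hbadc : N.primeFactors.card ^ (2 * K0) ≤ Xn := by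
    have h1 := card_pf_lt hN0.ne' (show N < 2 ^ q by omega)
    exact (Nat.pow_le_pow_left h1.le _).trans hqK
  have hsieve := hS2 Xn hX0n (Pt 1 b) hcardP Q _ _ hsys (by
    intro p hp hle
    exact S.small p hp (by rw [pow_one] at hle; omega)) hsize N.primeFactors
    (fun p hp => Nat.prime_of_mem_primeFactors hp) hbadc
  beta_reduce at hsieve
  obtain ⟨V, hV⟩ : ∃ V : ℕ → Pt 1 b → ℕ, ∀ t P, V t P =
      lv Q ((a0 : ℤ) + D * s P) t / ((if P.1 = 0 then α else β) * c P) := ⟨_, fun _ _ => rfl⟩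
  simp only [← hV] at hsieve
  -- the real logarithm
  obtain ⟨L, hL⟩ : ∃ L : ℝ, L = Real.log X := ⟨_, rfl⟩
  rw [← hL] at hX6
  have hbc : (0 : ℝ) ≤ 4 * g * (Fintype.card (Ln 1 b)) := by positivity
  have hL3 : 3 ≤ L := by linarith
  have hqL : (q : ℝ) ≤ L ^ 2 := by
    have h1 : (2 : ℝ) ^ Nat.log 2 X ≤ X := by exact_mod_cast Nat.pow_log_le_self 2 hX0.ne'
    have h2 := Real.log_le_log (by positivity) h1
    rw [Real.log_pow, ← hL] at h2
    have h3 := Real.log_two_gt_d9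
    have h4 : (0 : ℝ) ≤ (Nat.log 2 X : ℝ) := Nat.cast_nonneg _
    have h5 : (q : ℝ) = Nat.log 2 X + 1 := by rw [hq]; push_cast; ring
    rw [h5]
    nlinarith
  have hYL : (Y : ℝ) ≤ L ^ (2 * A) := by
    rw [hY]
    push_cast
    calc (q : ℝ) ^ A ≤ (L ^ 2) ^ A := pow_le_pow_left₀ (Nat.cast_nonneg _) hqL A
      _ = L ^ (2 * A) := by rw [← pow_mul]
  have hYK : (Y : ℝ) ≤ Real.log X ^ K := by
    rw [← hL]
    exact hYL.trans (pow_le_pow_right₀ (by linarith) (by omega))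
  -- the set of solutions
  obtain ⟨W, hW⟩ : ∃ W : Set ℕ, W = {m : ℕ | Sol f α β M g (Φ * (ex0.map f).prod)
      (Φ * (ex1.map f).prod) K X N σ E1 E2 m} := ⟨_, rfl⟩
  rw [← hW, ← hL]
  have hWfin : W.Finite := by
    apply (Set.finite_Iic (N + (E2 + X))).subset
    intro m hm
    rw [hW] at hm
    obtain ⟨n, h1, -, -, -, h5, -, -⟩ := hm
    rw [Set.mem_Iic]
    have h6 : β * n ≤ E2 + X := by
      have h7 : g * (β * n) ≤ g * (E2 + X) := by
        refine h5.trans ?_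
        rw [Nat.mul_add]
        exact Nat.add_le_add_left (Nat.le_mul_of_pos_left _ hg) _
      exact Nat.le_of_mul_le_mul_left h7 hg
    have h8 : (α * m : ℕ) ≤ N + β * n := by
      have h9 : ((α * m : ℕ) : ℤ) ≤ ((N + β * n : ℕ) : ℤ) := by
        push_cast
        rw [h1]
        have h10 : (0 : ℤ) ≤ (β : ℤ) * n := by positivity
        rcases hσ with rfl | rfl
        · linarith
        · linarith
      exact_mod_cast h9
    have h11 : m ≤ α * m := Nat.le_mul_of_pos_left _ hα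
    omega
  obtain ⟨Fil, hFil⟩ : ∃ Fil : Finset ℕ, Fil = (Icc 1 Xn).filter (fun t =>
      (∀ P, Squarefree (V t P)) ∧
        ∑ P, (V t P).primeFactors.card ≤
          (1 + 1) * b ^ 1 * (C2 * (Nat.log 2 ((1 + 1) * b ^ 1) + 1)) ∧
        ∀ P, ∀ p : ℕ, p.Prime → p ∣ V t P → Xn < p ^ K0 ∧ p ∉ N.primeFactors) := ⟨_, rfl⟩
  have hsieve' : (Xn : ℝ) / Real.log Xn ^ K0 ≤ (Fil.card : ℝ) := by
    rw [hFil]
    convert hsieve
  have hpt : ∀ t, ∃ em : Ln 1 b × ℕ, t ∈ Fil →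
      (α : ℤ) * (h em.1 * em.2) = σ * (((Q * t + a0 : ℕ) : ℤ) + D * s (pt 0 em.1)) ∧ em.2 ∈ W := by
    intro t
    by_cases ht : t ∈ Fil
    · have ht' := ht
      rw [hFil, mem_filter, mem_Icc] at ht'
      obtain ⟨⟨ht1, htn⟩, hsq, hsum, hrough⟩ := ht'
      obtain ⟨e, he⟩ := hcomb (fun P => (V t P).primeFactors.card) (by omega)
      have hylo : H0 * E1 ≤ Q * t + a0 := by
        have h1 : Q ≤ Q * t := Nat.le_mul_of_pos_right _ ht1
        omega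
      obtain ⟨m, n, hm, hn, h3, h4, h5, h6, h7, h8⟩ := point S hg hσ hD hX0 hNX hE1E2 hE2 hneg
        (hmod t) hylo (hyup t htn) (V := V t) (fun P => by rw [hV, hlv]) hsq (e := e) he hYK (by
          intro P p hp hd
          obtain ⟨h1, h2⟩ := hrough P p hp hd
          refine ⟨?_, fun h3 => h2 (Nat.mem_primeFactors.2 ⟨hp, h3, hN0.ne'⟩)⟩
          calc X ≤ Xn ^ 2 := hXX
            _ < (p ^ K0) ^ 2 := Nat.pow_lt_pow_left h1 (by norm_num)
            _ = p ^ (2 * K0) := by rw [← pow_mul, mul_comm]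
            _ ≤ p ^ K := Nat.pow_le_pow_right hp.pos (by omega))
      refine ⟨(e, m), fun _ => ⟨hm, ?_⟩⟩
      rw [hW]
      exact ⟨n, hn, h3, h4, h5, h6, h7, h8⟩
    · exact ⟨(fun _ => ⟨0, by omega⟩, 0), fun h1 => absurd h1 ht⟩
  choose φ hφ using hpt
  have hcard : Fil.card ≤ Fintype.card (Ln 1 b) * W.ncard := by
    rw [Set.ncard_eq_toFinset_card W hWfin, ← card_univ, ← card_product]
    apply card_le_card_of_injOn φ
    · intro t ht
      rw [mem_coe] at ht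
      rw [mem_coe, mem_product]
      exact ⟨mem_univ _, (Set.Finite.mem_toFinset hWfin).2 (hφ t ht).2⟩
    · intro t ht t' ht' htt
      rw [mem_coe] at ht ht'
      have h1 := (hφ t ht).1
      have h2 := (hφ t' ht').1
      rw [htt] at h1
      rw [h1] at h2
      have hσ0 : σ ≠ 0 := by rcases hσ with rfl | rfl <;> norm_num
      have h3 := mul_left_cancel₀ hσ0 h2
      have h4 : ((Q * t + a0 : ℕ) : ℤ) = ((Q * t' + a0 : ℕ) : ℤ) := by linarith
      have h5 : Q * t + a0 = Q * t' + a0 := by exact_mod_cast h4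
      exact Nat.eq_of_mul_eq_mul_left hQpos (by omega)
  -- the final count
  have hXn1r : (1 : ℝ) ≤ Xn := by exact_mod_cast hXn1
  have hlogn0 : 0 ≤ Real.log Xn := Real.log_nonneg hXn1r
  have hlogn : Real.log Xn ≤ L := by
    rw [hL]
    exact Real.log_le_log (by linarith) (by exact_mod_cast hXnX)
  have hLpos : 0 < L := by linarith
  have h1 : (Xn : ℝ) / L ^ K0 ≤ (Fil.card : ℝ) := by
    rcases hlogn0.eq_or_lt with h0 | h0
    · rw [← h0, zero_pow (by omega), div_zero] at hsieve'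
      -- `Xn ≥ 2`, so this case is impossible
      exfalso
      have h2 : (Xn : ℝ) ≤ 1 := by
        by_contra h3
        push Not at h3
        have := Real.log_pos h3
        linarith
      have h3 : Xn ≤ 1 := by exact_mod_cast h2
      have h4 : 4 ≤ Pc := by
        rw [hPc]
        have : 1 ≤ g * Y := Nat.mul_pos hg hYpos
        rw [mul_assoc]
        omega
      omega
    · refine le_trans ?_ hsieve'
      exact div_le_div_of_nonneg_left (by positivity) (pow_pos h0 _)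
        (pow_le_pow_left₀ h0.le hlogn _)
  have h2 : (Fil.card : ℝ) ≤ (Fintype.card (Ln 1 b)) * (W.ncard : ℝ) := by exact_mod_cast hcard
  have h3 : (X : ℝ) ≤ Pc * Xn := by exact_mod_cast hXP
  rw [div_le_iff₀ (by positivity)] at h1 ⊢
  have h4 : (Pc : ℝ) = 4 * g * Y := by rw [hPc]; push_cast; ring
  have hWn : (0 : ℝ) ≤ (W.ncard : ℝ) := Nat.cast_nonneg _
  calc (X : ℝ) ≤ Pc * Xn := h3
    _ ≤ Pc * ((Fil.card : ℝ) * L ^ K0) := mul_le_mul_of_nonneg_left h1 (by positivity)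
    _ ≤ Pc * (((Fintype.card (Ln 1 b)) * (W.ncard : ℝ)) * L ^ K0) := by
        apply mul_le_mul_of_nonneg_left _ (by positivity)
        exact mul_le_mul_of_nonneg_right h2 (by positivity)
    _ = (W.ncard : ℝ) * ((4 * g * (Fintype.card (Ln 1 b))) * (Y * L ^ K0)) := by rw [h4]; ring
    _ ≤ (W.ncard : ℝ) * (L * (L ^ (2 * A) * L ^ K0)) := by
        apply mul_le_mul_of_nonneg_left _ hWn
        apply mul_le_mul (by linarith) _ (by positivity) (by linarith)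
        exact mul_le_mul_of_nonneg_right hYL (by positivity)
    _ = (W.ncard : ℝ) * L ^ (2 * A + K0 + 1) := by ring
    _ ≤ (W.ncard : ℝ) * L ^ K := by
        apply mul_le_mul_of_nonneg_left _ hWn
        exact pow_le_pow_right₀ (by linarith) (by omega)

end Pool.Agent.Y887.UT
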