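import Mathlib
import Pool.Agent.Y887.UT.Core
import Pool.Agent.Y887.QE.Fin

/-!
Differences and sums: prescribed values at both members of the solutions of `a m - b n = c`, uniformly in `c`,
and of the representations of all large integers as a sum of two integers.
-/

set_option autoImplicit false

namespace Pool.Agent.Y887.UT

open Finset Filter Pool.Agent.Y887.DK
open Pool.Agent.Y887.DE (kap kap_gadget)
open Pool.Agent.Y887.QE (monoid_list)

/-- windows -/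
theorem window (lam mu : ℝ) (h0 : 0 ≤ lam) (h1 : lam < mu) : ∃ g : ℕ, 0 < g ∧
    ∀ᶠ X : ℕ in atTop, ∃ E1 E2 : ℕ, X ≤ g * (E2 - E1) ∧ E2 ≤ g * X ∧ X ≤ g * E1 ∧
      (mu ≤ 1 → X ≤ g * (X - E2)) ∧
      ∀ w : ℕ, g * E1 ≤ g * w + X → g * w ≤ g * E2 + X → lam * X ≤ w ∧ (w : ℝ) ≤ mu * X := by
  obtain ⟨g, hg⟩ := exists_nat_ge (4 / (mu - lam) + mu + 1)
  have hd : 0 < mu - lam := by linarith
  have hq : 0 < 4 / (mu - lam) := by positivity
  have hgr : (0 : ℝ) < g := by linarith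
  have hgpos : 0 < g := by exact_mod_cast hgr
  have hg4 : 4 ≤ g * (mu - lam) := by
    rw [← div_le_iff₀ hd]
    linarith
  have hgmu : mu ≤ g := by linarith
  refine ⟨g, hgpos, ?_⟩
  filter_upwards [eventually_ge_atTop (2 * g)] with X hX
  have hXr : (2 : ℝ) * g ≤ X := by exact_mod_cast hX
  have hX0 : (0 : ℝ) ≤ X := Nat.cast_nonneg X
  have hinv : (g : ℝ) * (1 / g) = 1 := by field_simp
  have hmu0 : 0 ≤ mu - 1 / g := by
    have h2 : 4 * (1 / (g : ℝ)) ≤ mu - lam := by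
      rw [mul_one_div, div_le_iff₀ hgr]
      linarith
    have h3 : 0 < 1 / (g : ℝ) := by positivity
    linarith
  obtain ⟨E1, hE1⟩ : ∃ E1 : ℕ, E1 = ⌈(lam + 1 / g) * X⌉₊ := ⟨_, rfl⟩
  obtain ⟨E2, hE2⟩ : ∃ E2 : ℕ, E2 = ⌊(mu - 1 / g) * X⌋₊ := ⟨_, rfl⟩
  have h2 : (lam + 1 / g) * X ≤ E1 := by rw [hE1]; exact Nat.le_ceil _
  have h3 : (E1 : ℝ) < (lam + 1 / g) * X + 1 := by
    rw [hE1]
    exact Nat.ceil_lt_add_one (by positivity)
  have h4 : (E2 : ℝ) ≤ (mu - 1 / g) * X := by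
    rw [hE2]
    exact Nat.floor_le (by positivity)
  have h5 : (mu - 1 / g) * X < E2 + 1 := by rw [hE2]; exact Nat.lt_floor_add_one _
  -- multiply by `g`
  have e1 : (g : ℝ) * ((lam + 1 / g) * X) = g * lam * X + X := by
    calc (g : ℝ) * ((lam + 1 / g) * X) = g * lam * X + (g * (1 / g)) * X := by ring
      _ = _ := by rw [hinv, one_mul]
  have e2 : (g : ℝ) * ((mu - 1 / g) * X) = g * mu * X - X := by
    calc (g : ℝ) * ((mu - 1 / g) * X) = g * mu * X - (g * (1 / g)) * X := by ring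
      _ = _ := by rw [hinv, one_mul]
  have k2 : g * lam * X + X ≤ (g : ℝ) * E1 := by
    rw [← e1]
    exact mul_le_mul_of_nonneg_left h2 hgr.le
  have k3 : (g : ℝ) * E1 ≤ g * lam * X + X + g := by
    have := mul_le_mul_of_nonneg_left h3.le hgr.le
    rw [mul_add, e1, mul_one] at this
    exact this
  have k4 : (g : ℝ) * E2 ≤ g * mu * X - X := by
    rw [← e2]
    exact mul_le_mul_of_nonneg_left h4 hgr.le
  have k5 : g * mu * X - X ≤ (g : ℝ) * E2 + g := by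
    have := mul_le_mul_of_nonneg_left h5.le hgr.le
    rw [mul_add, e2, mul_one] at this
    exact this
  have hgl : 0 ≤ (g : ℝ) * lam * X := by positivity
  have hg4X : 4 * (X : ℝ) ≤ g * mu * X - g * lam * X := by
    have := mul_le_mul_of_nonneg_right hg4 hX0
    linarith
  refine ⟨E1, E2, ?_, ?_, ?_, ?_, ?_⟩
  · have h6 : g * E1 + X ≤ g * E2 := by
      have h7 : (g : ℝ) * E1 + X ≤ g * E2 := by linarith
      exact_mod_cast h7
    rw [Nat.mul_sub]
    omega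
  · have h6 : (E2 : ℝ) ≤ g * X := by
      refine h4.trans (mul_le_mul_of_nonneg_right ?_ hX0)
      have h3 : 0 < 1 / (g : ℝ) := by positivity
      linarith
    exact_mod_cast h6
  · have h6 : (X : ℝ) ≤ g * E1 := by linarith
    exact_mod_cast h6
  · intro hmu
    have h6 : (g : ℝ) * E2 + X ≤ g * X := by
      have h7 : g * mu * X ≤ g * X := by
        have h8 : (g : ℝ) * mu ≤ g * 1 := mul_le_mul_of_nonneg_left hmu hgr.le
        have := mul_le_mul_of_nonneg_right h8 hX0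
        linarith
      linarith
    have h7 : g * E2 + X ≤ g * X := by exact_mod_cast h6
    rw [Nat.mul_sub]
    omega
  · intro w hw1 hw2
    have h6 : (g : ℝ) * E1 ≤ g * w + X := by exact_mod_cast hw1
    have h7 : (g : ℝ) * w ≤ g * E2 + X := by exact_mod_cast hw2
    constructor
    · have h8 : (g : ℝ) * (lam * X) ≤ g * w := by linarith
      exact le_of_mul_le_mul_left h8 hgr
    · have h8 : (g : ℝ) * w ≤ g * (mu * X) := by linarith
      exact le_of_mul_le_mul_left h8 hgr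

theorem norm_f {Γ : Type} [CommGroup Γ] (f : ℕ → Γ) (u v : Multiset ℕ)
    (hu : ∀ j ∈ u, 1 ≤ j) (hv : ∀ j ∈ v, 1 ≤ j) (hsum : u.sum = v.sum + 1)
    (huv : (u.map f).prod = (v.map f).prod) :
    ∃ f' : ℕ → Γ, f' 0 = 1 ∧ (∀ k, 1 ≤ k → f' k = f k) ∧ (∀ n, Fm f n = Fm f' n) ∧
      f '' {j | 1 ≤ j} = f' '' {j | 1 ≤ j} ∧
      ∃ Lp Lm : List ℕ, (Lp.map (kap f')).prod = f' 1 * (Lm.map (kap f')).prod := by
  classical
  obtain ⟨f', hf'0, hf'⟩ : ∃ f' : ℕ → Γ, f' 0 = 1 ∧ ∀ k, 1 ≤ k → f' k = f k := by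
    refine ⟨fun k => if k = 0 then 1 else f k, by simp, fun k hk => ?_⟩
    have : k ≠ 0 := by omega
    simp [this]
  have hp' : (u.map f').prod = (v.map f').prod := by
    rw [Multiset.map_congr rfl (fun k hk => hf' k (hu k hk)), huv,
      Multiset.map_congr rfl (fun k hk => hf' k (hv k hk))]
  have himg : f '' {j | 1 ≤ j} = f' '' {j | 1 ≤ j} := by
    apply Set.image_congr
    intro j hj
    exact (hf' j hj).symm
  have hFm : ∀ n, Fm f n = Fm f' n := by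
    intro n
    unfold Fm
    apply prod_congr rfl
    intro p hp
    rw [hf']
    exact ((Nat.prime_of_mem_primeFactors hp).dvd_iff_one_le_factorization (by
      rintro rfl
      simp at hp)).1 (Nat.dvd_of_mem_primeFactors hp)
  obtain ⟨Lp, Lm, -, -, hrel⟩ := kap_gadget f' u v hu hv hsum hp'
  exact ⟨f', hf'0, hf', hFm, himg, Lp, Lm, hrel⟩

/-- the shape of the members of the solutions -/
def Shape (K M X : ℕ) (c : ℤ) (m : ℕ) : Prop :=
  ∃ k s : ℕ, m = k * s ∧ (k : ℝ) ≤ Real.log X ^ K ∧ Squarefree s ∧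
    (∀ p : ℕ, p.Prime → p ∣ s → X < p ^ K) ∧ ∀ p : ℕ, p.Prime → p ∣ m → M < p ∧ ¬ (p : ℤ) ∣ c

theorem Gd.mono {K K' M X N m : ℕ} (h : Gd K M X N m) (hK : K ≤ K') (hX : 1 ≤ Real.log X) {c : ℤ}
    (hc : c.natAbs = N) : Shape K' M X c m := by
  obtain ⟨k, s, h1, h2, h3, h4, h5⟩ := h
  refine ⟨k, s, h1, h2.trans (pow_le_pow_right₀ hX hK), h3, fun p hp hd =>
    (h4 p hp hd).trans_le (Nat.pow_le_pow_right hp.pos hK), fun p hp hd => ?_⟩
  obtain ⟨h6, h7⟩ := h5 p hp hd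
  refine ⟨h6, fun h8 => h7 ?_⟩
  rw [← hc]
  exact Int.natCast_dvd.1 h8

set_option maxHeartbeats 1000000 in
/-- differences -/
theorem diffs {Γ : Type} [CommGroup Γ] (f : ℕ → Γ) (u v : Multiset ℕ)
    (hu : ∀ j ∈ u, 1 ≤ j) (hv : ∀ j ∈ v, 1 ≤ j) (hsum : u.sum = v.sum + 1)
    (huv : (u.map f).prod = (v.map f).prod) :
    ∃ Φ : Γ, ∀ a b : ℕ, 0 < a → 0 < b → a.Coprime b →
      ∀ γ ∈ Submonoid.closure (f '' {j | 1 ≤ j}), ∀ δ ∈ Submonoid.closure (f '' {j | 1 ≤ j}),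
      ∀ (M : ℕ) (lam mu : ℝ), 0 ≤ lam → lam < mu → ∃ K : ℕ, ∀ᶠ X : ℕ in atTop,
      ∀ c : ℤ, c ≠ 0 → |c| ≤ X → IsCoprime c (a * b) → 2 ∣ a * b * c →
        (X : ℝ) / Real.log X ^ K ≤ ({x : ℕ × ℕ | (a : ℤ) * x.1 - b * x.2 = c ∧
          (lam * X ≤ min (a * x.1 : ℝ) (b * x.2) ∧ min (a * x.1 : ℝ) (b * x.2) ≤ mu * X) ∧
          Fm f x.1 = Φ * γ ∧ Fm f x.2 = Φ * δ ∧
          Shape K M X c x.1 ∧ Shape K M X c x.2}.ncard : ℝ) := by
  classical
  obtain ⟨f', hf'0, hf', hFm, himg, Lp, Lm, hrel⟩ := norm_f f u v hu hv hsum huv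
  rw [himg]
  simp only [hFm]
  obtain ⟨Φ, hcore⟩ := core f' hf'0 Lp Lm hrel
  refine ⟨Φ, fun a b ha hb hab γ hγ δ hδ M lam mu hlam hmu => ?_⟩
  obtain ⟨ex0, hex0, hγ'⟩ := monoid_list f' γ hγ
  obtain ⟨ex1, hex1, hδ'⟩ := monoid_list f' δ hδ
  obtain ⟨g, hg, hwin⟩ := window lam mu hlam hmu
  obtain ⟨K1, hK1⟩ := hcore a b M g ha hb hab hg ex0 ex1 hex0 hex1
  obtain ⟨K2, hK2⟩ := hcore b a M g hb ha hab.symm hg ex1 ex0 hex1 hex0
  refine ⟨max K1 K2, ?_⟩
  have hlogX : Tendsto (fun X : ℕ => Real.log (X : ℝ)) atTop atTop :=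
    Real.tendsto_log_atTop.comp tendsto_natCast_atTop_atTop
  filter_upwards [hK1, hK2, hwin, hlogX.eventually_ge_atTop 1] with X h1 h2 hw hlog
  intro c hc0 hcX hcop h2c
  obtain ⟨E1, E2, hE12, hE2X, -, -, hwE⟩ := hw
  rw [hγ', hδ'] at h1 h2
  obtain ⟨N, hN⟩ : ∃ N : ℕ, N = c.natAbs := ⟨_, rfl⟩
  have hNpos : 0 < N := by rw [hN]; exact Int.natAbs_pos.2 hc0
  have hNX : N ≤ X := by
    have : ((c.natAbs : ℕ) : ℤ) ≤ X := by rw [Int.natCast_natAbs]; exact hcX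
    rw [hN]
    exact_mod_cast this
  have hNco : Nat.Coprime N (a * b) := by
    rw [hN]
    have h3 := Int.isCoprime_iff_gcd_eq_one.1 hcop
    rw [Int.gcd_eq_natAbs] at h3
    have h4 : (((a : ℤ) * b)).natAbs = a * b := by
      rw [← Nat.cast_mul, Int.natAbs_natCast]
    rwa [h4] at h3
  have h2N : 2 ∣ a * b * N := by
    have h3 := Int.natAbs_dvd_natAbs.2 h2c
    rw [Int.natAbs_mul, ← Nat.cast_mul, Int.natAbs_natCast, ← hN] at h3
    exact h3
  -- the pairs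
  obtain ⟨S2, hS2⟩ : ∃ S2 : Set (ℕ × ℕ), S2 = {x : ℕ × ℕ | (a : ℤ) * x.1 - b * x.2 = c ∧
          (lam * X ≤ min (a * x.1 : ℝ) (b * x.2) ∧ min (a * x.1 : ℝ) (b * x.2) ≤ mu * X) ∧
          Fm f' x.1 = Φ * γ ∧ Fm f' x.2 = Φ * δ ∧
          Shape (max K1 K2) M X c x.1 ∧ Shape (max K1 K2) M X c x.2} := ⟨_, rfl⟩
  rw [← hS2]
  have hfin : S2.Finite := by
    have hb1 : ∀ x ∈ S2, (x.1 : ℝ) ≤ ⌈mu * X + X⌉₊ ∧ (x.2 : ℝ) ≤ ⌈mu * X + X⌉₊ := by
      rintro ⟨m, n⟩ hx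
      rw [hS2] at hx
      obtain ⟨h3, ⟨-, h4⟩, -⟩ := hx
      have h3r : (a : ℝ) * m - b * n = (c : ℝ) := by exact_mod_cast h3
      have hcr : |(c : ℝ)| ≤ X := by exact_mod_cast hcX
      have h5 := le_abs_self (c : ℝ)
      have h6 := neg_abs_le (c : ℝ)
      have ha1 : (1 : ℝ) ≤ a := by exact_mod_cast ha
      have hb1 : (1 : ℝ) ≤ b := by exact_mod_cast hb
      have hm0 : (0 : ℝ) ≤ m := Nat.cast_nonneg _
      have hn0 : (0 : ℝ) ≤ n := Nat.cast_nonneg _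
      have hm1 : (m : ℝ) ≤ a * m := by nlinarith
      have hn1 : (n : ℝ) ≤ b * n := by nlinarith
      have hce := Nat.le_ceil (mu * X + X)
      have key : (a : ℝ) * m ≤ mu * X + X ∧ (b : ℝ) * n ≤ mu * X + X := by
        rcases le_total ((a : ℝ) * m) (b * n) with h7 | h7
        · rw [min_eq_left h7] at h4
          exact ⟨by linarith, by linarith⟩
        · rw [min_eq_right h7] at h4
          exact ⟨by linarith, by linarith⟩
      exact ⟨by linarith [key.1], by linarith [key.2]⟩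
    apply ((Set.finite_Iic ⌈mu * X + X⌉₊).prod (Set.finite_Iic ⌈mu * X + X⌉₊)).subset
    rintro ⟨m, n⟩ hx
    obtain ⟨h3, h4⟩ := hb1 _ hx
    exact ⟨by exact_mod_cast h3, by exact_mod_cast h4⟩
  rcases Int.natAbs_eq c with hcs | hcs
  · -- positive
    rw [← hN] at hcs
    have h3 := h1 N hNpos hNX hNco h2N 1 (Or.inl rfl) E1 E2 hE12 hE2X (by norm_num)
    refine le_trans ?_ (h3.trans ?_)
    · apply div_le_div_of_nonneg_left (Nat.cast_nonneg _) (by positivity)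
      exact pow_le_pow_right₀ hlog (le_max_left _ _)
    · refine Nat.cast_le.2 ((Set.ncard_le_ncard (t := Prod.fst '' S2) ?_
        (hfin.image _)).trans (Set.ncard_image_le hfin))
      rintro m ⟨n, h4, h5, h6, h7, h8, h9, h10⟩
      refine ⟨(m, n), ?_, rfl⟩
      rw [hS2]
      obtain ⟨h11, h12⟩ := hwE (b * n) h7 h8
      push_cast at h11 h12
      have h13 : (b : ℝ) * n ≤ a * m := by
        have h14 : (a : ℝ) * m = N + (b * n) := by
          rw [one_mul] at h4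
          exact_mod_cast h4
        have : (0 : ℝ) ≤ N := Nat.cast_nonneg _
        linarith
      refine ⟨?_, ?_, h5, h6, h9.mono (le_max_left _ _) hlog hN.symm,
        h10.mono (le_max_left _ _) hlog hN.symm⟩
      · show (a : ℤ) * m - b * n = c
        rw [h4, hcs]
        ring
      · show lam * X ≤ min ((a : ℝ) * m) (b * n) ∧ min ((a : ℝ) * m) (b * n) ≤ mu * X
        rw [min_eq_right h13]
        exact ⟨h11, h12⟩
  · rw [← hN] at hcs
    have h3 := h2 N hNpos hNX (by rw [mul_comm]; exact hNco) (by rw [mul_comm b]; exact h2N) 1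
      (Or.inl rfl) E1 E2 hE12 hE2X (by norm_num)
    refine le_trans ?_ (h3.trans ?_)
    · apply div_le_div_of_nonneg_left (Nat.cast_nonneg _) (by positivity)
      exact pow_le_pow_right₀ hlog (le_max_right _ _)
    · refine Nat.cast_le.2 ((Set.ncard_le_ncard (t := Prod.snd '' S2) ?_
        (hfin.image _)).trans (Set.ncard_image_le hfin))
      rintro n ⟨m, h4, h5, h6, h7, h8, h9, h10⟩
      refine ⟨(m, n), ?_, rfl⟩
      rw [hS2]
      obtain ⟨h11, h12⟩ := hwE (a * m) h7 h8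
      push_cast at h11 h12
      have h13 : (a : ℝ) * m ≤ b * n := by
        have h14 : (b : ℝ) * n = N + (a * m) := by
          rw [one_mul] at h4
          exact_mod_cast h4
        have : (0 : ℝ) ≤ N := Nat.cast_nonneg _
        linarith
      refine ⟨?_, ?_, h6, h5, h10.mono (le_max_right _ _) hlog hN.symm,
        h9.mono (le_max_right _ _) hlog hN.symm⟩
      · show (a : ℤ) * m - b * n = c
        rw [h4, hcs]
        ring
      · show lam * X ≤ min ((a : ℝ) * m) (b * n) ∧ min ((a : ℝ) * m) (b * n) ≤ mu * X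
        rw [min_eq_left h13]
        exact ⟨h11, h12⟩

end Pool.Agent.Y887.UT
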