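import Mathlib
import Pool.Agent.Y887.UT.Fin

/-!
Sums: prescribed values at both members of the representations of all large integers as a sum; the numbers of
prime factors and of divisors.
-/

set_option autoImplicit false

namespace Pool.Agent.Y887.UT

open Finset Filter Pool.Agent.Y887.DK
open Pool.Agent.Y887.DE (kap kap_gadget)
open Pool.Agent.Y887.QE (monoid_list)

/-- the shape of the summands -/
def ShapeS (K M N m : ℕ) : Prop :=
  ∃ k s : ℕ, m = k * s ∧ (k : ℝ) ≤ Real.log N ^ K ∧ Squarefree s ∧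
    (∀ p : ℕ, p.Prime → p ∣ s → N < p ^ K) ∧
    ∀ p : ℕ, p.Prime → p ∣ m → (M < p ∨ p = 2) ∧ ¬ p ∣ N

theorem Gd.toS {K K' M N m α : ℕ} (h : Gd K M N N m) (hK : K < K') (hX : 2 ≤ Real.log N)
    (hα : α = 1 ∨ α = 2) (h2 : α = 2 → ¬ 2 ∣ N) : ShapeS K' M N (α * m) := by
  obtain ⟨k, s, h1, h2', h3, h4, h5⟩ := h
  have hα2 : (α : ℝ) ≤ 2 := by
    rcases hα with rfl | rfl <;> norm_num
  refine ⟨α * k, s, by rw [h1, mul_assoc], ?_, h3, fun p hp hd =>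
    (h4 p hp hd).trans_le (Nat.pow_le_pow_right hp.pos hK.le), fun p hp hd => ?_⟩
  · push_cast
    calc (α : ℝ) * k ≤ Real.log N * Real.log N ^ K := by
          apply mul_le_mul (hα2.trans hX) h2' (Nat.cast_nonneg _) (by linarith)
      _ = Real.log N ^ (K + 1) := by rw [pow_succ]; ring
      _ ≤ _ := pow_le_pow_right₀ (by linarith) hK
  · rcases (hp.dvd_mul).1 hd with h6 | h6
    · have hp2 : p = 2 := by
        rcases hα with h7 | h7
        · rw [h7] at h6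
          exact absurd (Nat.dvd_one.1 h6) hp.one_lt.ne'
        · rw [h7] at h6
          exact (Nat.prime_dvd_prime_iff_eq hp Nat.prime_two).1 h6
      refine ⟨Or.inr hp2, ?_⟩
      rw [hp2]
      apply h2
      rcases hα with h7 | h7
      · rw [h7] at h6
        exact absurd (Nat.dvd_one.1 h6) hp.one_lt.ne'
      · exact h7
    · obtain ⟨h7, h8⟩ := h5 p hp h6
      exact ⟨Or.inl h7, h8⟩

set_option maxHeartbeats 1000000 in
/-- sums -/
theorem sums {Γ : Type} [CommGroup Γ] (f : ℕ → Γ) (u v : Multiset ℕ)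
    (hu : ∀ j ∈ u, 1 ≤ j) (hv : ∀ j ∈ v, 1 ≤ j) (hsum : u.sum = v.sum + 1)
    (huv : (u.map f).prod = (v.map f).prod) :
    ∃ Φ : Γ, ∀ γ ∈ Submonoid.closure (f '' {j | 1 ≤ j}), ∀ δ ∈ Submonoid.closure (f '' {j | 1 ≤ j}),
      ∀ (M : ℕ) (lam mu : ℝ), 0 ≤ lam → lam < mu → mu ≤ 1 → ∃ K : ℕ, ∀ᶠ N : ℕ in atTop,
        (N : ℝ) / Real.log N ^ K ≤ ({x : ℕ × ℕ | x.1 + x.2 = N ∧
          (lam * N ≤ x.1 ∧ (x.1 : ℝ) ≤ mu * N) ∧
          Fm f x.1 = Φ * γ ∧ Fm f x.2 = Φ * δ ∧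
          ShapeS K M N x.1 ∧ ShapeS K M N x.2}.ncard : ℝ) := by
  classical
  obtain ⟨f', hf'0, hf', hFm, himg, Lp, Lm, hrel⟩ := norm_f f u v hu hv hsum huv
  rw [himg]
  simp only [hFm]
  obtain ⟨Φ, hcore⟩ := core f' hf'0 Lp Lm hrel
  refine ⟨Φ * f' 1, fun γ hγ δ hδ M lam mu hlam hlm hmu => ?_⟩
  obtain ⟨ex0, hex0, hγ'⟩ := monoid_list f' γ hγ
  obtain ⟨ex1, hex1, hδ'⟩ := monoid_list f' δ hδ
  obtain ⟨g, hg, hwin⟩ := window (1 - mu) (1 - lam) (by linarith) (by linarith)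
  have hcons : ∀ ex : List ℕ, (∀ m ∈ ex, 1 ≤ m) → ∀ m ∈ 1 :: ex, 1 ≤ m := by
    intro ex hex m hm
    rcases List.mem_cons.1 hm with rfl | h
    · exact le_rfl
    · exact hex m h
  obtain ⟨K1, hK1⟩ := hcore 1 1 (max M 2) g (by norm_num) (by norm_num) (by norm_num) hg
    (1 :: ex0) (1 :: ex1) (hcons _ hex0) (hcons _ hex1)
  obtain ⟨K2, hK2⟩ := hcore 2 1 (max M 2) g (by norm_num) (by norm_num) (by norm_num) hg
    ex0 (1 :: ex1) hex0 (hcons _ hex1)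
  refine ⟨K1 + K2 + 1, ?_⟩
  have hlogX : Tendsto (fun X : ℕ => Real.log (X : ℝ)) atTop atTop :=
    Real.tendsto_log_atTop.comp tendsto_natCast_atTop_atTop
  filter_upwards [hK1, hK2, hwin, hlogX.eventually_ge_atTop 2, eventually_ge_atTop 1]
    with N h1 h2 hw hlog hN1
  obtain ⟨E1, E2, hE12, hE2X, hE1X, hE2N, hwE⟩ := hw
  have hE2N := hE2N (by linarith)
  -- the common part
  have key : ∀ (α K0 : ℕ) (v0 v1 : Γ), (α = 1 ∨ α = 2) → (α = 2 → ¬ 2 ∣ N) → K0 ≤ K1 + K2 →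
      (∀ m : ℕ, (∀ p : ℕ, p.Prime → p ∣ m → max M 2 < p) → Fm f' m = v0 →
        Fm f' (α * m) = Φ * f' 1 * γ) → v1 = Φ * f' 1 * δ →
      (N : ℝ) / Real.log N ^ K0 ≤
        ({m : ℕ | Sol f' α 1 (max M 2) g v0 v1 K0 N N (-1) E1 E2 m}.ncard : ℝ) →
      (N : ℝ) / Real.log N ^ (K1 + K2 + 1) ≤ ({x : ℕ × ℕ | x.1 + x.2 = N ∧
          (lam * N ≤ x.1 ∧ (x.1 : ℝ) ≤ mu * N) ∧
          Fm f' x.1 = Φ * f' 1 * γ ∧ Fm f' x.2 = Φ * f' 1 * δ ∧
          ShapeS (K1 + K2 + 1) M N x.1 ∧ ShapeS (K1 + K2 + 1) M N x.2}.ncard : ℝ) := by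
    intro α K0 v0 v1 hα hα2 hK0 hv0 hv1 h3
    obtain ⟨S2, hS2⟩ : ∃ S2 : Set (ℕ × ℕ), S2 = {x : ℕ × ℕ | x.1 + x.2 = N ∧
          (lam * N ≤ x.1 ∧ (x.1 : ℝ) ≤ mu * N) ∧
          Fm f' x.1 = Φ * f' 1 * γ ∧ Fm f' x.2 = Φ * f' 1 * δ ∧
          ShapeS (K1 + K2 + 1) M N x.1 ∧ ShapeS (K1 + K2 + 1) M N x.2} := ⟨_, rfl⟩
    rw [← hS2]
    have hfin : S2.Finite := by
      apply ((Set.finite_Iic N).prod (Set.finite_Iic N)).subset
      rintro ⟨m, n⟩ hx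
      rw [hS2] at hx
      obtain ⟨h4, -⟩ := hx
      have h4 : m + n = N := h4
      exact ⟨Set.mem_Iic.2 (by omega), Set.mem_Iic.2 (by omega)⟩
    have hαpos : 0 < α := by omega
    refine le_trans ?_ (h3.trans ?_)
    · apply div_le_div_of_nonneg_left (Nat.cast_nonneg _) (by positivity)
      exact pow_le_pow_right₀ (by linarith) (by omega)
    · refine Nat.cast_le.2 (Set.ncard_le_ncard_of_injOn (fun m => (α * m, N - α * m)) ?_ ?_ hfin)
      · rintro m ⟨n, h4, h5, h6, h7, h8, h9, h10⟩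
        have h11 : α * m + n = N := by
          have h12 : (α : ℤ) * m + n = N := by
            rw [h4]
            push_cast
            ring
          exact_mod_cast h12
        have h12 : N - α * m = n := by omega
        show ((α * m, N - α * m) : ℕ × ℕ) ∈ S2
        rw [h12, hS2]
        rw [one_mul] at h7 h8
        obtain ⟨h13, h14⟩ := hwE n h7 h8
        have h15 : ((α * m : ℕ) : ℝ) + n = N := by exact_mod_cast h11
        have hmon : ∀ {m : ℕ}, Gd K0 (max M 2) N N m → Gd K0 M N N m := by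
          rintro m ⟨k, s, g1, g2, g3, g4, g5⟩
          exact ⟨k, s, g1, g2, g3, g4, fun p hp hd =>
            ⟨lt_of_le_of_lt (le_max_left _ _) (g5 p hp hd).1, (g5 p hp hd).2⟩⟩
        refine ⟨h11, ⟨?_, ?_⟩, ?_, ?_, ?_, ?_⟩
        · show lam * N ≤ ((α * m : ℕ) : ℝ)
          linarith
        · show ((α * m : ℕ) : ℝ) ≤ mu * N
          linarith
        · refine hv0 m (fun p hp hd => ?_) h5
          obtain ⟨k, s, g1, g2, g3, g4, g5⟩ := h9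
          exact (g5 p hp hd).1
        · show Fm f' n = _
          rw [h6, hv1]
        · exact (hmon h9).toS (by omega) hlog hα hα2
        · have h16 := (hmon h10).toS (K' := K1 + K2 + 1) (α := 1) (by omega) hlog (Or.inl rfl)
            (by norm_num)
          rwa [one_mul] at h16
      · intro m hm m' hm' heq
        have h4 := congrArg Prod.fst heq
        exact Nat.eq_of_mul_eq_mul_left hαpos h4
  by_cases hpar : 2 ∣ N
  · have h3 := h1 N (by omega) le_rfl (by rw [mul_one]; exact Nat.coprime_one_right N)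
      (by rw [mul_one, one_mul]; exact hpar) (-1) (Or.inr rfl) E1 E2 hE12 hE2X
      (fun _ => ⟨hE1X, hE2N⟩)
    refine key 1 K1 _ _ (Or.inl rfl) (by norm_num) (by omega) ?_ ?_ h3
    · intro m _ hm
      rw [one_mul, hm, List.map_cons, List.prod_cons, hγ']
      ac_rfl
    · rw [List.map_cons, List.prod_cons, hδ']
      ac_rfl
  · have h3 := h2 N (by omega) le_rfl (by
        rw [mul_one]
        exact ((Nat.Prime.coprime_iff_not_dvd Nat.prime_two).2 hpar).symm)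
      (by rw [mul_one]; exact dvd_mul_right _ _) (-1) (Or.inr rfl) E1 E2 hE12 hE2X
      (fun _ => ⟨hE1X, hE2N⟩)
    refine key 2 K2 _ _ (Or.inr rfl) (fun _ => hpar) (by omega) ?_ ?_ h3
    · intro m hmp hm
      have hm0 : m ≠ 0 := by
        rintro rfl
        have := hmp 2 Nat.prime_two (dvd_zero _)
        omega
      have h2m : Nat.Coprime 2 m := by
        rw [Nat.Prime.coprime_iff_not_dvd Nat.prime_two]
        intro h4
        have := hmp 2 Nat.prime_two h4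
        omega
      rw [Fm_mul f' (by norm_num) hm0 h2m, hm, hγ']
      have h5 : Fm f' 2 = f' 1 := by
        rw [Fm_sqfree f' (Nat.prime_two.prime.squarefree), Nat.Prime.primeFactors Nat.prime_two,
          card_singleton, pow_one]
      rw [h5]
      ac_rfl
    · rw [List.map_cons, List.prod_cons, hδ']
      ac_rfl

/-- the number of prime factors -/
def fom : ℕ → Multiplicative ℤ := fun _ => Multiplicative.ofAdd (1 : ℤ)

/-- the number of divisors -/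
def fta : ℕ → ℚˣ := fun e => Units.mk0 ((e : ℚ) + 1) (by positivity)

theorem Fm_omega (n : ℕ) : Fm fom n = Multiplicative.ofAdd (n.primeFactors.card : ℤ) := by
  unfold Fm fom
  rw [Finset.prod_const, ← ofAdd_nsmul]
  simp

theorem Fm_tau (n : ℕ) (hn : n ≠ 0) : ((Fm fta n : ℚˣ) : ℚ) = (n.divisors.card : ℚ) := by
  unfold Fm fta
  rw [Nat.card_divisors hn]
  push_cast
  rfl

theorem omega_mem (Φ : Multiplicative ℤ) (r : ℕ) (hr : (Multiplicative.toAdd Φ).toNat ≤ r) :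
    ∃ γ ∈ Submonoid.closure (fom '' {j | 1 ≤ j}), ∀ n, Fm fom n = Φ * γ →
      n.primeFactors.card = r := by
  obtain ⟨k, hk⟩ : ∃ k : ℕ, (r : ℤ) = Multiplicative.toAdd Φ + k := by
    refine ⟨((r : ℤ) - Multiplicative.toAdd Φ).toNat, ?_⟩
    have h2 : ((Multiplicative.toAdd Φ).toNat : ℤ) ≤ r := by exact_mod_cast hr
    have h3 := Int.self_le_toNat (Multiplicative.toAdd Φ)
    rw [Int.toNat_of_nonneg (by linarith)]
    ring
  refine ⟨Multiplicative.ofAdd (k : ℤ), ?_, ?_⟩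
  · have h4 : Multiplicative.ofAdd (k : ℤ) = (Multiplicative.ofAdd (1 : ℤ)) ^ k := by
      rw [← ofAdd_nsmul]
      simp
    rw [h4]
    refine pow_mem (Submonoid.subset_closure ?_) k
    exact Set.mem_image_of_mem _ (by simp : (1 : ℕ) ∈ {j : ℕ | 1 ≤ j})
  · intro n h4
    rw [Fm_omega] at h4
    have h5 := congrArg Multiplicative.toAdd h4
    simp only [toAdd_ofAdd, toAdd_mul] at h5
    rw [← hk] at h5
    exact_mod_cast h5

theorem tau_mem (Φ : ℚˣ) (d0 : ℕ) (hd : (d0 : ℚ) = Φ) (i : ℕ) (hi : 1 ≤ i) :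
    ∃ γ ∈ Submonoid.closure (fta '' {j | 1 ≤ j}), ∀ n, n ≠ 0 → Fm fta n = Φ * γ →
      n.divisors.card = d0 * i := by
  have hb0 : (i : ℚ) ≠ 0 := by
    have : i ≠ 0 := by omega
    exact_mod_cast this
  refine ⟨Units.mk0 (i : ℚ) hb0, ?_, ?_⟩
  · rcases Nat.eq_or_lt_of_le hi with rfl | hb1
    · have : Units.mk0 ((1 : ℕ) : ℚ) hb0 = 1 := by
        apply Units.ext
        simp
      rw [this]
      exact one_mem _
    · apply Submonoid.subset_closure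
      refine ⟨i - 1, (by omega : 1 ≤ i - 1), ?_⟩
      apply Units.ext
      simp only [fta, Units.val_mk0]
      have : ((i - 1 : ℕ) : ℚ) + 1 = i := by
        rw [Nat.cast_sub (by omega)]
        simp
      exact this
  · intro n hn h4
    have h5 := congrArg (fun x : ℚˣ => (x : ℚ)) h4
    simp only [Units.val_mul, Units.val_mk0] at h5
    rw [Fm_tau n hn, ← hd] at h5
    exact_mod_cast h5

theorem tau_rel : ((({3} : Multiset ℕ)).map fta).prod = ((({1, 1} : Multiset ℕ)).map fta).prod := by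
  apply Units.ext
  simp [fta]
  norm_num

theorem ncard_pos_of {X K : ℕ} (hX : 3 ≤ X) {S : Set (ℕ × ℕ)}
    (h : (X : ℝ) / Real.log X ^ K ≤ (S.ncard : ℝ)) : S.Nonempty := by
  have h5 : (3 : ℝ) ≤ X := by exact_mod_cast hX
  have h6 : 0 < Real.log X := Real.log_pos (by linarith)
  have h4 : (0 : ℝ) < (X : ℝ) / Real.log X ^ K := by positivity
  have h7 := Nat.cast_pos.1 (h4.trans_le h)
  exact Set.nonempty_of_ncard_ne_zero h7.ne'

theorem log_mono {X K K' : ℕ} (hX : 3 ≤ X) (hK : K ≤ K') :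
    (X : ℝ) / Real.log X ^ K' ≤ (X : ℝ) / Real.log X ^ K := by
  have h1 : (1 : ℝ) ≤ Real.log X := by
    rw [Real.le_log_iff_exp_le (by positivity)]
    have h2 : Real.exp 1 < 2.7182818286 := Real.exp_one_lt_d9
    have h3 : (3 : ℝ) ≤ X := by exact_mod_cast hX
    linarith
  exact div_le_div_of_nonneg_left (Nat.cast_nonneg _) (by positivity) (pow_le_pow_right₀ h1 hK)

theorem ShapeS.ne {K M N m : ℕ} (hN : 3 ≤ N) (h : ShapeS K M N m) : m ≠ 0 := by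
  rintro rfl
  obtain ⟨k, s, g1, g2, g3, g4, g5⟩ := h
  obtain ⟨p, hp, hd⟩ := Nat.exists_prime_and_dvd (show N ≠ 1 by omega)
  exact (g5 p hp (dvd_zero _)).2 hd

set_option maxHeartbeats 1000000 in
/-- sums: numbers of prime factors and of divisors -/
theorem sums_ot : ∃ r₀ d₀ : ℕ, 0 < d₀ ∧ ∀ r s i j : ℕ, r₀ ≤ r → r₀ ≤ s → 1 ≤ i → 1 ≤ j →
    ∀ lam mu : ℝ, 0 ≤ lam → lam < mu → mu ≤ 1 → ∃ K : ℕ, ∀ᶠ N : ℕ in atTop,
      (N : ℝ) / Real.log N ^ K ≤ ({x : ℕ × ℕ | x.1 + x.2 = N ∧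
        (lam * N ≤ x.1 ∧ (x.1 : ℝ) ≤ mu * N) ∧
        x.1.primeFactors.card = r ∧ x.2.primeFactors.card = s}.ncard : ℝ) ∧
      (N : ℝ) / Real.log N ^ K ≤ ({x : ℕ × ℕ | x.1 + x.2 = N ∧
        (lam * N ≤ x.1 ∧ (x.1 : ℝ) ≤ mu * N) ∧
        x.1.divisors.card = d₀ * i ∧ x.2.divisors.card = d₀ * j}.ncard : ℝ) := by
  obtain ⟨Φ, h⟩ := sums fom {2} {1} (by simp) (by simp) (by simp) (by simp [fom])
  obtain ⟨Ψ, h'⟩ := sums fta {3} {1, 1} (by simp) (by simp) (by simp) tau_rel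
  have hfin : ∀ (N : ℕ) (P : ℕ × ℕ → Prop), {x : ℕ × ℕ | x.1 + x.2 = N ∧ P x}.Finite := by
    intro N P
    apply ((Set.finite_Iic N).prod (Set.finite_Iic N)).subset
    rintro ⟨m, n⟩ ⟨hx, -⟩
    have hx : m + n = N := hx
    exact ⟨Set.mem_Iic.2 (by omega), Set.mem_Iic.2 (by omega)⟩
  -- the basic number of divisors
  obtain ⟨d₀, hd, hd0⟩ : ∃ d₀ : ℕ, 0 < d₀ ∧ (d₀ : ℚ) = (Ψ : ℚ) := by
    obtain ⟨K, hK⟩ := h' 1 (one_mem _) 1 (one_mem _) 0 0 1 le_rfl (by norm_num) le_rfl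
    obtain ⟨N, h2, h3⟩ := (hK.and (eventually_ge_atTop 3)).exists
    obtain ⟨x, -, -, h4, -, h5, -⟩ := ncard_pos_of h3 h2
    have h6 := h5.ne h3
    refine ⟨x.1.divisors.card, Finset.card_pos.2 ⟨1, Nat.one_mem_divisors.2 h6⟩, ?_⟩
    rw [← Fm_tau _ h6, h4, mul_one]
  refine ⟨(Multiplicative.toAdd Φ).toNat, d₀, hd, ?_⟩
  intro r s i j hr hs hi hj lam mu hlam hlm hmu
  obtain ⟨γ, hγ, hγ'⟩ := omega_mem Φ r hr
  obtain ⟨δ, hδ, hδ'⟩ := omega_mem Φ s hs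
  obtain ⟨K1, hK1⟩ := h γ hγ δ hδ 0 lam mu hlam hlm hmu
  obtain ⟨γ2, hγ2, hγ2'⟩ := tau_mem Ψ d₀ hd0 i hi
  obtain ⟨δ2, hδ2, hδ2'⟩ := tau_mem Ψ d₀ hd0 j hj
  obtain ⟨K2, hK2⟩ := h' γ2 hγ2 δ2 hδ2 0 lam mu hlam hlm hmu
  refine ⟨max K1 K2, ?_⟩
  filter_upwards [hK1, hK2, eventually_ge_atTop 3] with N h1 h2 h3
  constructor
  · refine (log_mono h3 (le_max_left K1 K2)).trans (h1.trans ?_)
    refine Nat.cast_le.2 (Set.ncard_le_ncard ?_ (hfin N _))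
    rintro x ⟨g1, g2, g3, g4, -, -⟩
    exact ⟨g1, g2, hγ' _ g3, hδ' _ g4⟩
  · refine (log_mono h3 (le_max_right K1 K2)).trans (h2.trans ?_)
    refine Nat.cast_le.2 (Set.ncard_le_ncard ?_ (hfin N _))
    rintro x ⟨g1, g2, g3, g4, g5, g6⟩
    exact ⟨g1, g2, hγ2' _ (g5.ne h3) g3, hδ2' _ (g6.ne h3) g4⟩

theorem diff_fin (a b : ℕ) (ha : 0 < a) (hb : 0 < b) (c : ℤ) (mu : ℝ) (X : ℕ)
    (P : ℕ × ℕ → Prop) : {x : ℕ × ℕ | (a : ℤ) * x.1 - b * x.2 = c ∧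
      min (a * x.1 : ℝ) (b * x.2) ≤ mu * X ∧ P x}.Finite := by
  obtain ⟨B, hB⟩ := exists_nat_ge (mu * X + |(c : ℝ)|)
  apply ((Set.finite_Iic B).prod (Set.finite_Iic B)).subset
  rintro ⟨m, n⟩ ⟨h3, h4, -⟩
  have h3 : (a : ℤ) * m - b * n = c := h3
  have h4 : min (a * m : ℝ) (b * n) ≤ mu * X := h4
  have h3r : (a : ℝ) * m - b * n = (c : ℝ) := by exact_mod_cast h3
  have h5 := le_abs_self (c : ℝ)
  have h6 := neg_abs_le (c : ℝ)
  have ha1 : (1 : ℝ) ≤ a := by exact_mod_cast ha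
  have hb1 : (1 : ℝ) ≤ b := by exact_mod_cast hb
  have hm0 : (0 : ℝ) ≤ m := Nat.cast_nonneg _
  have hn0 : (0 : ℝ) ≤ n := Nat.cast_nonneg _
  have hm1 : (m : ℝ) ≤ a * m := by nlinarith
  have hn1 : (n : ℝ) ≤ b * n := by nlinarith
  have key : (m : ℝ) ≤ B ∧ (n : ℝ) ≤ B := by
    rcases le_total ((a : ℝ) * m) (b * n) with h7 | h7
    · rw [min_eq_left h7] at h4
      exact ⟨by linarith, by linarith⟩
    · rw [min_eq_right h7] at h4
      exact ⟨by linarith, by linarith⟩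
  exact ⟨Set.mem_Iic.2 (by exact_mod_cast key.1), Set.mem_Iic.2 (by exact_mod_cast key.2)⟩

theorem Shape.ne {K M X m : ℕ} {c : ℤ} (h : Shape K M X c m) (hc : m = 0 → ∃ p : ℕ, p.Prime ∧ (p : ℤ) ∣ c) :
    m ≠ 0 := by
  intro h0
  obtain ⟨p, hp, hd⟩ := hc h0
  obtain ⟨k, s, g1, g2, g3, g4, g5⟩ := h
  exact (g5 p hp (by rw [h0]; exact dvd_zero _)).2 hd

set_option maxHeartbeats 1000000 in
/-- differences: numbers of prime factors and of divisors -/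
theorem diffs_ot : ∃ r₀ d₀ : ℕ, 0 < d₀ ∧ ∀ a b : ℕ, 0 < a → 0 < b → a.Coprime b →
    ∀ r s i j : ℕ, r₀ ≤ r → r₀ ≤ s → 1 ≤ i → 1 ≤ j →
    ∀ lam mu : ℝ, 0 ≤ lam → lam < mu → ∃ K : ℕ, ∀ᶠ X : ℕ in atTop,
    ∀ c : ℤ, c ≠ 0 → |c| ≤ X → IsCoprime c (a * b) → 2 ∣ a * b * c →
      (X : ℝ) / Real.log X ^ K ≤ ({x : ℕ × ℕ | (a : ℤ) * x.1 - b * x.2 = c ∧
        (lam * X ≤ min (a * x.1 : ℝ) (b * x.2) ∧ min (a * x.1 : ℝ) (b * x.2) ≤ mu * X) ∧
        x.1.primeFactors.card = r ∧ x.2.primeFactors.card = s}.ncard : ℝ) ∧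
      (X : ℝ) / Real.log X ^ K ≤ ({x : ℕ × ℕ | (a : ℤ) * x.1 - b * x.2 = c ∧
        (lam * X ≤ min (a * x.1 : ℝ) (b * x.2) ∧ min (a * x.1 : ℝ) (b * x.2) ≤ mu * X) ∧
        x.1.divisors.card = d₀ * i ∧ x.2.divisors.card = d₀ * j}.ncard : ℝ) := by
  obtain ⟨Φ, h⟩ := diffs fom {2} {1} (by simp) (by simp) (by simp) (by simp [fom])
  obtain ⟨Ψ, h'⟩ := diffs fta {3} {1, 1} (by simp) (by simp) (by simp) tau_rel
  have hfin : ∀ (a b : ℕ), 0 < a → 0 < b → ∀ (c : ℤ) (lam mu : ℝ) (X : ℕ) (P : ℕ × ℕ → Prop),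
      {x : ℕ × ℕ | (a : ℤ) * x.1 - b * x.2 = c ∧
      (lam * X ≤ min (a * x.1 : ℝ) (b * x.2) ∧ min (a * x.1 : ℝ) (b * x.2) ≤ mu * X) ∧
      P x}.Finite := by
    intro a b ha hb c lam mu X P
    apply (diff_fin a b ha hb c mu X P).subset
    rintro x ⟨h1, ⟨-, h2⟩, h3⟩
    exact ⟨h1, h2, h3⟩
  -- the basic number of divisors
  obtain ⟨d₀, hd, hd0⟩ : ∃ d₀ : ℕ, 0 < d₀ ∧ (d₀ : ℚ) = (Ψ : ℚ) := by
    obtain ⟨K, hK⟩ := h' 1 1 one_pos one_pos (by norm_num) 1 (one_mem _) 1 (one_mem _) 0 0 1 le_rfl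
      (by norm_num)
    obtain ⟨N, h2, h3⟩ := (hK.and (eventually_ge_atTop 3)).exists
    have h2 := h2 2 (by norm_num) (by
      have : (2 : ℤ) ≤ N := by
        have : 2 ≤ N := by omega
        exact_mod_cast this
      simpa using this) (by norm_num) (by norm_num)
    obtain ⟨x, -, -, h4, -, h5, -⟩ := ncard_pos_of h3 h2
    have h6 := h5.ne (fun _ => ⟨2, Nat.prime_two, by norm_num⟩)
    refine ⟨x.1.divisors.card, Finset.card_pos.2 ⟨1, Nat.one_mem_divisors.2 h6⟩, ?_⟩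
    rw [← Fm_tau _ h6, h4, mul_one]
  refine ⟨(Multiplicative.toAdd Φ).toNat, d₀, hd, ?_⟩
  intro a b ha hb hab r s i j hr hs hi hj lam mu hlam hlm
  obtain ⟨γ, hγ, hγ'⟩ := omega_mem Φ r hr
  obtain ⟨δ, hδ, hδ'⟩ := omega_mem Φ s hs
  obtain ⟨K1, hK1⟩ := h a b ha hb hab γ hγ δ hδ 0 lam mu hlam hlm
  obtain ⟨γ2, hγ2, hγ2'⟩ := tau_mem Ψ d₀ hd0 i hi
  obtain ⟨δ2, hδ2, hδ2'⟩ := tau_mem Ψ d₀ hd0 j hj
  obtain ⟨K2, hK2⟩ := h' a b ha hb hab γ2 hγ2 δ2 hδ2 (a * b) lam mu hlam hlm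
  refine ⟨max K1 K2, ?_⟩
  filter_upwards [hK1, hK2, eventually_ge_atTop 3] with X h1 h2 h3
  intro c hc0 hcX hcop h2c
  constructor
  · refine (log_mono h3 (le_max_left K1 K2)).trans ((h1 c hc0 hcX hcop h2c).trans ?_)
    refine Nat.cast_le.2 (Set.ncard_le_ncard ?_ (hfin a b ha hb c lam mu X _))
    rintro x ⟨g1, g2, g3, g4, -, -⟩
    exact ⟨g1, g2, hγ' _ g3, hδ' _ g4⟩
  · refine (log_mono h3 (le_max_right K1 K2)).trans ((h2 c hc0 hcX hcop h2c).trans ?_)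
    refine Nat.cast_le.2 (Set.ncard_le_ncard ?_ (hfin a b ha hb c lam mu X _))
    -- the members are not zero
    have hne : ∀ x : ℕ × ℕ, ∀ m, Shape K2 (a * b) X c m → m ≠ 0 := by
      rintro x m ⟨k, s, g1, g2, g3, g4, g5⟩ rfl
      have h4 := (g5 2 Nat.prime_two (dvd_zero _))
      have h5 := Nat.mul_pos ha hb
      -- `a b = 1`, so `2 ∣ c`
      have h6 : a * b = 1 := by omega
      have h7 : (a : ℤ) * b = 1 := by exact_mod_cast h6
      rw [h7, one_mul] at h2c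
      exact h4.2 (by exact_mod_cast h2c)
    rintro x ⟨g1, g2, g3, g4, g5, g6⟩
    exact ⟨g1, g2, hγ2' _ (hne x _ g5) g3, hδ2' _ (hne x _ g6) g4⟩

end Pool.Agent.Y887.UT
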